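import Pool.Agent.Lib.GBU.Loc
import Pool.Agent.Lib.GBR.Approx

/-!
Block GBU: elements of `K` with prescribed square classes at finitely many places.
-/

set_option autoImplicit false

open IsLocalRing

namespace Pool.Agent.GBU

open Pool.Agent.BSDFF Pool.Agent.GBC Pool.Agent.GBR Pool.Agent.BSDP.R

variable {k K : Type} [Field k] [Field K] [Algebra k K]

/-- The pair of `a` at `w`. -/
noncomputable def pr (w : Place k K) (a : K) : ZMod 2 × ZMod 2 := (sgv w a, phv w a)

theorem pr_mul (w : Place k K) (A : BSDK.LocAt w) {a b : K} (ha : a ≠ 0) (hb : b ≠ 0) :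
    pr w (a * b) = pr w a + pr w b :=
  Prod.ext (sgv_mul w ha hb) (phv_mul w A ha hb)

theorem pr_eq_zero (w : Place k K) (A : BSDK.LocAt w) {a : K} (ha : a ≠ 0) :
    pr w a = 0 ↔ IsSquare (w.toCompletion a) := by
  rw [sq_iff w A ha]
  exact Prod.ext_iff

theorem pr_one (w : Place k K) (A : BSDK.LocAt w) : pr w (1 : K) = 0 := by
  rw [pr_eq_zero w A one_ne_zero, map_one]
  exact ⟨1, by ring⟩

/-- classes -/
theorem pr_eq_iff (w : Place k K) (A : BSDK.LocAt w) {a b : K} (ha : a ≠ 0) (hb : b ≠ 0) :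
    pr w a = pr w b ↔ IsSquare (w.toCompletion (a / b)) := by
  rw [← pr_eq_zero w A (div_ne_zero ha hb)]
  have h : pr w a = pr w (a / b) + pr w b := by
    rw [← pr_mul w A (div_ne_zero ha hb) hb, div_mul_cancel₀ _ hb]
  rw [h]
  constructor
  · intro h1
    have := congrArg (fun z => z - pr w b) h1
    simpa using this
  · intro h1
    rw [h1, zero_add]

/-- A unit at `w` which is not a square in the completion. -/
theorem exists_nonsq (w : Place k K) (A : BSDK.LocAt w) :
    ∃ a : K, a ≠ 0 ∧ ord w a = 0 ∧ ¬ IsSquare (w.toCompletion a) := by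
  have hfin := A.fin
  have hchar : ringChar (ResidueField A.O) ≠ 2 := by
    intro h
    have h2 : (2 : ResidueField A.O) = 0 := by
      have := ringChar.Nat.cast_ringChar (R := ResidueField A.O)
      rw [h] at this
      exact_mod_cast this
    have h3 : residue A.O (2 : A.O) = 0 := by rw [map_ofNat]; exact h2
    rw [residue_eq_zero_iff, ValuationSubring.valuation_lt_one_iff] at h3
    have h4 : ((2 : A.O) : w.ring.valuation.Completion) = 2 := rfl
    rw [h4, A.two] at h3
    exact lt_irrefl _ h3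
  obtain ⟨y, hy⟩ := FiniteField.exists_nonsquare hchar
  obtain ⟨z, rfl⟩ := residue_surjective y
  have hy0 : residue A.O z ≠ 0 := by
    intro h
    rw [h] at hy
    exact hy ⟨0, by ring⟩
  have hzv : A.O.valuation (z : w.ring.valuation.Completion) = 1 := by
    rw [Ne, residue_eq_zero_iff, mem_maximalIdeal, mem_nonunits_iff, not_not,
      ValuationSubring.valuation_eq_one_iff] at hy0
    exact hy0
  obtain ⟨a, ha⟩ := A.dense (z : w.ring.valuation.Completion) 1 one_ne_zero
  rw [map_one] at ha
  have hav : A.O.valuation (w.toCompletion a) = 1 := by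
    have h2 : w.toCompletion a = z - (z - w.toCompletion a) := by ring
    rw [h2, Valuation.map_sub_eq_of_lt_left _ (by rw [hzv]; exact ha), hzv]
  have ha0 : a ≠ 0 := by
    rintro rfl
    rw [map_zero, map_zero] at hav
    exact zero_ne_one hav
  have haO : w.toCompletion a ∈ A.O := by
    rw [← ValuationSubring.valuation_le_one_iff, hav]
  refine ⟨a, ha0, ?_, ?_⟩
  · have h1 := val_compU w A ha0
    rw [hav] at h1
    have hV0 : A.O.valuation (w.toCompletion (unif w : K)) ≠ 0 :=
      (Valuation.ne_zero_iff _).2 ((_root_.map_ne_zero _).2 (unif_neU w))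
    have hV1 : A.O.valuation (w.toCompletion (unif w : K)) < 1 := by
      rw [A.lt_iff]
      exact (w.ring.valuation_lt_one_iff _).mp
        ((IsLocalRing.mem_maximalIdeal _).mpr (unif_irreducible w).not_isUnit)
    have hinj : Function.Injective fun n : ℤ => A.O.valuation (w.toCompletion (unif w : K)) ^ n :=
      (zpow_right_strictAnti₀ (zero_lt_iff.2 hV0) hV1).injective
    apply hinj
    simp only [zpow_zero]
    exact h1.symm
  · intro hsq
    have hunit : IsUnit (⟨w.toCompletion a, haO⟩ : A.O) := by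
      rw [ValuationSubring.valuation_eq_one_iff]
      exact hav
    have h1 := (isSquare_iff_residue A.toLoc ⟨w.toCompletion a, haO⟩ hunit).1 hsq
    apply hy
    have h2 : residue A.O z = residue A.O ⟨w.toCompletion a, haO⟩ := by
      rw [← sub_eq_zero, ← map_sub, residue_eq_zero_iff, ValuationSubring.valuation_lt_one_iff]
      exact ha
    rw [h2]
    exact h1

/-- All pairs occur. -/
theorem exists_pr (w : Place k K) (A : BSDK.LocAt w) (x : ZMod 2 × ZMod 2) :
    ∃ a : K, a ≠ 0 ∧ pr w a = x := by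
  obtain ⟨e, he, he0, hens⟩ := exists_nonsq w A
  have h1 : pr w e = (0, 1) := by
    have hev : Even (ord w e) := by rw [he0]; exact Even.zero
    refine Prod.ext ((sgv_eq_zero w).2 hev) ?_
    have h3 : phv w e ≠ 0 := fun h => hens ((phv_even w A he hev).1 h)
    change phv w e = 1
    revert h3
    generalize phv w e = y
    revert y
    decide
  have h2 : pr w (unif w : K) = (1, 0) := by
    refine Prod.ext ?_ ?_
    · change ((ord w (unif w : K) : ℤ) : ZMod 2) = 1
      rw [ord_unif]
      rfl
    · change phv w (unif w : K) = 0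
      unfold phv
      rw [ord_unif, zpow_neg_one, mul_inv_cancel₀ (unif_neU w), map_one, if_pos ⟨1, by ring⟩]
  have hx : x = 0 ∨ x = (0, 1) ∨ x = (1, 0) ∨ x = (1, 0) + (0, 1) := by
    revert x
    decide
  rcases hx with rfl | rfl | rfl | rfl
  · exact ⟨1, one_ne_zero, pr_one w A⟩
  · exact ⟨e, he, h1⟩
  · exact ⟨_, unif_neU w, h2⟩
  · exact ⟨_, mul_ne_zero (unif_neU w) he, by rw [pr_mul w A (unif_neU w) he, h1, h2]⟩

/-- Weak approximation modulo squares. -/
theorem exists_classL (loc : ∀ w : Place k K, BSDK.LocAt w) {S : Set (Place k K)} (hf : S.Finite)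
    (c : Place k K → K) (hc : ∀ w ∈ S, c w ≠ 0) :
    ∃ u : K, u ≠ 0 ∧ ∀ w ∈ S, IsSquare (w.toCompletion (u / c w)) := by
  classical
  rcases S.eq_empty_or_nonempty with rfl | ⟨w₀, hw₀⟩
  · exact ⟨1, one_ne_zero, fun w hw => absurd hw (Set.notMem_empty w)⟩
  obtain ⟨x, hx⟩ := approx hf.toFinset c c (fun v hv => hc v (hf.mem_toFinset.1 hv))
  have hx0 : x ≠ 0 := by
    rintro rfl
    have := hx w₀ (hf.mem_toFinset.2 hw₀)
    rw [zero_sub, Valuation.map_neg] at this
    exact lt_irrefl _ this
  refine ⟨x, hx0, fun w hw => ?_⟩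
  have h1 := hx w (hf.mem_toFinset.2 hw)
  have hcw := hc w hw
  apply isSquare_of_near (loc w).toLoc
  have h2 : w.toCompletion (x / c w) - 1 = w.toCompletion ((x - c w) / c w) := by
    rw [sub_div, div_self hcw, map_sub, map_one]
  rw [h2]
  change (loc w).O.valuation (w.toCompletion ((x - c w) / c w)) < 1
  rw [(loc w).lt_iff, map_div₀]
  have h3 : w.ring.valuation (c w) ≠ 0 := (Valuation.ne_zero_iff _).2 hcw
  rw [div_lt_one₀ (zero_lt_iff.2 h3)]
  exact h1

/-- Elements with prescribed pairs. -/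
theorem exists_prs (loc : ∀ w : Place k K, BSDK.LocAt w) {S : Set (Place k K)} (hf : S.Finite)
    (ξ : Place k K → ZMod 2 × ZMod 2) : ∃ u : K, u ≠ 0 ∧ ∀ w ∈ S, pr w u = ξ w := by
  choose c hc hcξ using fun w => exists_pr w (loc w) (ξ w)
  obtain ⟨u, hu, h⟩ := exists_classL loc hf c (fun w _ => hc w)
  refine ⟨u, hu, fun w hw => ?_⟩
  rw [← hcξ w, pr_eq_iff w (loc w) hu (hc w)]
  exact h w hw

end Pool.Agent.GBU
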