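import Pool.Agent.Lib.GBU.Dv

/-!
Block GBU: divisors of functions, the product formula, Riemann's theorem.
-/

set_option autoImplicit false

namespace Pool.Agent.GBU

open Pool.Agent.BSDFF Pool.Agent.GBC

variable {k K : Type} [Field k] [Field K] [Algebra k K] (G : Geo k K)

/-- Finitely many places over a Dedekind domain contain a given element in their centre. -/
private theorem fin_pos (R : Subalgebra k K) [IsDedekindDomain R] [IsFractionRing R K] {a : R}
    (ha : a ≠ 0) : {w : Place k K | Over R w ∧ 0 < ord w (a : K)}.Finite := by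
  classical
  have hI : Ideal.span {a} ≠ 0 := by
    rw [Ne, Ideal.zero_eq_bot, Ideal.span_singleton_eq_bot]
    exact ha
  have ha' : (a : K) ≠ 0 := fun h => ha (Subtype.ext h)
  have hfin := Ideal.finite_factors hI
  rw [← Set.finite_coe_iff] at hfin ⊢
  let F : {w : Place k K | Over R w ∧ 0 < ord w (a : K)} →
      {v : IsDedekindDomain.HeightOneSpectrum R | v.asIdeal ∣ Ideal.span {a}} :=
    fun w => ⟨⟨cen R w.1 w.2.1, (cen_isMaximal R w.2.1).isPrime, cen_ne_bot R w.2.1⟩, by
      change cen R w.1 w.2.1 ∣ _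
      rw [Ideal.dvd_iff_le, Ideal.span_singleton_le_iff_mem, mem_cen,
        val_lt_one_iff w.1 ha']
      exact w.2.2⟩
  refine Finite.of_injective F ?_
  intro w w' h
  have h1 : cen R w.1 w.2.1 = cen R w'.1 w'.2.1 :=
    congrArg (fun v => (v.1 : IsDedekindDomain.HeightOneSpectrum R).asIdeal) h
  exact Subtype.ext (cen_injective R w.2.1 w'.2.1 h1)

include G

/-- A function has finitely many zeros and poles. -/
theorem ord_finite {x : K} (hx : x ≠ 0) : {w : Place k K | ord w x ≠ 0}.Finite := by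
  have := G.dedA
  have := G.fracA
  obtain ⟨a, s, hs, has⟩ := IsFractionRing.div_surjective (A := G.A) x
  have hs0 : s ≠ 0 := nonZeroDivisors.ne_zero hs
  have ha0 : a ≠ 0 := by
    rintro rfl
    rw [map_zero, zero_div] at has
    exact hx has.symm
  have h1 := fin_pos G.A ha0
  have h2 := fin_pos G.A hs0
  refine ((h1.union h2).union G.finite_inf).subset ?_
  intro w hw
  rw [Set.mem_ofPred_eq] at hw
  rcases G.places w with hA | hB
  · left
    have hA' : Over G.A w := hA
    have e1 : (algebraMap G.A K a) ≠ 0 := by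
      rw [Ne, FaithfulSMul.algebraMap_eq_zero_iff]
      exact ha0
    have e2 : (algebraMap G.A K s) ≠ 0 := by
      rw [Ne, FaithfulSMul.algebraMap_eq_zero_iff]
      exact hs0
    rw [← has, ord_div w e1 e2] at hw
    have h3 : 0 ≤ ord w (algebraMap G.A K a) := (mem_ring_iff w e1).1 (hA' _ a.2)
    have h4 : 0 ≤ ord w (algebraMap G.A K s) := (mem_ring_iff w e2).1 (hA' _ s.2)
    by_cases h5 : 0 < ord w (algebraMap G.A K a)
    · exact Or.inl ⟨hA', h5⟩
    · right
      refine ⟨hA', ?_⟩
      change 0 < ord w (algebraMap G.A K s)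
      omega
  · exact Or.inr hB

theorem exists_pdiv {x : K} (hx : x ≠ 0) : ∃ D : Place k K →₀ ℤ, ∀ w, D w = ord w x := by
  classical
  exact ⟨Finsupp.onFinset (ord_finite G hx).toFinset (fun w => ord w x) fun w hw => by
    rw [Set.Finite.mem_toFinset]
    exact hw, fun w => rfl⟩

omit G in
private theorem over_zero (R : Subalgebra k K) : degOver R (0 : Place k K →₀ ℤ) = 0 := by
  unfold degOver
  exact Finsupp.sum_zero_index

omit G in
private theorem chi_step (R : Subalgebra k K) [IsDedekindDomain R] [IsFractionRing R K]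
    (hfin : ∀ I : Ideal R, I ≠ ⊥ → Module.Finite k (R ⧸ I)) (D : Place k K →₀ ℤ)
    {M : Submodule k K} (hM : ChiFin (RRS R 0) M) :
    ChiFin (RRS R D) M ∧ chi (RRS R D) M = chi (RRS R 0) M - degOver R D := by
  have hE1 : ∀ w, Over R w → (D ⊓ 0) w ≤ D w := fun w _ => by
    rw [Finsupp.inf_apply]
    exact inf_le_left
  have hE2 : ∀ w, Over R w → (D ⊓ 0) w ≤ (0 : Place k K →₀ ℤ) w := fun w _ => by
    rw [Finsupp.inf_apply]
    exact inf_le_right
  obtain ⟨a1, a2⟩ := rel R hfin hE1
  obtain ⟨b1, b2⟩ := rel R hfin hE2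
  obtain ⟨c1, c2⟩ := chi_left (M := M) (RR_anti R hE1) a1
  obtain ⟨d1, d2⟩ := chi_left (M := M) (RR_anti R hE2) b1
  have e1 := d1.1 hM
  have e2 := c1.2 e1
  refine ⟨e2, ?_⟩
  have f1 := d2 hM
  have f2 := c2 e2
  rw [a2] at f2
  rw [b2, over_zero R] at f1
  linarith

private theorem deg_split (D : Place k K →₀ ℤ) :
    degOver G.A D + degOver G.B D = degD D := by
  classical
  unfold degOver degD
  rw [← Finsupp.sum_add]
  refine Finsupp.sum_congr fun w _ => ?_
  rcases G.places w with h | h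
  · have hA : Over G.A w := h
    rw [if_pos hA, if_neg fun hB => G.not_both w hA hB, add_zero]
  · have hB : Over G.B w := h
    rw [if_pos hB, if_neg fun hA => G.not_both w hA hB, zero_add]

/-- The Euler characteristic of a divisor. -/
theorem chi_deg [IsDedekindDomain G.B] [IsFractionRing G.B K] (D : Place k K →₀ ℤ) :
    ChiFin (RRS G.B D) (RRS G.A D) ∧
      chi (RRS G.B D) (RRS G.A D) = chi (RRS G.B 0) (RRS G.A 0) - degD D := by
  have h0 : ChiFin (RRS G.A 0) (RRS G.B 0) := by
    rw [RR_zero G.A, RR_zero G.B]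
    exact ⟨G.fin_inf, G.fin_sup⟩
  obtain ⟨h1, h2⟩ := chi_step G.A G.fin_quotI D h0
  obtain ⟨h3, h4⟩ := chi_step G.B G.fin_quotB D (chiFin_comm.1 h1)
  rw [chi_comm (RRS G.B 0), h2] at h4
  have h5 := deg_split G D
  refine ⟨h3, ?_⟩
  rw [h4, chi_comm (RRS G.A 0)]
  linarith

omit G in
private theorem map_RRS (R : Subalgebra k K) {x : K} (hx : x ≠ 0) {D D' : Place k K →₀ ℤ}
    (h : ∀ w, Over R w → D' w = D w + ord w x) :
    (RRS R D).map ((LinearEquiv.smulOfNeZero K K x hx).restrictScalars k : K →ₗ[k] K) = RRS R D' := by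
  ext y
  rw [Submodule.mem_map]
  constructor
  · rintro ⟨z, hz, rfl⟩
    intro w hw
    by_cases hz0 : z = 0
    · left
      rw [hz0]
      exact map_zero _
    · right
      have h1 := (hz w hw).resolve_left hz0
      change D' w ≤ ord w (x • z)
      rw [smul_eq_mul, ord_mul w hx hz0, h w hw]
      linarith
  · intro hy
    refine ⟨x⁻¹ * y, fun w hw => ?_, ?_⟩
    · by_cases hy0 : y = 0
      · left
        rw [hy0, mul_zero]
      · right
        have h1 := (hy w hw).resolve_left hy0
        rw [ord_mul w (inv_ne_zero hx) hy0, ord_inv w hx]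
        rw [h w hw] at h1
        linarith
    · change x • (x⁻¹ * y) = y
      rw [smul_eq_mul, ← mul_assoc, mul_inv_cancel₀ hx, one_mul]

/-- The product formula. -/
theorem degD_prin {D : Place k K →₀ ℤ} (hD : D ∈ Prin k K) : degD D = 0 := by
  have := G.dedA
  have := G.fracA
  have := G.dedB
  have := G.fracB
  obtain ⟨x, hx, hxD⟩ := hD
  have h1 := (chi_map ((LinearEquiv.smulOfNeZero K K x hx).restrictScalars k)
    (RRS G.B 0) (RRS G.A 0)).2
  rw [map_RRS G.B hx (D' := D) (fun w _ => by rw [hxD w, Finsupp.zero_apply, zero_add]),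
    map_RRS G.A hx (D' := D) (fun w _ => by rw [hxD w, Finsupp.zero_apply, zero_add])] at h1
  have h2 := (chi_deg G D).2
  linarith

private theorem LL_eq [IsDedekindDomain G.B] [IsFractionRing G.B K] (D : Place k K →₀ ℤ) :
    LL D = RRS G.B (-D) ⊓ RRS G.A (-D) := by
  ext u
  rw [Submodule.mem_inf]
  constructor
  · rintro (rfl | h)
    · exact ⟨Submodule.zero_mem _, Submodule.zero_mem _⟩
    · exact ⟨fun w _ => Or.inr (h w), fun w _ => Or.inr (h w)⟩
  · rintro ⟨h1, h2⟩
    by_cases hu : u = 0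
    · exact Or.inl hu
    · refine Or.inr fun w => ?_
      rcases G.places w with h | h
      · exact (h2 w h).resolve_left hu
      · exact (h1 w h).resolve_left hu

omit G in
private theorem degD_neg (D : Place k K →₀ ℤ) : degD (-D) = -degD D :=
  map_neg (degHom k K) D

theorem LL_finite (D : Place k K →₀ ℤ) : Module.Finite k (LL D) := by
  have := G.dedB
  have := G.fracB
  rw [LL_eq G D]
  exact (chi_deg G (-D)).1.inf

/-- Linearly equivalent divisors. -/
theorem LL_congr {D D' : Place k K →₀ ℤ} (h : D - D' ∈ Prin k K) :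
    Module.finrank k (LL D) = Module.finrank k (LL D') := by
  have := G.dedA
  have := G.fracA
  have := G.dedB
  have := G.fracB
  obtain ⟨x, hx, hxD⟩ := h
  have h2 : (LL D).map ((LinearEquiv.smulOfNeZero K K x hx).restrictScalars k : K →ₗ[k] K) =
      LL D' := by
    rw [LL_eq G, LL_eq G, Submodule.map_inf _
      ((LinearEquiv.smulOfNeZero K K x hx).restrictScalars k).injective]
    rw [map_RRS G.B hx (D' := -D'), map_RRS G.A hx (D' := -D')]
    · intro w _
      have := hxD w
      rw [Finsupp.sub_apply] at this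
      rw [Finsupp.neg_apply, Finsupp.neg_apply]
      linarith
    · intro w _
      have := hxD w
      rw [Finsupp.sub_apply] at this
      rw [Finsupp.neg_apply, Finsupp.neg_apply]
      linarith
  rw [← h2]
  exact (LinearEquiv.finrank_map_eq _ _).symm

/-- `l(D) - deg D` is decreasing. -/
theorem LL_sub_deg {D D' : Place k K →₀ ℤ} (h : D ≤ D') :
    (Module.finrank k (LL D') : ℤ) - degD D' ≤ Module.finrank k (LL D) - degD D := by
  have := G.dedA
  have := G.fracA
  have := G.dedB
  have := G.fracB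
  have hl : ∀ D, (Module.finrank k (LL D) : ℤ) = degD D + chi (RRS G.B 0) (RRS G.A 0) +
      Module.finrank k (K ⧸ (RRS G.B (-D) ⊔ RRS G.A (-D))) := by
    intro D
    have h2 := (chi_deg G (-D)).2
    rw [chi, ← LL_eq G D, degD_neg] at h2
    linarith
  have hle : RRS G.B (-D) ⊔ RRS G.A (-D) ≤ RRS G.B (-D') ⊔ RRS G.A (-D') :=
    sup_le_sup (RR_anti G.B fun w _ => neg_le_neg (h w)) (RR_anti G.A fun w _ => neg_le_neg (h w))
  have := (chi_deg G (-D)).1.sup
  have h3 := LinearMap.finrank_le_finrank_of_surjective (Submodule.factor_surjective hle)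
  have h4 := hl D
  have h5 := hl D'
  have h6 : (Module.finrank k (K ⧸ (RRS G.B (-D') ⊔ RRS G.A (-D'))) : ℤ) ≤
    Module.finrank k (K ⧸ (RRS G.B (-D) ⊔ RRS G.A (-D))) := by exact_mod_cast h3
  linarith

/-- Riemann's theorem. -/
theorem riemann_eq : ∃ c C : ℤ, ∀ D : Place k K →₀ ℤ,
    degD D + c ≤ Module.finrank k (LL D) ∧
    (C ≤ degD D → (Module.finrank k (LL D) : ℤ) = degD D + c) := by
  classical
  have := G.dedA
  have := G.fracA
  have := G.dedB
  have := G.fracB
  -- `h1`
  let h1 : (Place k K →₀ ℤ) → ℕ := fun D =>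
    Module.finrank k (K ⧸ (RRS G.B (-D) ⊔ RRS G.A (-D)))
  have hl : ∀ D, (Module.finrank k (LL D) : ℤ) =
      degD D + chi (RRS G.B 0) (RRS G.A 0) + h1 D := by
    intro D
    have h2 := (chi_deg G (-D)).2
    rw [chi, ← LL_eq G D, degD_neg] at h2
    have h3 : (h1 D : ℤ) = Module.finrank k (K ⧸ (RRS G.B (-D) ⊔ RRS G.A (-D))) := rfl
    rw [h3]
    linarith
  have hmono : ∀ D D', D ≤ D' → h1 D' ≤ h1 D := by
    intro D D' hD
    have hle : RRS G.B (-D) ⊔ RRS G.A (-D) ≤ RRS G.B (-D') ⊔ RRS G.A (-D') :=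
      sup_le_sup (RR_anti G.B fun w _ => neg_le_neg (hD w)) (RR_anti G.A fun w _ => neg_le_neg (hD w))
    have := (chi_deg G (-D)).1.sup
    exact LinearMap.finrank_le_finrank_of_surjective (Submodule.factor_surjective hle)
  obtain ⟨D₀, hD₀⟩ : ∃ D₀, ∀ D, h1 D₀ ≤ h1 D := by
    have hne : (Set.range h1).Nonempty := ⟨_, 0, rfl⟩
    obtain ⟨D₀, hD₀⟩ := Nat.sInf_mem hne
    exact ⟨D₀, fun D => by rw [hD₀]; exact Nat.sInf_le ⟨D, rfl⟩⟩
  obtain ⟨C, hC⟩ := G.riemann
  refine ⟨chi (RRS G.B 0) (RRS G.A 0) + h1 D₀, C + degD D₀ + 1, fun D => ⟨?_, fun hD => ?_⟩⟩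
  · rw [hl D]
    have := hD₀ D
    have : (h1 D₀ : ℤ) ≤ h1 D := by exact_mod_cast this
    linarith
  · -- `D - D₀` is equivalent to an effective divisor
    obtain ⟨u, hu, hu'⟩ := hC (D₀ - D) (by
      have : degD (D₀ - D) = degD D₀ - degD D := map_sub (degHom k K) _ _
      linarith)
    obtain ⟨E, hE⟩ := exists_pdiv G hu
    have hEP : (D + E) - D ∈ Prin k K := by
      rw [add_sub_cancel_left]
      exact ⟨u, hu, hE⟩
    have hdeg : degD (D + E) = degD D := by
      have h3 : degD (D + E) = degD D + degD E := map_add (degHom k K) _ _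
      rw [h3, degD_prin G ⟨u, hu, hE⟩, add_zero]
    have hle : D₀ ≤ D + E := by
      intro w
      have := hu' w
      rw [Finsupp.sub_apply] at this
      rw [Finsupp.add_apply, hE w]
      linarith
    rw [← LL_congr G hEP, hl, hdeg]
    have h4 : h1 (D + E) = h1 D₀ := le_antisymm (hmono _ _ hle) (hD₀ _)
    rw [h4]
    ring

end Pool.Agent.GBU
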