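import Pool.Agent.Lib.GBC.P.Riem
import Pool.Agent.Lib.GBC.P.FP

/-!
Block GBU (the `Z/2`-theory of a general global function field `K`), divisors: definitions.

`Place k K`, `ord`, `degD`, `Geo k K` are those of GBC. `k` need not be algebraically closed in `K`:
degrees are degrees over `k`.
-/

set_option autoImplicit false

namespace Pool.Agent.GBU

open Pool.Agent.BSDFF Pool.Agent.GBC

variable {k K : Type} [Field k] [Field K] [Algebra k K]

/-- The functions `u` with `ord w u ≥ - D w` at all places `w`. -/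
def LL (D : Place k K →₀ ℤ) : Submodule k K where
  carrier := {u | u = 0 ∨ ∀ w, -D w ≤ ord w u}
  add_mem' {a b} ha hb := by
    by_cases h : a + b = 0
    · exact Or.inl h
    rcases ha with rfl | ha
    · rw [zero_add]
      exact hb
    rcases hb with rfl | hb
    · rw [add_zero]
      exact Or.inr ha
    by_cases ha0 : a = 0
    · subst ha0
      rw [zero_add]
      exact Or.inr hb
    by_cases hb0 : b = 0
    · subst hb0
      rw [add_zero]
      exact Or.inr ha
    exact Or.inr fun w => le_trans (le_min (ha w) (hb w)) (min_le_ord_add w ha0 hb0 h)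
  zero_mem' := Or.inl rfl
  smul_mem' c x hx := by
    by_cases hc : c = 0
    · left
      rw [hc, zero_smul]
    rcases hx with rfl | hx
    · left
      rw [smul_zero]
    by_cases hx0 : x = 0
    · left
      rw [hx0, smul_zero]
    · refine Or.inr fun w => ?_
      rw [Algebra.smul_def, ord_mul w (by simpa using hc) hx0, ord_const w hc, zero_add]
      exact hx w

theorem mem_LL {D : Place k K →₀ ℤ} {u : K} : u ∈ LL D ↔ u = 0 ∨ ∀ w, -D w ≤ ord w u := Iff.rfl

theorem mem_LL_iff {D : Place k K →₀ ℤ} {u : K} (hu : u ≠ 0) :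
    u ∈ LL D ↔ ∀ w, -D w ≤ ord w u := by
  rw [mem_LL]
  exact ⟨fun h => h.resolve_left hu, Or.inr⟩

theorem LL_mono {D D' : Place k K →₀ ℤ} (h : D ≤ D') : LL D ≤ LL D' := by
  intro u hu
  rcases hu with rfl | hu
  · exact Or.inl rfl
  · exact Or.inr fun w => le_trans (neg_le_neg (h w)) (hu w)

variable (k K) in
/-- The group of principal divisors. -/
def Prin : AddSubgroup (Place k K →₀ ℤ) where
  carrier := {D | ∃ x : K, x ≠ 0 ∧ ∀ w, D w = ord w x}
  add_mem' {a b} ha hb := by
    obtain ⟨x, hx, hx'⟩ := ha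
    obtain ⟨y, hy, hy'⟩ := hb
    refine ⟨x * y, mul_ne_zero hx hy, fun w => ?_⟩
    rw [Finsupp.add_apply, hx', hy', ord_mul w hx hy]
  zero_mem' := ⟨1, one_ne_zero, fun w => by rw [ord_one]; rfl⟩
  neg_mem' {a} ha := by
    obtain ⟨x, hx, hx'⟩ := ha
    refine ⟨x⁻¹, inv_ne_zero hx, fun w => ?_⟩
    rw [Finsupp.neg_apply, hx', ord_inv w hx]

theorem mem_Prin {D : Place k K →₀ ℤ} : D ∈ Prin k K ↔ ∃ x : K, x ≠ 0 ∧ ∀ w, D w = ord w x :=
  Iff.rfl

variable (k K) in
/-- The degree of a divisor as a homomorphism. -/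
noncomputable def degHom : (Place k K →₀ ℤ) →+ ℤ where
  toFun := degD
  map_zero' := Finsupp.sum_zero_index
  map_add' a b := by
    unfold degD
    exact Finsupp.sum_add_index' (fun w => mul_zero _) (fun w x y => mul_add _ _ _)

theorem degHom_apply (D : Place k K →₀ ℤ) : degHom k K D = degD D := rfl

/-- The elements with even order outside of `S`. -/
def XS (S : Set (Place k K)) : Subgroup Kˣ where
  carrier := {u | ∀ w ∉ S, Even (ord w (u : K))}
  mul_mem' {a b} ha hb := fun w hw => by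
    rw [Units.val_mul, ord_mul w a.ne_zero b.ne_zero]
    exact (ha w hw).add (hb w hw)
  one_mem' := fun w _ => by
    rw [Units.val_one, ord_one]
    exact Even.zero
  inv_mem' {a} ha := fun w hw => by
    rw [Units.val_inv_eq_inv_val, ord_inv w a.ne_zero]
    exact (ha w hw).neg

/-- The `S`-units. -/
def SU (S : Set (Place k K)) : Subgroup Kˣ where
  carrier := {u | ∀ w ∉ S, ord w (u : K) = 0}
  mul_mem' {a b} ha hb := fun w hw => by
    rw [Units.val_mul, ord_mul w a.ne_zero b.ne_zero, ha w hw, hb w hw, add_zero]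
  one_mem' := fun w _ => by
    rw [Units.val_one, ord_one]
  inv_mem' {a} ha := fun w hw => by
    rw [Units.val_inv_eq_inv_val, ord_inv w a.ne_zero, ha w hw, neg_zero]

theorem mem_XS {S : Set (Place k K)} {u : Kˣ} : u ∈ XS S ↔ ∀ w ∉ S, Even (ord w (u : K)) := Iff.rfl

theorem mem_SU {S : Set (Place k K)} {u : Kˣ} : u ∈ SU S ↔ ∀ w ∉ S, ord w (u : K) = 0 := Iff.rfl

/-- The squares of `Kˣ`. -/
def Sqs (K : Type) [Field K] : Subgroup Kˣ := (powMonoidHom 2 : Kˣ →* Kˣ).range

theorem mem_Sqs {u : Kˣ} : u ∈ Sqs K ↔ ∃ v : Kˣ, v ^ 2 = u := Iff.rfl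

/-- Every divisor is the divisor of a function outside of `S`. -/
def PrinOut (S : Set (Place k K)) : Prop :=
  ∀ D : Place k K →₀ ℤ, ∃ x : K, x ≠ 0 ∧ ∀ w ∉ S, ord w x = D w

end Pool.Agent.GBU
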