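import Pool.Agent.Lib.GBU.Div

/-!
Block GBU: effective divisors, finiteness of `Pic⁰`.
-/

set_option autoImplicit false

namespace Pool.Agent.GBU

open Pool.Agent.BSDFF Pool.Agent.GBC

variable {k K : Type} [Field k] [Field K] [Algebra k K] (G : Geo k K)

theorem degD_nonneg {D : Place k K →₀ ℤ} (h : 0 ≤ D) : 0 ≤ degD D := by
  unfold degD
  exact Finsupp.sum_nonneg fun w _ => mul_nonneg (Int.natCast_nonneg _) (h w)

theorem degD_add (D D' : Place k K →₀ ℤ) : degD (D + D') = degD D + degD D' :=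
  map_add (degHom k K) D D'

theorem degD_sub (D D' : Place k K →₀ ℤ) : degD (D - D') = degD D - degD D' :=
  map_sub (degHom k K) D D'

theorem degD_neg (D : Place k K →₀ ℤ) : degD (-D) = -degD D :=
  map_neg (degHom k K) D

theorem degD_zero : degD (0 : Place k K →₀ ℤ) = 0 := map_zero (degHom k K)

theorem degD_nsmul (n : ℕ) (D : Place k K →₀ ℤ) : degD (n • D) = n * degD D := by
  have := map_nsmul (degHom k K) n D
  rw [nsmul_eq_mul] at this
  exact this

theorem degD_zsmul (n : ℤ) (D : Place k K →₀ ℤ) : degD (n • D) = n * degD D := by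
  have := map_zsmul (degHom k K) n D
  rw [zsmul_eq_mul, Int.cast_id] at this
  exact this

theorem degD_single (w : Place k K) (n : ℤ) : degD (Finsupp.single w n) = w.degree * n := by
  unfold degD
  exact Finsupp.sum_single_index (mul_zero _)

include G

/-- An effective divisor in the class of `D`. -/
theorem eff_of_mem {D : Place k K →₀ ℤ} {u : K} (hu : u ≠ 0) (h : u ∈ LL D) :
    ∃ E : Place k K →₀ ℤ, 0 ≤ E ∧ E - D ∈ Prin k K ∧ ∀ w, E w = D w + ord w u := by
  obtain ⟨F, hF⟩ := exists_pdiv G hu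
  refine ⟨D + F, fun w => ?_, ?_, fun w => ?_⟩
  · have := (mem_LL_iff hu).1 h w
    rw [Finsupp.add_apply, hF w, Finsupp.zero_apply]
    linarith
  · rw [add_sub_cancel_left]
    exact ⟨u, hu, hF⟩
  · rw [Finsupp.add_apply, hF w]

theorem degD_congr {D D' : Place k K →₀ ℤ} (h : D - D' ∈ Prin k K) : degD D = degD D' := by
  have h1 := degD_prin G h
  rw [degD_sub] at h1
  linarith

theorem LL_eq_bot {D : Place k K →₀ ℤ} (h : degD D < 0) : LL D = ⊥ := by
  rw [Submodule.eq_bot_iff]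
  intro u hu
  by_contra hu0
  obtain ⟨E, h1, h2, _⟩ := eff_of_mem G hu0 hu
  have h3 := degD_congr G h2
  have h4 := degD_nonneg h1
  linarith

/-- `l(D) ≤ deg D + l(0)` -/
theorem LL_le (D : Place k K →₀ ℤ) (h : 0 ≤ degD D) :
    (Module.finrank k (LL D) : ℤ) ≤ degD D + Module.finrank k (LL (0 : Place k K →₀ ℤ)) := by
  by_cases hb : LL D = ⊥
  · rw [hb, finrank_bot]
    positivity
  · obtain ⟨u, hu, hu0⟩ := Submodule.exists_mem_ne_zero_of_ne_bot hb
    obtain ⟨E, h1, h2, _⟩ := eff_of_mem G hu0 hu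
    have h3 := LL_sub_deg G h1
    rw [← LL_congr G h2, ← degD_congr G h2]
    rw [degD_zero] at h3
    linarith

theorem exists_place_geo : Nonempty (Place k K) := by
  have := G.dedB
  have := G.fracB
  have hI : Ideal.span {(⟨G.t⁻¹, G.inv_mem⟩ : G.B)} ≠ ⊤ := by
    intro h
    have h1 := G.dim_quot
    have h2 : Subsingleton (G.B ⧸ Ideal.span {(⟨G.t⁻¹, G.inv_mem⟩ : G.B)}) :=
      Ideal.Quotient.subsingleton_iff.2 h
    rw [Module.finrank_zero_of_subsingleton] at h1
    have := G.d_pos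
    omega
  obtain ⟨P, hP, hP'⟩ := Ideal.exists_le_maximal _ hI
  obtain ⟨w, _, _⟩ := exists_place G.B P hP (fun h => by
    rw [h, le_bot_iff, Ideal.span_singleton_eq_bot] at hP'
    exact inv_ne_zero G.t_ne (congrArg Subtype.val hP'))
  exact ⟨w⟩

/-- The zero divisor. -/
theorem ord_eq_zero {u : K} (hu : u ≠ 0) (h : u ∈ LL (0 : Place k K →₀ ℤ)) (w : Place k K) :
    ord w u = 0 := by
  obtain ⟨E, h1, h2, h3⟩ := eff_of_mem G hu h
  have h4 := degD_congr G h2
  rw [degD_zero] at h4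
  unfold degD at h4
  rw [Finsupp.sum] at h4
  have h5 : ∀ v ∈ E.support, (v.degree : ℤ) * E v = 0 :=
    (Finset.sum_eq_zero_iff_of_nonneg fun v _ => mul_nonneg (Int.natCast_nonneg _) (h1 v)).1 h4
  by_contra hne
  have h6 : E w ≠ 0 := by
    rw [h3 w, Finsupp.zero_apply, zero_add]
    exact hne
  have h7 := h5 w (Finsupp.mem_support_iff.2 h6)
  have h8 := G.degree_pos w
  rcases mul_eq_zero.1 h7 with h | h
  · omega
  · exact h6 h

variable [Finite k]

theorem finite_deg_le (n : ℕ) : {w : Place k K | w.degree ≤ n}.Finite := by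
  have h1 : ({w : G.FP | w.1.degree ≤ n}).Finite := by
    have h2 : {w : G.FP | w.1.degree ≤ n} = ⋃ e ∈ Finset.range (n + 1), {w : G.FP | w.1.degree = e} := by
      ext w
      simp only [Set.mem_ofPred_eq, Set.mem_iUnion, Finset.mem_range, exists_prop,
        exists_eq_right', Nat.lt_succ_iff]
    rw [h2]
    exact Set.Finite.biUnion (Finset.finite_toSet _) fun e _ => G.finite_deg e
  refine ((h1.image Subtype.val).union G.finite_inf).subset ?_
  intro w hw
  rcases G.places w with hA | hB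
  · exact Or.inl ⟨⟨w, hA⟩, hw, rfl⟩
  · exact Or.inr hB

theorem finite_eff (n : ℤ) : {D : Place k K →₀ ℤ | 0 ≤ D ∧ degD D = n}.Finite := by
  classical
  let F := (finite_deg_le G n.toNat).toFinset
  have hw : ∀ D : Place k K →₀ ℤ, 0 ≤ D → degD D = n → ∀ w ∈ D.support,
      w ∈ F ∧ D w ∈ Finset.Icc 0 n := by
    intro D hD hn w hw
    have h1 : 0 ≤ D w := hD w
    have h2 : D w ≠ 0 := Finsupp.mem_support_iff.1 hw
    have h3 : (w.degree : ℤ) * D w ≤ n := by
      rw [← hn]
      unfold degD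
      rw [Finsupp.sum]
      exact Finset.single_le_sum (f := fun v => (v.degree : ℤ) * D v)
        (fun v _ => mul_nonneg (Int.natCast_nonneg _) (hD v)) hw
    have h4 := G.degree_pos w
    have h4' : (1 : ℤ) ≤ w.degree := by exact_mod_cast h4
    have h5 : 1 ≤ D w := by omega
    have h6 : (w.degree : ℤ) ≤ n := by nlinarith
    have h7 : D w ≤ n := by nlinarith
    refine ⟨?_, Finset.mem_Icc.2 ⟨h1, h7⟩⟩
    rw [Set.Finite.mem_toFinset]
    change w.degree ≤ n.toNat
    omega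
  have hfin : Finite (F → Finset.Icc (0 : ℤ) n) := inferInstance
  rw [← Set.finite_coe_iff]
  by_cases hn : 0 ≤ n
  · let g : {D : Place k K →₀ ℤ | 0 ≤ D ∧ degD D = n} → (F → Finset.Icc (0 : ℤ) n) := fun D v =>
      if h : v.1 ∈ D.1.support then ⟨D.1 v.1, (hw D.1 D.2.1 D.2.2 v.1 h).2⟩
      else ⟨0, Finset.mem_Icc.2 ⟨le_refl _, hn⟩⟩
    refine Finite.of_injective g ?_
    intro D D' h
    apply Subtype.ext
    have hg : ∀ D : {D : Place k K →₀ ℤ | 0 ≤ D ∧ degD D = n}, ∀ v : F, ((g D v : ℤ)) = D.1 v.1 := by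
      intro D v
      by_cases h1 : v.1 ∈ D.1.support
      · change ((if h : v.1 ∈ D.1.support then (⟨D.1 v.1, _⟩ : Finset.Icc (0 : ℤ) n)
          else ⟨0, _⟩ : Finset.Icc (0 : ℤ) n) : ℤ) = _
        rw [dif_pos h1]
      · change ((if h : v.1 ∈ D.1.support then (⟨D.1 v.1, _⟩ : Finset.Icc (0 : ℤ) n)
          else ⟨0, _⟩ : Finset.Icc (0 : ℤ) n) : ℤ) = _
        rw [dif_neg h1]
        exact (Finsupp.notMem_support_iff.1 h1).symm
    ext w
    by_cases hwF : w ∈ F
    · have h1 := hg D ⟨w, hwF⟩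
      have h2 := hg D' ⟨w, hwF⟩
      rw [h] at h1
      exact h1.symm.trans h2
    · have h1 : w ∉ D.1.support := fun h => hwF (hw D.1 D.2.1 D.2.2 w h).1
      have h2 : w ∉ D'.1.support := fun h => hwF (hw D'.1 D'.2.1 D'.2.2 w h).1
      rw [Finsupp.notMem_support_iff.1 h1, Finsupp.notMem_support_iff.1 h2]
  · have : IsEmpty {D : Place k K →₀ ℤ | 0 ≤ D ∧ degD D = n} := by
      refine ⟨fun D => hn ?_⟩
      rw [← D.2.2]
      exact degD_nonneg D.2.1
    infer_instance

end Pool.Agent.GBU
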