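import Pool.Agent.Lib.GBR.RecipN

/-!
Block GBU: reciprocity for quaternion algebras as a count: `x² = a y² + b z²` is not soluble at an even
number of places.
-/

set_option autoImplicit false

open Polynomial UniqueFactorizationMonoid IsDedekindDomain

namespace Pool.Agent.GBU

open Pool.Agent.BSDFF Pool.Agent.GBR

private theorem hos {R : Type} [CommRing R] [IsDedekindDomain R] {y : R} {P : Ideal R}
    (hP : P ∈ normalizedFactors (Ideal.span {y})) :
    ∃ Q : HeightOneSpectrum R, Q.asIdeal = P ∧ y ∈ P := by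
  have h1 := prime_of_normalized_factor P hP
  have h2 := dvd_of_mem_normalizedFactors hP
  exact ⟨⟨P, Ideal.isPrime_of_prime h1, h1.ne_zero⟩, rfl, Ideal.dvd_span_singleton.1 h2⟩

private theorem hos' {R : Type} [CommRing R] [IsDedekindDomain R] {y : R} (hy : y ≠ 0)
    (Q : HeightOneSpectrum R) (h : y ∈ Q.asIdeal) :
    Q.asIdeal ∈ normalizedFactors (Ideal.span {y}) := by
  have h1 : Ideal.span {y} ≠ ⊥ := by
    rw [Ne, Ideal.span_singleton_eq_bot]
    exact hy
  rw [mem_normalizedFactors_iff' h1]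
  exact ⟨Q.irreducible, normalize_eq _, (Ideal.dvd_span_singleton).2 h⟩

private theorem cop {R : Type} [CommRing R] [IsDedekindDomain R] {x y : R}
    (h : IsCoprime x y) (Q : HeightOneSpectrum R) (hy : y ∈ Q.asIdeal) : x ∉ Q.asIdeal := by
  intro hx
  obtain ⟨u, v, huv⟩ := h
  apply Q.isPrime.ne_top
  rw [Ideal.eq_top_iff_one, ← huv]
  exact Q.asIdeal.add_mem (Q.asIdeal.mul_mem_left _ hx) (Q.asIdeal.mul_mem_left _ hy)

private theorem count0 {R : Type} [CommRing R] [IsDedekindDomain R] {y : R}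
    (Q : HeightOneSpectrum R) (hy : y ∉ Q.asIdeal) :
    (normalizedFactors (Ideal.span {y})).count Q.asIdeal = 0 := by
  rw [Multiset.count_eq_zero]
  intro h
  obtain ⟨_, _, h3⟩ := hos h
  exact hy h3

private theorem plc_inj {k R K : Type} [Field k] [CommRing R] [IsDedekindDomain R] [Field K]
    [Algebra R K] [IsFractionRing R K] [Algebra k R] [Algebra k K] [IsScalarTower k R K]
    {P Q : HeightOneSpectrum R} (h : plc k K P = plc k K Q) : P = Q := by
  ext r
  rw [← plc_lt (k := k) (K := K) P r, ← plc_lt (k := k) (K := K) Q r, h]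

/-- The product `pp y x` counts the bad places above `y`. -/
private theorem pp_count {k R K : Type} [Field k] [CommRing R] [IsDedekindDomain R] [Field K]
    [Algebra R K] [IsFractionRing R K] [Algebra k R] [Algebra k K] [IsScalarTower k R K]
    (loc : ∀ w : Place k K, BSDK.LocAt w) {x y : R} (hy : y ≠ 0) (h : IsCoprime x y)
    (I : Place k K → Prop)
    (hI : ∀ Q : HeightOneSpectrum R, y ∈ Q.asIdeal →
      (I (plc k K Q) ↔ Iso2 (plc k K Q) (algebraMap R K x) (algebraMap R K y))) :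
    {v : Place k K | ∃ Q : HeightOneSpectrum R, v = plc k K Q ∧ y ∈ Q.asIdeal ∧ ¬ I v}.Finite ∧
    pp y x = (-1) ^ {v : Place k K | ∃ Q : HeightOneSpectrum R, v = plc k K Q ∧ y ∈ Q.asIdeal ∧
      ¬ I v}.ncard := by
  classical
  set B := {v : Place k K | ∃ Q : HeightOneSpectrum R, v = plc k K Q ∧ y ∈ Q.asIdeal ∧ ¬ I v} with hB
  set N := (normalizedFactors (Ideal.span {y})).toFinset with hN
  -- the factor
  have hfac : ∀ Q : HeightOneSpectrum R, y ∈ Q.asIdeal →
      sg (Ideal.Quotient.mk Q.asIdeal x) ^ (normalizedFactors (Ideal.span {y})).count Q.asIdeal =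
        if I (plc k K Q) then 1 else -1 := by
    intro Q hQ
    have hx := cop h Q hQ
    have h1 := crit Q (loc _) x y hx hy
    rw [← hI Q hQ] at h1
    split_ifs with h2
    · exact h1.1 h2
    · have h3 : sg (Ideal.Quotient.mk Q.asIdeal x) ^
        (normalizedFactors (Ideal.span {y})).count Q.asIdeal ≠ 1 := fun h => h2 (h1.2 h)
      have h4 : sg (Ideal.Quotient.mk Q.asIdeal x) = 1 ∨ sg (Ideal.Quotient.mk Q.asIdeal x) = -1 := by
        unfold sg
        have h5 : Ideal.Quotient.mk Q.asIdeal x ≠ 0 := by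
          rw [Ne, Ideal.Quotient.eq_zero_iff_mem]
          exact hx
        rw [if_neg h5]
        split_ifs
        · exact Or.inl rfl
        · exact Or.inr rfl
      rcases h4 with h4 | h4
      · rw [h4, one_pow] at h3
        exact absurd rfl h3
      · rw [h4] at h3 ⊢
        rcases neg_one_pow_eq_or ℤ ((normalizedFactors (Ideal.span {y})).count Q.asIdeal) with h | h
        · exact absurd h h3
        · exact h
  -- the bad primes
  let NB := N.filter fun P => ∃ Q : HeightOneSpectrum R, Q.asIdeal = P ∧ ¬ I (plc k K Q)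
  have hBN : ∃ f : NB → B, Function.Bijective f := by
    have hf : ∀ P : NB, ∃ Q : HeightOneSpectrum R, Q.asIdeal = P.1 ∧ ¬ I (plc k K Q) := fun P =>
      (Finset.mem_filter.1 P.2).2
    choose f hf1 hf2 using hf
    have hf3 : ∀ P : NB, y ∈ (f P).asIdeal := by
      intro P
      obtain ⟨_, _, h3⟩ := hos (Multiset.mem_toFinset.1 (Finset.mem_filter.1 P.2).1)
      rw [hf1 P]
      exact h3
    refine ⟨fun P => ⟨plc k K (f P), f P, rfl, hf3 P, hf2 P⟩, ?_, ?_⟩
    · intro P P' h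
      have h1 : plc k K (f P) = plc k K (f P') := congrArg Subtype.val h
      have h2 := plc_inj h1
      apply Subtype.ext
      rw [← hf1 P, ← hf1 P', h2]
    · rintro ⟨v, Q, rfl, hQ, hQI⟩
      have hmem : Q.asIdeal ∈ NB := Finset.mem_filter.2
        ⟨Multiset.mem_toFinset.2 (hos' hy Q hQ), Q, rfl, hQI⟩
      refine ⟨⟨Q.asIdeal, hmem⟩, ?_⟩
      apply Subtype.ext
      change plc k K (f ⟨Q.asIdeal, hmem⟩) = plc k K Q
      congr 1
      exact HeightOneSpectrum.ext (hf1 ⟨Q.asIdeal, hmem⟩)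
  obtain ⟨f, hf⟩ := hBN
  have hfin : B.Finite := Set.finite_coe_iff.1 (Finite.of_surjective f hf.2)
  refine ⟨hfin, ?_⟩
  have hcard : B.ncard = NB.card := by
    rw [← Nat.card_coe_set_eq, ← Nat.card_congr (Equiv.ofBijective f hf), Nat.card_eq_fintype_card,
      Fintype.card_coe]
  rw [hcard]
  unfold pp
  rw [Finset.prod_multiset_map_count]
  have h6 : ∀ P ∈ N, sg (Ideal.Quotient.mk P x) ^ (normalizedFactors (Ideal.span {y})).count P =
      if P ∈ NB then -1 else 1 := by
    intro P hP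
    obtain ⟨Q, rfl, hQ⟩ := hos (Multiset.mem_toFinset.1 hP)
    rw [hfac Q hQ]
    by_cases h : I (plc k K Q)
    · rw [if_pos h, if_neg]
      intro h1
      obtain ⟨Q', hQ', h2⟩ := (Finset.mem_filter.1 h1).2
      rw [HeightOneSpectrum.ext hQ'] at h2
      exact h2 h
    · rw [if_neg h, if_pos]
      exact Finset.mem_filter.2 ⟨hP, Q, rfl, h⟩
  rw [Finset.prod_congr rfl h6, Finset.prod_ite_mem, Finset.prod_const]
  congr 1
  congr 1
  exact Finset.inter_eq_right.2 (Finset.filter_subset _ _)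

private theorem even_disj {k K : Type} [Field k] [Finite k] [Field K] [Algebra k K]
    (h2 : (2 : k) ≠ 0) (loc : ∀ w : Place k K, BSDK.LocAt w) {a b : K} (ha : a ≠ 0)
    (hb : SepB k b) (hd : ∀ v : Place k K, v.ring.valuation a = 1 ∨ v.ring.valuation b = 1) :
    {v : Place k K | ¬ Iso2 v a b}.Finite ∧ Even {v : Place k K | ¬ Iso2 v a b}.ncard := by
  have hbi : SepB k b⁻¹ := sepB_inv hb
  have : Fact (SepB k b) := ⟨hb⟩
  have : Fact (SepB k b⁻¹) := ⟨hbi⟩
  have hb0 : b ≠ 0 := by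
    rintro rfl
    exact hb.tr (isAlgebraic_zero)
  obtain ⟨a₁, w₁, ha₁, hw₁, e₁, c₁⟩ := exists_int (k := k) (b := b) a ha (fun v hv =>
    (hd v).resolve_right hv.ne)
  obtain ⟨a₂, w₂, ha₂, hw₂, e₂, c₂⟩ := exists_int (k := k) (b := b⁻¹) a ha (fun v hv =>
    (hd v).resolve_right (fun h1 => by
      rw [map_inv₀, h1, inv_one] at hv
      exact lt_irrefl _ hv))
  have hg1 : gen k b ≠ 0 := by
    intro h0
    apply hb0
    exact congrArg Subtype.val h0
  have hg2 : gen k b⁻¹ ≠ 0 := by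
    intro h0
    apply inv_ne_zero hb0
    exact congrArg Subtype.val h0
  have hs : w₁ / w₂ ≠ 0 := div_ne_zero hw₁ hw₂
  have he : (a₁ : K) = a₂ * (w₁ / w₂) ^ 2 := by
    rw [e₁, e₂]
    field_simp
  have W := weil h2 a₁ a₂ (w₁ / w₂) hs he c₁ c₂ ha₁
  -- solubility in terms of `a₁`, `gen`
  have J1 : ∀ v : Place k K, Iso2 v (algebraMap (Rb k b) K a₁) (algebraMap (Rb k b) K (gen k b)) ↔
      Iso2 v a b := by
    intro v
    have h1 : algebraMap (Rb k b) K a₁ = a * w₁ ^ 2 := e₁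
    have h3 : algebraMap (Rb k b) K (gen k b) = b := rfl
    rw [h1, h3]
    exact iso2_sq_left v a b w₁ hw₁
  have J2 : ∀ v : Place k K, Iso2 v (algebraMap (Rb k b) K (gen k b)) (algebraMap (Rb k b) K a₁) ↔
      Iso2 v a b := fun v => (iso2_swap v _ _).trans (J1 v)
  have J3 : ∀ v : Place k K,
      Iso2 v (algebraMap (Rb k b⁻¹) K a₂) (algebraMap (Rb k b⁻¹) K (gen k b⁻¹)) ↔ Iso2 v a b := by
    intro v
    have h1 : algebraMap (Rb k b⁻¹) K a₂ = a * w₂ ^ 2 := e₂
    have h3 : algebraMap (Rb k b⁻¹) K (gen k b⁻¹) = b * b⁻¹ ^ 2 := by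
      have : algebraMap (Rb k b⁻¹) K (gen k b⁻¹) = b⁻¹ := rfl
      rw [this]
      field_simp
    rw [h1, h3, iso2_sq_left v a _ w₂ hw₂]
    exact iso2_sq_right v a b b⁻¹ (inv_ne_zero hb0)
  obtain ⟨f1, p1⟩ := pp_count loc hg1 c₁ (fun v => Iso2 v a b) (fun Q _ => (J1 _).symm)
  obtain ⟨f2, p2⟩ := pp_count loc ha₁ c₁.symm (fun v => Iso2 v a b) (fun Q _ => (J2 _).symm)
  obtain ⟨f3, p3⟩ := pp_count loc hg2 c₂ (fun v => Iso2 v a b) (fun Q _ => (J3 _).symm)
  rw [p1, p2, p3, ← pow_add, ← pow_add] at W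
  set B1 := {v : Place k K | ∃ Q : HeightOneSpectrum (Rb k b), v = plc k K Q ∧
    gen k b ∈ Q.asIdeal ∧ ¬ Iso2 v a b} with hB1
  set B2 := {v : Place k K | ∃ Q : HeightOneSpectrum (Rb k b), v = plc k K Q ∧
    a₁ ∈ Q.asIdeal ∧ ¬ Iso2 v a b} with hB2
  set B3 := {v : Place k K | ∃ Q : HeightOneSpectrum (Rb k b⁻¹), v = plc k K Q ∧
    gen k b⁻¹ ∈ Q.asIdeal ∧ ¬ Iso2 v a b} with hB3
  have hunion : {v : Place k K | ¬ Iso2 v a b} = (B1 ∪ B2) ∪ B3 := by
    ext v
    constructor
    · intro hv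
      by_cases hv0 : b ∈ v.ring
      · left
        obtain ⟨P, rfl⟩ := exists_plc (R := Rb k b) v (Rb_le v hv0)
        by_cases hg : gen k b ∈ P.asIdeal
        · exact Or.inl ⟨P, rfl, hg, hv⟩
        · right
          refine ⟨P, rfl, ?_, hv⟩
          by_contra hna
          apply hv
          rw [← J1]
          rw [crit P (loc _) a₁ (gen k b) hna hg1, count0 P hg, pow_zero]
      · right
        have hv1 : v.ring.valuation b⁻¹ < 1 := by
          rw [← ValuationSubring.valuation_le_one_iff, not_le] at hv0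
          rw [map_inv₀]
          exact inv_lt_one_of_one_lt₀ hv0
        have hv2 : b⁻¹ ∈ v.ring := by
          rw [← ValuationSubring.valuation_le_one_iff]
          exact hv1.le
        obtain ⟨P, rfl⟩ := exists_plc (R := Rb k b⁻¹) v (Rb_le v hv2)
        exact ⟨P, rfl, (plc_lt (k := k) (K := K) P (gen k b⁻¹)).1 hv1, hv⟩
    · rintro ((⟨_, _, _, h⟩ | ⟨_, _, _, h⟩) | ⟨_, _, _, h⟩)
      · exact h
      · exact h
      · exact h
  have hd12 : Disjoint B1 B2 := by
    rw [Set.disjoint_left]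
    rintro _ ⟨Q, rfl, h1, _⟩ ⟨Q', h3, h4, _⟩
    have h5 := plc_inj h3
    rw [← h5] at h4
    exact cop c₁ Q h1 h4
  have hd3 : Disjoint (B1 ∪ B2) B3 := by
    rw [Set.disjoint_left]
    have hkey : ∀ (Q : HeightOneSpectrum (Rb k b)) (Q' : HeightOneSpectrum (Rb k b⁻¹)),
        plc k K Q = plc k K Q' → gen k b⁻¹ ∈ Q'.asIdeal → False := by
      intro Q Q' h hy
      have h3 := (plc_lt (k := k) (K := K) Q' (gen k b⁻¹)).2 hy
      have h4 : algebraMap (Rb k b⁻¹) K (gen k b⁻¹) = b⁻¹ := rfl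
      rw [h4] at h3
      have h5 : b ∈ (plc k K Q').ring := by
        rw [← h]
        exact mem_plc Q (gen k b)
      rw [← ValuationSubring.valuation_le_one_iff] at h5
      rw [map_inv₀] at h3
      have h6 : (plc k K Q').ring.valuation b ≠ 0 := (Valuation.ne_zero_iff _).2 hb0
      have h7 := mul_lt_one_of_lt_of_le h3 h5
      rw [inv_mul_cancel₀ h6] at h7
      exact lt_irrefl _ h7
    rintro v (⟨Q, rfl, _, _⟩ | ⟨Q, rfl, _, _⟩) ⟨Q', h3, h4, _⟩
    · exact hkey Q Q' h3 h4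
    · exact hkey Q Q' h3 h4
  rw [hunion]
  refine ⟨(f1.union f2).union f3, ?_⟩
  rw [Set.ncard_union_eq hd3 (f1.union f2) f3, Set.ncard_union_eq hd12 f1 f2]
  exact (neg_one_pow_eq_one_iff_even (by norm_num)).1 W

section rat

variable {k K : Type} [Field k] [Finite k] [Field K] [Algebra k K] [Algebra (RatFunc k) K]
  [IsScalarTower k (RatFunc k) K] [FiniteDimensional (RatFunc k) K]
  [Algebra.IsSeparable (RatFunc k) K]

/-- Reciprocity: the number of places `v` where `x² = a y² + b z²` is not soluble is finite and even. -/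
theorem even_bad (h2 : (2 : k) ≠ 0) {a b : K} (ha : a ≠ 0) (hb : b ≠ 0) :
    {v : Place k K | ¬ Iso2 v a b}.Finite ∧ Even {v : Place k K | ¬ Iso2 v a b}.ncard := by
  obtain ⟨a', b', ha', _, hs', hd', hiff⟩ :=
    modify h2 (sepB_ratFunc (k := k) (K := K)) a b ha hb
  have h : {v : Place k K | ¬ Iso2 v a b} = {v : Place k K | ¬ Iso2 v a' b'} := by
    ext v
    exact not_congr (hiff v)
  rw [h]
  exact even_disj h2 (fun w => BSDK.locAt h2 w) ha' hs' hd'

end rat

end Pool.Agent.GBU
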