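import Pool.Agent.Lib.GBU.Plc
import Pool.Agent.Lib.SmD.Const

/-!
# SMITH-U: the geometric subgroup of the Galois group of a global function field

`IsC k x`: `x ∈ Om` is a constant (`x ^ (q ^ n) = x` for some `n > 0`, `q = #k`); `GeoK k K Om`: the
subgroup of `Gal(Om/K)` of the elements fixing the constants; `IsFrC k fr`: `fr` acts on the
constants as the Frobenius automorphism of `k`.

Results: inertia is contained in `GeoK`, Frobenius elements at `v` act on the constants as
`x ↦ x ^ #κ(v)`, the quotient by `GeoK` is abelian and topologically generated by `fr`, and `fr`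
exists if `k` is algebraically closed in `K`.
-/

set_option autoImplicit false

open Polynomial IsLocalRing

namespace Pool.Agent.GBU

open Pool.Agent.BSDFF Pool.Agent.GBR Pool.Agent.Lib.SmD

section defs

variable (k : Type) {K Om : Type} [Field k] [Field K] [Field Om] [Algebra K Om]

/-- `x` is a constant. -/
def IsC (x : Om) : Prop := ∃ n : ℕ, 0 < n ∧ x ^ Nat.card k ^ n = x

variable (K Om) in
/-- The elements of the Galois group which fix the constants. -/
def GeoK : Subgroup (Om ≃ₐ[K] Om) where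
  carrier := {s | ∀ x : Om, IsC k x → s x = x}
  one_mem' := fun _ _ => rfl
  mul_mem' := by
    intro a b ha hb x hx
    rw [AlgEquiv.mul_apply, hb x hx, ha x hx]
  inv_mem' := by
    intro a ha x hx
    have h1 : a⁻¹ x = a⁻¹ (a x) := by rw [ha x hx]
    rw [h1]
    exact a.symm_apply_apply x

/-- `fr` acts on the constants as the Frobenius automorphism of `k`. -/
def IsFrC (fr : Om ≃ₐ[K] Om) : Prop := ∀ x : Om, IsC k x → fr x = x ^ Nat.card k

variable (K Om) in
/-- The elements of the Galois group which fix the constants of level `n`. -/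
def HcK (n : ℕ) : Subgroup (Om ≃ₐ[K] Om) where
  carrier := {s | ∀ x : Om, x ^ Nat.card k ^ n = x → s x = x}
  one_mem' := fun _ _ => rfl
  mul_mem' := by
    intro a b ha hb x hx
    rw [AlgEquiv.mul_apply, hb x hx, ha x hx]
  inv_mem' := by
    intro a ha x hx
    have h1 : a⁻¹ x = a⁻¹ (a x) := by rw [ha x hx]
    rw [h1]
    exact a.symm_apply_apply x

variable {k}

theorem mem_GeoK {s : Om ≃ₐ[K] Om} : s ∈ GeoK k K Om ↔ ∀ x : Om, IsC k x → s x = x := Iff.rfl

theorem mem_HcK {n : ℕ} {s : Om ≃ₐ[K] Om} :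
    s ∈ HcK k K Om n ↔ ∀ x : Om, x ^ Nat.card k ^ n = x → s x = x := Iff.rfl

theorem IsC.map {x : Om} (hx : IsC k x) (s : Om ≃ₐ[K] Om) : IsC k (s x) := by
  obtain ⟨n, hn, h⟩ := hx
  exact ⟨n, hn, by rw [← map_pow, h]⟩

instance GeoK_normal : (GeoK k K Om).Normal := by
  refine ⟨fun h hh g x hx => ?_⟩
  rw [AlgEquiv.mul_apply, AlgEquiv.mul_apply, hh _ (hx.map g⁻¹)]
  exact g.apply_symm_apply x

theorem pow_level {x : Om} {n : ℕ} (h : x ^ Nat.card k ^ n = x) (j : ℕ) :
    x ^ Nat.card k ^ (n * j) = x := by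
  induction j with
  | zero => simp
  | succ j ih => rw [Nat.mul_succ, pow_add, pow_mul, ih, h]

theorem HcK_mono {n m : ℕ} (h : n ∣ m) : HcK k K Om m ≤ HcK k K Om n := by
  obtain ⟨l, rfl⟩ := h
  exact fun g hg x hx => hg x (pow_level hx l)

theorem GeoK_le_HcK {n : ℕ} (hn : 0 < n) : GeoK k K Om ≤ HcK k K Om n :=
  fun _ hg x hx => hg x ⟨n, hn, hx⟩

theorem finite_level_C [Finite k] {n : ℕ} (hn : 0 < n) :
    {x : Om | x ^ Nat.card k ^ n = x}.Finite := by
  have hq : 1 < Nat.card k ^ n := Nat.one_lt_pow hn.ne' Finite.one_lt_card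
  have h0 : (X ^ (Nat.card k ^ n) - X : Om[X]) ≠ 0 := FiniteField.X_pow_card_sub_X_ne_zero Om hq
  refine (Polynomial.finite_setOfPred_isRoot h0).subset fun x hx => ?_
  change IsRoot _ x
  rw [IsRoot.def, eval_sub, eval_pow, eval_X]
  exact sub_eq_zero.2 hx

theorem isOpen_HcK [Finite k] [Algebra.IsAlgebraic K Om] {n : ℕ} (hn : 0 < n) :
    IsOpen (HcK k K Om n : Set (Om ≃ₐ[K] Om)) := by
  have h1 : (HcK k K Om n : Set (Om ≃ₐ[K] Om)) = ⋂ x ∈ {x : Om | x ^ Nat.card k ^ n = x},
      (MulAction.stabilizer (Om ≃ₐ[K] Om) x : Set (Om ≃ₐ[K] Om)) := by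
    ext g
    rw [Set.mem_iInter₂]
    exact Iff.rfl
  rw [h1]
  exact (finite_level_C hn).isOpen_biInter fun x _ => stabilizer_isOpen_of_isIntegral (K := K) x

/-- Every open subgroup which contains `GeoK` contains the elements which fix the constants of some
level. -/
theorem exists_HcK_le [Finite k] [IsGalois K Om] {U : Subgroup (Om ≃ₐ[K] Om)}
    (hU : IsOpen (U : Set (Om ≃ₐ[K] Om))) (hG : GeoK k K Om ≤ U) :
    ∃ n : ℕ, 0 < n ∧ HcK k K Om n ≤ U := by
  have hcpt : IsCompact ((U : Set (Om ≃ₐ[K] Om))ᶜ) := hU.isClosed_compl.isCompact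
  obtain ⟨n, hn⟩ := hcpt.elim_directed_family_closed
    (fun n : ℕ => (HcK k K Om n.factorial : Set (Om ≃ₐ[K] Om)))
    (fun n => Subgroup.isClosed_of_isOpen _ (isOpen_HcK n.factorial_pos))
    (by
      rw [Set.eq_empty_iff_forall_notMem]
      rintro g ⟨h1, h2⟩
      apply h1
      apply hG
      rintro x ⟨n, hn, hx⟩
      rw [Set.mem_iInter] at h2
      exact HcK_mono (Nat.dvd_factorial hn le_rfl) (h2 n) x hx)
    (by
      apply directed_of_isDirected_le
      intro a b hab
      exact HcK_mono (Nat.factorial_dvd_factorial hab))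
  refine ⟨n.factorial, n.factorial_pos, fun g hg => ?_⟩
  by_contra h
  have : g ∈ ((U : Set (Om ≃ₐ[K] Om))ᶜ ∩ (HcK k K Om n.factorial : Set (Om ≃ₐ[K] Om))) := ⟨h, hg⟩
  rw [hn] at this
  exact this

theorem IsFrC.pow {fr : Om ≃ₐ[K] Om} (hfr : IsFrC k fr) (j : ℕ) {x : Om} (hx : IsC k x) :
    (fr ^ j) x = x ^ Nat.card k ^ j := by
  induction j with
  | zero => simp
  | succ j ih => rw [pow_succ', AlgEquiv.mul_apply, ih, map_pow, hfr x hx, ← pow_mul, pow_succ',
      mul_comm]

/-- Two elements which agree on the constants differ by an element of `GeoK`. -/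
theorem inv_mul_mem_GeoK {s t : Om ≃ₐ[K] Om} (h : ∀ x : Om, IsC k x → s x = t x) :
    s⁻¹ * t ∈ GeoK k K Om := by
  intro x hx
  rw [AlgEquiv.mul_apply, ← h x hx]
  exact s.symm_apply_apply x

end defs

section char

variable {k K Om : Type} [Field k] [Finite k] [Field K] [Algebra k K] [Field Om] [Algebra K Om]

/-- The characteristic. -/
theorem card_eq_pow_C (k K Om : Type) [Field k] [Finite k] [Field K] [Algebra k K] [Field Om]
    [Algebra K Om] : ∃ p f : ℕ, p.Prime ∧ 0 < f ∧ Nat.card k = p ^ f ∧ CharP Om p := by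
  have : Fintype k := Fintype.ofFinite k
  obtain ⟨p, hp⟩ := CharP.exists k
  obtain ⟨n, hpr, hn⟩ := FiniteField.card k p
  exact ⟨p, n, hpr, n.pos, by rw [Nat.card_eq_fintype_card, hn],
    charP_of_injective_ringHom (f := (algebraMap K Om).comp (algebraMap k K))
      (RingHom.injective _) p⟩

omit [Finite k] in
theorem isC_iff {p f : ℕ} (hf : 0 < f) (hq : Nat.card k = p ^ f) {x : Om} :
    IsC k x ↔ IsCst p x := by
  constructor
  · rintro ⟨n, hn, h⟩
    exact ⟨f * n, Nat.mul_pos hf hn, by rw [pow_mul, ← hq, h]⟩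
  · rintro ⟨e, he, h⟩
    exact ⟨e, he, by rw [hq, ← pow_mul, mul_comm]; exact cst_pow_mul h f⟩

/-- An element of `Om` fixed by the `q`-power map lies in `k`. -/
theorem mem_k_of_pow_eq {c : Om} (hc : c ^ Nat.card k = c) :
    ∃ a : k, algebraMap K Om (algebraMap k K a) = c := by
  classical
  have : Fintype k := Fintype.ofFinite k
  set ι : k →+* Om := (algebraMap K Om).comp (algebraMap k K) with hι
  have hq : 1 < Nat.card k := Finite.one_lt_card
  have h0 : (X ^ (Nat.card k) - X : Om[X]) ≠ 0 := FiniteField.X_pow_card_sub_X_ne_zero Om hq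
  have hdeg : (X ^ (Nat.card k) - X : Om[X]).natDegree = Nat.card k :=
    FiniteField.X_pow_card_sub_X_natDegree_eq Om hq
  have hroot : ∀ x : Om, x ∈ (X ^ (Nat.card k) - X : Om[X]).roots.toFinset ↔
      x ^ Nat.card k = x := by
    intro x
    rw [Multiset.mem_toFinset, mem_roots h0, IsRoot.def, eval_sub, eval_pow, eval_X, sub_eq_zero]
  have hsub : Finset.univ.image ι ⊆ (X ^ (Nat.card k) - X : Om[X]).roots.toFinset := by
    intro x hx
    obtain ⟨a, -, rfl⟩ := Finset.mem_image.1 hx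
    rw [hroot, ← map_pow, Nat.card_eq_fintype_card, FiniteField.pow_card]
  have hcard : (X ^ (Nat.card k) - X : Om[X]).roots.toFinset.card ≤
      (Finset.univ.image ι).card := by
    rw [Finset.card_image_of_injective _ ι.injective, Finset.card_univ]
    calc _ ≤ Multiset.card (X ^ (Nat.card k) - X : Om[X]).roots := Multiset.toFinset_card_le _
      _ ≤ (X ^ (Nat.card k) - X : Om[X]).natDegree := card_roots' _
      _ = _ := by rw [hdeg, Nat.card_eq_fintype_card]
  have heq := Finset.eq_of_subset_of_card_le hsub hcard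
  have h1 : c ∈ Finset.univ.image ι := by
    rw [heq, hroot]
    exact hc
  obtain ⟨a, -, ha⟩ := Finset.mem_image.1 h1
  exact ⟨a, ha⟩

/-- Every automorphism acts on a constant as a power of the Frobenius. -/
theorem exists_pow_of_isC {x : Om} (hx : IsC k x) (s : Om ≃ₐ[K] Om) :
    ∃ i : ℕ, s x = x ^ Nat.card k ^ i := by
  classical
  obtain ⟨n, hn, hxn⟩ := hx
  obtain ⟨p, f, hp, hf, hq, hOm⟩ := card_eq_pow_C k K Om
  have hpf : Fact p.Prime := ⟨hp⟩
  set F : Om →+* Om := iterateFrobenius Om p f with hF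
  have hFx : ∀ x : Om, F x = x ^ Nat.card k := fun x => by
    rw [hF, iterateFrobenius_def, hq]
  set P : Om[X] := ∏ i ∈ Finset.range n, (X - C (x ^ Nat.card k ^ i)) with hP
  have hPF : P.map F = P := by
    rw [hP, Polynomial.map_prod]
    have e : ∀ i ∈ Finset.range n, (X - C (x ^ Nat.card k ^ i) : Om[X]).map F
        = (X - C (x ^ Nat.card k ^ (i + 1))) := by
      intro i _
      rw [Polynomial.map_sub, map_X, map_C, hFx, ← pow_mul, ← pow_succ]
    rw [Finset.prod_congr rfl e]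
    obtain ⟨m, rfl⟩ : ∃ m, n = m + 1 := ⟨n - 1, by omega⟩
    rw [Finset.prod_range_succ, Finset.prod_range_succ']
    rw [hxn, pow_zero, pow_one]
  have hPg : P.map (s : Om →+* Om) = P := by
    ext i
    rw [coeff_map]
    have h1 : F (P.coeff i) = P.coeff i := by
      rw [← coeff_map, hPF]
    rw [hFx] at h1
    obtain ⟨a, ha⟩ := mem_k_of_pow_eq (k := k) (K := K) h1
    rw [← ha]
    exact s.commutes _
  have h0 : P.eval x = 0 := by
    rw [hP, eval_prod]
    refine Finset.prod_eq_zero (Finset.mem_range.2 hn) ?_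
    rw [pow_zero, pow_one, eval_sub, eval_X, eval_C, sub_self]
  have h1 : P.eval (s x) = 0 := by
    have h2 : (P.map (s : Om →+* Om)).eval ((s : Om →+* Om) x) = (s : Om →+* Om) (P.eval x) :=
      Polynomial.eval_map_apply _ _
    rw [hPg, h0, map_zero] at h2
    exact h2
  rw [hP, eval_prod, Finset.prod_eq_zero_iff] at h1
  obtain ⟨i, -, hi⟩ := h1
  rw [eval_sub, eval_X, eval_C, sub_eq_zero] at hi
  exact ⟨i, hi⟩

/-- The quotient by `GeoK` is abelian. -/
theorem commutator_le_GeoK : commutator (Om ≃ₐ[K] Om) ≤ GeoK k K Om := by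
  rw [commutator_def, Subgroup.commutator_le]
  intro s _ t _
  have h1 : ∀ x : Om, IsC k x → (t * s) x = (s * t) x := by
    intro x hx
    obtain ⟨i, hi⟩ := exists_pow_of_isC hx s
    obtain ⟨j, hj⟩ := exists_pow_of_isC hx t
    rw [AlgEquiv.mul_apply, AlgEquiv.mul_apply, hi, hj, map_pow, map_pow, hi, hj, ← pow_mul,
      ← pow_mul, mul_comm]
  have h2 := GeoK_normal.conj_mem _ (inv_mul_mem_GeoK h1) (t * s)
  have h3 : t * s * ((t * s)⁻¹ * (s * t)) * (t * s)⁻¹ = s * t * s⁻¹ * t⁻¹ := by group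
  rw [commutatorElement_def]
  rwa [h3] at h2

/-- A generator of the group of the constants of level `n`. -/
theorem exists_generator_C {n : ℕ} (hn : 0 < n) :
    ∃ u : Om, u ≠ 0 ∧ u ^ Nat.card k ^ n = u ∧
      ∀ x : Om, x ≠ 0 → x ^ Nat.card k ^ n = x → ∃ j : ℕ, x = u ^ j := by
  have hq : 1 < Nat.card k ^ n := Nat.one_lt_pow hn.ne' Finite.one_lt_card
  obtain ⟨m, hm⟩ : ∃ m, Nat.card k ^ n = m + 1 := ⟨Nat.card k ^ n - 1, by omega⟩
  have hm0 : m ≠ 0 := by omega
  have : NeZero m := ⟨hm0⟩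
  obtain ⟨g, hg⟩ := IsCyclic.exists_monoid_generator (α := rootsOfUnity m Om)
  refine ⟨((g : Omˣ) : Om), Units.ne_zero _, ?_, fun x hx0 hx => ?_⟩
  · rw [hm, pow_succ]
    have h1 : ((g : Omˣ) : Om) ^ m = 1 := by
      have h2 := (mem_rootsOfUnity m (g : Omˣ)).1 g.2
      rw [← Units.val_pow_eq_pow_val, h2, Units.val_one]
    rw [h1, one_mul]
  · have h1 : x ^ m = 1 := by
      rw [hm, pow_succ] at hx
      exact mul_right_cancel₀ hx0 (hx.trans (one_mul x).symm)
    have h2 : Units.mk0 x hx0 ∈ rootsOfUnity m Om := by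
      rw [mem_rootsOfUnity]
      apply Units.ext
      rw [Units.val_pow_eq_pow_val, Units.val_mk0, Units.val_one, h1]
    obtain ⟨j, hj⟩ := Submonoid.mem_powers_iff _ _ |>.1 (hg ⟨_, h2⟩)
    refine ⟨j, ?_⟩
    have h3 := congrArg (fun y : rootsOfUnity m Om => ((y : Omˣ) : Om)) hj
    simp only [SubgroupClass.coe_pow, Units.val_pow_eq_pow_val, Units.val_mk0] at h3
    exact h3.symm

/-- Every element of the Galois group acts on the constants of level `n` as a power of `fr`. -/
theorem exists_pow_inv_mul_mem {fr : Om ≃ₐ[K] Om} (hfr : IsFrC k fr) {n : ℕ} (hn : 0 < n)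
    (s : Om ≃ₐ[K] Om) : ∃ i : ℕ, (fr ^ i)⁻¹ * s ∈ HcK k K Om n := by
  obtain ⟨u, hu0, hu, hgen⟩ := exists_generator_C (k := k) (Om := Om) hn
  obtain ⟨i, hi⟩ := exists_pow_of_isC (k := k) ⟨n, hn, hu⟩ s
  refine ⟨i, fun x hx => ?_⟩
  have h1 : s x = (fr ^ i) x := by
    rcases eq_or_ne x 0 with rfl | hx0
    · rw [map_zero, map_zero]
    · obtain ⟨j, rfl⟩ := hgen x hx0 hx
      rw [map_pow, map_pow, hi, hfr.pow i ⟨n, hn, hu⟩]
  rw [AlgEquiv.mul_apply, h1]
  exact (fr ^ i).symm_apply_apply x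

/-- `fr` and `GeoK` generate the Galois group topologically. -/
theorem gen_GeoK [IsGalois K Om] {fr : Om ≃ₐ[K] Om} (hfr : IsFrC k fr)
    {N : Subgroup (Om ≃ₐ[K] Om)} [N.Normal] (hN : IsOpen (N : Set (Om ≃ₐ[K] Om)))
    (s : Om ≃ₐ[K] Om) : ∃ (i : ℕ) (g : Om ≃ₐ[K] Om), g ∈ GeoK k K Om ∧ (fr ^ i * g)⁻¹ * s ∈ N := by
  obtain ⟨n, hn, hle⟩ := exists_HcK_le (k := k) (U := GeoK k K Om ⊔ N)
    (Subgroup.isOpen_mono le_sup_right hN) le_sup_left
  obtain ⟨i, hi⟩ := exists_pow_inv_mul_mem hfr hn s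
  have h1 := hle hi
  rw [Subgroup.mem_sup_of_normal_right] at h1
  obtain ⟨g, hg, m, hm, h2⟩ := h1
  refine ⟨i, g, hg, ?_⟩
  have h3 : (fr ^ i * g)⁻¹ * s = m := by
    rw [mul_inv_rev, mul_assoc, ← h2, inv_mul_cancel_left]
  rw [h3]
  exact hm

/-- Inertia fixes the constants. -/
theorem iner_le_GeoK (w : ValuationSubring Om) : iner K w ≤ GeoK k K Om := by
  intro s hs x hx
  obtain ⟨p, f, hp, hf, hq, hOm⟩ := card_eq_pow_C k K Om
  have hpf : Fact p.Prime := ⟨hp⟩
  exact iner_cst hs ((isC_iff hf hq).1 hx)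

/-- Frobenius elements act on the constants as `x ↦ x ^ #κ`. -/
theorem frob_isC {w : ValuationSubring Om} {φ : Om ≃ₐ[K] Om} (hφ : IsFrob K w φ) {x : Om}
    (hx : IsC k x) : φ x = x ^ resCard (below K w) := by
  obtain ⟨p, f, hp, hf, hq, hOm⟩ := card_eq_pow_C k K Om
  have hpf : Fact p.Prime := ⟨hp⟩
  exact hφ.cst ((isC_iff hf hq).1 hx)

/-- A Frobenius element at a place with `q ^ d` residue classes is `fr ^ d` modulo `GeoK`. -/
theorem frob_mem_GeoK {fr : Om ≃ₐ[K] Om} (hfr : IsFrC k fr) {w : ValuationSubring Om}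
    {φ : Om ≃ₐ[K] Om} (hφ : IsFrob K w φ) {d : ℕ} (hd : resCard (below K w) = Nat.card k ^ d) :
    (fr ^ d)⁻¹ * φ ∈ GeoK k K Om := by
  refine inv_mul_mem_GeoK fun x hx => ?_
  rw [hfr.pow d hx, frob_isC hφ hx, hd]

/-- The coefficients of the minimal polynomial of a constant are constants. -/
private theorem GeoC_coeff [Normal K Om] {x : Om} (hx : IsC k x) (i : ℕ) :
    IsC k (algebraMap K Om ((minpoly K x).coeff i)) := by
  classical
  obtain ⟨p, f, hp, hf, hq, hOm⟩ := card_eq_pow_C k K Om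
  have hpf : Fact p.Prime := ⟨hp⟩
  let R : Subring Om :=
    { carrier := {x | IsCst p x}
      one_mem' := ⟨1, one_pos, one_pow _⟩
      zero_mem' := ⟨1, one_pos, zero_pow (by rw [pow_one]; exact hp.ne_zero)⟩
      mul_mem' := fun ha hb => ha.mul hb
      add_mem' := fun ha hb => ha.add hb
      neg_mem' := fun {a} ha => by
        have h0 : IsCst p (0 : Om) := ⟨1, one_pos, zero_pow (by rw [pow_one]; exact hp.ne_zero)⟩
        have := h0.sub ha
        rwa [zero_sub] at this }
  have hsp := Normal.splits (inferInstance : Normal K Om) x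
  have hmon : ((minpoly K x).map (algebraMap K Om)).Monic :=
    (minpoly.monic (Algebra.IsIntegral.isIntegral x)).map _
  have hroots : ∀ a ∈ ((minpoly K x).map (algebraMap K Om)).roots, a ∈ R := by
    intro a ha
    have h1 : aeval a (minpoly K x) = 0 := by
      have h2 := (mem_roots'.1 ha).2
      rw [IsRoot.def, eval_map_algebraMap] at h2
      exact h2
    obtain ⟨n, hn, hxn⟩ := hx
    have h3 : minpoly K x ∣ X ^ (Nat.card k ^ n) - X := by
      refine minpoly.dvd K x ?_
      rw [map_sub, map_pow, aeval_X, hxn, sub_self]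
    obtain ⟨r, hr⟩ := h3
    have h4 := congrArg (aeval a) hr
    rw [map_mul, h1, zero_mul, map_sub, map_pow, aeval_X, sub_eq_zero] at h4
    exact (isC_iff hf hq).1 ⟨n, hn, h4⟩
  have hlift : (minpoly K x).map (algebraMap K Om) ∈ Polynomial.lifts R.subtype := by
    rw [hsp.eq_prod_roots_of_monic hmon]
    refine Subsemiring.multiset_prod_mem _ _ fun y hy => ?_
    obtain ⟨a, ha, rfl⟩ := Multiset.mem_map.1 hy
    rw [Polynomial.mem_lifts]
    exact ⟨X - C ⟨a, hroots a ha⟩, by
      rw [Polynomial.map_sub, map_X, map_C]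
      rfl⟩
  rw [Polynomial.mem_lifts] at hlift
  obtain ⟨P, hP⟩ := hlift
  rw [← coeff_map, ← hP, coeff_map]
  exact (isC_iff hf hq).2 (P.coeff i).2

/-- If `k` is algebraically closed in `K`, then a constant and its `q`-th power are conjugate. -/
theorem exists_map_eq_pow [Normal K Om]
    (hK : ∀ x : K, IsC k x → ∃ a : k, algebraMap k K a = x) {x : Om} (hx : IsC k x) :
    ∃ s : Om ≃ₐ[K] Om, s x = x ^ Nat.card k := by
  have : Fintype k := Fintype.ofFinite k
  obtain ⟨p, f, hp, hf, hq, hOm⟩ := card_eq_pow_C k K Om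
  have hpf : Fact p.Prime := ⟨hp⟩
  have hx1 : IsIntegral K x := Algebra.IsIntegral.isIntegral x
  set F : Om →+* Om := iterateFrobenius Om p f with hF
  have hFx : ∀ x : Om, F x = x ^ Nat.card k := fun x => by
    rw [hF, iterateFrobenius_def, hq]
  have hfix : ((minpoly K x).map (algebraMap K Om)).map F =
      (minpoly K x).map (algebraMap K Om) := by
    ext i
    rw [coeff_map, coeff_map, hFx]
    have h1 : IsC k ((minpoly K x).coeff i) := by
      obtain ⟨n, hn, h2⟩ := GeoC_coeff (K := K) hx i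
      refine ⟨n, hn, (algebraMap K Om).injective ?_⟩
      rw [map_pow, h2]
    obtain ⟨a, ha⟩ := hK _ h1
    rw [← ha, ← map_pow, ← map_pow, Nat.card_eq_fintype_card, FiniteField.pow_card]
  have h0 : aeval (x ^ Nat.card k) (minpoly K x) = 0 := by
    have h1 : (((minpoly K x).map (algebraMap K Om)).map F).eval (F x) =
        F (((minpoly K x).map (algebraMap K Om)).eval x) := Polynomial.eval_map_apply _ _
    rw [hfix, hFx, eval_map_algebraMap, eval_map_algebraMap, minpoly.aeval, map_zero] at h1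
    exact h1
  have h2 : minpoly K (x ^ Nat.card k) = minpoly K x :=
    (minpoly.eq_of_irreducible_of_monic (minpoly.irreducible hx1) h0 (minpoly.monic hx1)).symm
  exact (isConjRoot_iff_exists_algEquiv (K := K) (L := Om) (x := x ^ Nat.card k) (y := x)).1 h2

/-- If `k` is algebraically closed in `K`, there is an element which acts on the constants as the
Frobenius automorphism. -/
theorem exists_isFrC [IsGalois K Om] (hK : ∀ x : K, IsC k x → ∃ a : k, algebraMap k K a = x) :
    ∃ fr : Om ≃ₐ[K] Om, IsFrC k fr := by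
  let Z : ℕ → Set (Om ≃ₐ[K] Om) := fun n =>
    {s | ∀ x : Om, x ^ Nat.card k ^ n.factorial = x → s x = x ^ Nat.card k}
  have hne : ∀ n, (Z n).Nonempty := by
    intro n
    obtain ⟨u, hu0, hu, hgen⟩ := exists_generator_C (k := k) (Om := Om) n.factorial_pos
    obtain ⟨s, hs⟩ := exists_map_eq_pow hK (x := u) ⟨_, n.factorial_pos, hu⟩
    refine ⟨s, fun x hx => ?_⟩
    rcases eq_or_ne x 0 with rfl | hx0
    · rw [map_zero, zero_pow Nat.card_pos.ne']
    · obtain ⟨j, rfl⟩ := hgen x hx0 hx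
      rw [map_pow, hs, ← pow_mul, ← pow_mul, mul_comm]
  have hcl : ∀ n, IsClosed (Z n) := by
    intro n
    obtain ⟨s0, hs0⟩ := hne n
    have h1 : Z n = (fun s => s0⁻¹ * s) ⁻¹' (HcK k K Om n.factorial : Set (Om ≃ₐ[K] Om)) := by
      ext s
      constructor
      · intro hs x hx
        rw [AlgEquiv.mul_apply, hs x hx, ← hs0 x hx]
        exact s0.symm_apply_apply x
      · intro hs x hx
        have h2 : (s0⁻¹ * s) x = x := hs x hx
        rw [AlgEquiv.mul_apply] at h2
        have h3 := congrArg s0 h2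
        rw [hs0 x hx] at h3
        rw [← h3]
        exact (s0.apply_symm_apply (s x)).symm
    rw [h1]
    exact (Subgroup.isClosed_of_isOpen _ (isOpen_HcK n.factorial_pos)).preimage
      (continuous_const_mul s0⁻¹)
  have hmono : ∀ n m, n ≤ m → Z m ⊆ Z n := by
    intro n m hnm s hs x hx
    obtain ⟨l, hl⟩ := Nat.factorial_dvd_factorial hnm
    exact hs x (by rw [hl]; exact pow_level hx l)
  obtain ⟨fr, hfr⟩ := IsCompact.nonempty_iInter_of_sequence_nonempty_isCompact_isClosed Z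
    (fun n => hmono n (n + 1) (Nat.le_succ n)) hne (hcl 0).isCompact hcl
  refine ⟨fr, ?_⟩
  rintro x ⟨n, hn, hx⟩
  obtain ⟨l, hl⟩ := Nat.dvd_factorial hn le_rfl
  exact (Set.mem_iInter.1 hfr n) x (by rw [hl]; exact pow_level hx l)

end char

end Pool.Agent.GBU
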