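import Pool.Agent.Lib.GBU.Tame
import Pool.Agent.Lib.SmD.FinGen
import Pool.Agent.Lib.SmD.ValIner
import Pool.Agent.Lib.SmD.ChiLoc

/-!
# GBU (SMITH-U): topological generators of the tame inertia group

`IsTG K w τ`: `τ` lies in the inertia group at `w` and generates it modulo every open normal
subgroup of index prime to the characteristic.
-/

set_option autoImplicit false

open IsLocalRing

namespace Pool.Agent.GBU

open Pool.Agent.Lib.SmD Pool.Agent.SmD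

/-- `τ` is a topological generator of the tame inertia at `w`. -/
structure IsTG (K : Type*) {Om : Type*} [Field K] [Field Om] [Algebra K Om]
    (w : ValuationSubring Om) (τ : Om ≃ₐ[K] Om) : Prop where
  mem : τ ∈ iner K w
  gen : ∀ N ∈ NP K Om, ∀ σ ∈ iner K w, ∃ n : ℕ, (τ ^ n)⁻¹ * σ ∈ N

section general

variable {K Om : Type*} [Field K] [Field Om] [Algebra K Om]

theorem isOpen_of_mul_mem {N : Subgroup (Om ≃ₐ[K] Om)} (hN : IsOpen (N : Set (Om ≃ₐ[K] Om)))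
    {A : Set (Om ≃ₐ[K] Om)} (hA : ∀ a ∈ A, ∀ n ∈ N, a * n ∈ A) : IsOpen A := by
  rw [isOpen_iff_mem_nhds]
  intro a ha
  have h1 : (fun x => a * x) '' (N : Set (Om ≃ₐ[K] Om)) ⊆ A := by
    rintro _ ⟨n, hn, rfl⟩
    exact hA a ha n hn
  refine Filter.mem_of_superset ?_ h1
  refine IsOpen.mem_nhds ?_ ⟨1, N.one_mem, mul_one a⟩
  exact (Homeomorph.mulLeft a).isOpenMap _ hN

theorem isClosed_of_mul_mem {N : Subgroup (Om ≃ₐ[K] Om)} (hN : IsOpen (N : Set (Om ≃ₐ[K] Om)))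
    {A : Set (Om ≃ₐ[K] Om)} (hA : ∀ a ∈ A, ∀ n ∈ N, a * n ∈ A) : IsClosed A := by
  rw [← isOpen_compl_iff]
  refine isOpen_of_mul_mem hN fun a ha n hn h => ha ?_
  have := hA _ h _ (N.inv_mem hn)
  rwa [mul_inv_cancel_right] at this

theorem gen_mul {w : ValuationSubring Om} {N : Subgroup (Om ≃ₐ[K] Om)} (hN : N.Normal)
    {τ ν : Om ≃ₐ[K] Om} (hν : ν ∈ N)
    (h : ∀ σ ∈ iner K w, ∃ n : ℕ, (τ ^ n)⁻¹ * σ ∈ N) :
    ∀ σ ∈ iner K w, ∃ n : ℕ, ((τ * ν) ^ n)⁻¹ * σ ∈ N := by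
  intro σ hσ
  obtain ⟨n, hn⟩ := h σ hσ
  refine ⟨n, ?_⟩
  have h1 : (QuotientGroup.mk ((τ * ν) ^ n) : (Om ≃ₐ[K] Om) ⧸ N) = QuotientGroup.mk (τ ^ n) := by
    rw [QuotientGroup.mk_pow, QuotientGroup.mk_pow, QuotientGroup.mk_mul,
      (QuotientGroup.eq_one_iff ν).2 hν, mul_one]
  rw [← QuotientGroup.eq, h1, QuotientGroup.eq]
  exact hn

theorem exists_isTG [IsGalois K Om] {w : ValuationSubring Om} {π : K} (h : LocHyp K w π)
    (hw : CharOk w) : ∃ τ, IsTG K w τ := by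
  let C : NP K Om → Set (Om ≃ₐ[K] Om) := fun N =>
    (iner K w : Set (Om ≃ₐ[K] Om)) ∩ {τ | ∀ σ ∈ iner K w, ∃ n : ℕ, (τ ^ n)⁻¹ * σ ∈ N.1}
  have hne : ∀ N, (C N).Nonempty := by
    intro N
    obtain ⟨τ, hτ, h1⟩ := tame_gen h hw N.2
    exact ⟨τ, hτ, h1⟩
  have hcl : ∀ N, IsClosed (C N) := by
    intro N
    refine (isClosed_iner w).inter (isClosed_of_mul_mem (NP.isOpen N.2) ?_)
    intro a ha n hn
    exact gen_mul (NP.normal N.2) hn ha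
  have hdir : Directed (· ⊇ ·) C := by
    intro N N'
    refine ⟨⟨N.1 ⊓ N'.1, inf_mem_NP N.2 N'.2⟩, ?_, ?_⟩
    · rintro τ ⟨hτ, h1⟩
      refine ⟨hτ, fun σ hσ => ?_⟩
      obtain ⟨n, hn⟩ := h1 σ hσ
      exact ⟨n, hn.1⟩
    · rintro τ ⟨hτ, h1⟩
      refine ⟨hτ, fun σ hσ => ?_⟩
      obtain ⟨n, hn⟩ := h1 σ hσ
      exact ⟨n, hn.2⟩
  have hNE : Nonempty (NP K Om) := ⟨⟨⊤, top_mem_NP⟩⟩
  obtain ⟨τ, hτ⟩ := IsCompact.nonempty_iInter_of_directed_nonempty_isCompact_isClosed C hdir hne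
    (fun N => (hcl N).isCompact) hcl
  rw [Set.mem_iInter] at hτ
  exact ⟨τ, (hτ ⟨⊤, top_mem_NP⟩).1, fun N hN => (hτ ⟨N, hN⟩).2⟩

theorem IsTG.iner_le {w : ValuationSubring Om} {τ : Om ≃ₐ[K] Om} (h : IsTG K w τ)
    {N : Subgroup (Om ≃ₐ[K] Om)} (hN : N ∈ NP K Om) (hτ : τ ∈ N) : iner K w ≤ N := by
  intro σ hσ
  obtain ⟨n, hn⟩ := h.gen N hN σ hσ
  have := N.mul_mem (N.pow_mem hτ n) hn
  rwa [mul_inv_cancel_left] at this

theorem IsTG.iner_le_iff {w : ValuationSubring Om} {τ : Om ≃ₐ[K] Om} (h : IsTG K w τ)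
    {N : Subgroup (Om ≃ₐ[K] Om)} (hN : N ∈ NP K Om) : iner K w ≤ N ↔ τ ∈ N :=
  ⟨fun h1 => h1 h.mem, h.iner_le hN⟩

/-- The decomposition group is generated by a Frobenius element and `τ`, modulo every `N`. -/
theorem IsTG.dec_gen' [IsGalois K Om] {w : ValuationSubring Om}
    [Finite (ResidueField (below K w))] {τ φ : Om ≃ₐ[K] Om} (h : IsTG K w τ)
    (hφ : IsFrob K w φ) {N : Subgroup (Om ≃ₐ[K] Om)} (hN : N ∈ NP K Om) {s : Om ≃ₐ[K] Om}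
    (hs : s ∈ dec K w) : ∃ m n : ℕ, (τ ^ m * φ ^ n)⁻¹ * s ∈ N := by
  have hNn := NP.normal hN
  obtain ⟨L, hL, hLg, -, hLN⟩ := exists_field_of_mem_NP hN
  obtain ⟨n, ι, hι, h1⟩ := fin_gen hφ L hs
  obtain ⟨m, hm⟩ := h.gen N hN ι hι
  refine ⟨m, n, ?_⟩
  have h2 : (ι * φ ^ n)⁻¹ * s ∈ N := by
    rw [← hLN, IntermediateField.mem_fixingSubgroup_iff]
    intro x hx
    have h3 := h1 x hx
    change ((ι * φ ^ n)⁻¹ * s) x = x
    rw [AlgEquiv.mul_apply, h3, ← AlgEquiv.mul_apply ι, ← AlgEquiv.mul_apply, inv_mul_cancel,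
      AlgEquiv.one_apply]
  have h3 : (τ ^ m * φ ^ n)⁻¹ * s =
      ((φ ^ n)⁻¹ * ((τ ^ m)⁻¹ * ι) * ((φ ^ n)⁻¹)⁻¹) * ((ι * φ ^ n)⁻¹ * s) := by group
  rw [h3]
  exact N.mul_mem (hNn.conj_mem _ hm _) h2

/-- The field `gen` of `Sys.Ok`. -/
theorem IsTG.dec_gen [IsGalois K Om] {w : ValuationSubring Om}
    [Finite (ResidueField (below K w))] {τ φ : Om ≃ₐ[K] Om} (h : IsTG K w τ)
    (hφ : IsFrob K w φ) {N : Subgroup (Om ≃ₐ[K] Om)} (hN : N ∈ NP K Om) {s : Om ≃ₐ[K] Om}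
    (hs : s ∈ dec K w) : ∃ t ∈ Subgroup.closure {φ, τ}, t⁻¹ * s ∈ N := by
  obtain ⟨m, n, h1⟩ := h.dec_gen' hφ hN hs
  refine ⟨τ ^ m * φ ^ n, ?_, h1⟩
  refine Subgroup.mul_mem _ (Subgroup.pow_mem _ (Subgroup.subset_closure ?_) _)
    (Subgroup.pow_mem _ (Subgroup.subset_closure ?_) _)
  · exact Or.inr rfl
  · exact Or.inl rfl

end general

section sep

variable {K Om : Type} [Field K] [Field Om] [Algebra K Om]

theorem IsTG.isSg [IsSepClosure K Om] {w : ValuationSubring Om} {π : K} (h : LocHyp K w π)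
    {τ : Om ≃ₐ[K] Om} (hτ : IsTG K w τ) : IsSg K w π τ := by
  have hsc : IsSepClosed Om := IsSepClosure.sep_closed K
  have hgal : IsGalois K Om := inferInstance
  have h2 : (2 : K) ≠ 0 := by
    intro h0
    apply h.two_ne
    rw [← map_ofNat (algebraMap K Om), h0, map_zero]
  refine ⟨hτ.mem, ?_⟩
  by_contra hne
  have h0 : chi K π τ = 0 := by
    have : ∀ a : ZMod 2, a ≠ 1 → a = 0 := by decide
    exact this _ hne
  obtain ⟨σ, hσ, hσ1⟩ := exists_sg h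
  obtain ⟨⟨N, hN, hNc⟩, hadd⟩ := Pool.Agent.SmF.chi_homG (Ω := Om) h2 h.pi_ne
  obtain ⟨n, hn⟩ := hτ.gen N (NN_subset_NP h2 hN) σ hσ
  have h3 := hNc (τ ^ n) _ hn
  rw [mul_inv_cancel_left] at h3
  change chi K π σ = chi K π (τ ^ n) at h3
  rw [hσ1, chi_mul_pow h.two_ne h.pi_ne n τ, h0, mul_zero] at h3
  exact one_ne_zero h3

end sep

end Pool.Agent.GBU
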