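import Pool.Agent.Lib.GBU.PlA
import Pool.Agent.Lib.GBR.Supp

/-!
# SMITH-U, place layer: a finite extension of a global function field is unramified at almost all
places

For every open subgroup `N` of `Gal(Om / K)` all but finitely many places `v` of `K` have the
property that the inertia groups of ALL places `w` of `Om` above `v` are contained in `N`
(`finite_unr_open`). Same proof as `SmD/Unr`.
-/

set_option autoImplicit false

open Polynomial IsLocalRing

namespace Pool.Agent.GBU

open Pool.Agent.BSDFF Pool.Agent.GBR Pool.Agent.Lib.SmD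

section general

variable {K Om : Type*} [Field K] [Field Om] [Algebra K Om]

/-- a root of a polynomial whose nonzero coefficients, among them the constant one, are units is a
unit -/
private theorem Unr_val_one_of_root {w : ValuationSubring Om} {p : K[X]}
    (h : ∀ i, p.coeff i ≠ 0 → w.valuation (algebraMap K Om (p.coeff i)) = 1)
    (h0 : p.coeff 0 ≠ 0) {y : Om} (hy : aeval y p = 0) : w.valuation y = 1 := by
  have hle : ∀ i, w.valuation (algebraMap K Om (p.coeff i)) ≤ 1 := by
    intro i
    rcases eq_or_ne (p.coeff i) 0 with h1 | h1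
    · rw [h1, map_zero, map_zero]
      exact zero_le_one
    · exact (h i h1).le
  rw [aeval_eq_sum_range] at hy
  have hp0 : p ≠ 0 := by
    rintro rfl
    exact h0 (coeff_zero 0)
  rcases lt_trichotomy (w.valuation y) 1 with h1 | h1 | h1
  · exfalso
    rw [Finset.sum_range_succ', pow_zero, Algebra.smul_def (p.coeff 0), mul_one] at hy
    have h2 : algebraMap K Om (p.coeff 0) =
        -∑ i ∈ Finset.range p.natDegree, p.coeff (i + 1) • y ^ (i + 1) := by
      linear_combination hy
    have h3 := congrArg w.valuation h2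
    rw [h 0 h0, Valuation.map_neg] at h3
    have h4 : w.valuation (∑ i ∈ Finset.range p.natDegree, p.coeff (i + 1) • y ^ (i + 1)) < 1 := by
      refine Valuation.map_sum_lt _ one_ne_zero fun i _ => ?_
      rw [Algebra.smul_def, map_mul, map_pow]
      exact lt_of_le_of_lt (mul_le_of_le_one_left' (hle _)) (pow_lt_one₀ zero_le h1 (by omega))
    rw [← h3] at h4
    exact lt_irrefl _ h4
  · exact h1
  · exfalso
    have hy0 : w.valuation y ≠ 0 := (lt_trans zero_lt_one h1).ne'
    rw [Finset.sum_range_succ, Algebra.smul_def (p.coeff p.natDegree)] at hy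
    have h2 : algebraMap K Om (p.coeff p.natDegree) * y ^ p.natDegree =
        -∑ i ∈ Finset.range p.natDegree, p.coeff i • y ^ i := by
      linear_combination hy
    have h3 := congrArg w.valuation h2
    have hlc : p.coeff p.natDegree ≠ 0 := leadingCoeff_ne_zero.mpr hp0
    rw [map_mul, h _ hlc, one_mul, Valuation.map_neg, map_pow] at h3
    have h4 : w.valuation (∑ i ∈ Finset.range p.natDegree, p.coeff i • y ^ i) <
        w.valuation y ^ p.natDegree := by
      refine Valuation.map_sum_lt _ (pow_ne_zero _ hy0) fun i hi => ?_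
      rw [Algebra.smul_def, map_mul, map_pow]
      exact lt_of_le_of_lt (mul_le_of_le_one_left' (hle _))
        (pow_lt_pow_right₀ h1 (Finset.mem_range.mp hi))
    rw [← h3] at h4
    exact lt_irrefl _ h4

/-- an element of the inertia group fixes an integral element whose conjugates are different
modulo the place -/
private theorem Unr_fix_of_val {w : ValuationSubring Om} {σ : Om ≃ₐ[K] Om} (hσ : σ ∈ iner K w) {x : Om}
    (hx : w.valuation x ≤ 1)
    (h : ∀ y : Om, aeval y (minpoly K x) = 0 → y ≠ x → w.valuation (y - x) = 1) : σ x = x := by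
  by_contra hc
  have h1 : aeval (σ x) (minpoly K x) = 0 := by
    have h2 := Polynomial.aeval_algHom_apply (σ : Om →ₐ[K] Om) x (minpoly K x)
    rw [minpoly.aeval, map_zero] at h2
    exact h2
  have h2 := h _ h1 hc
  have h3 := ((mem_iner K).mp hσ).2 x ((ValuationSubring.valuation_le_one_iff _ _).mp hx)
  rw [h2] at h3
  exact lt_irrefl _ h3

/-- an automorphism fixing the generators of a field fixes the field -/
private theorem Unr_mem_fixingSubgroup_adjoin {S : Set Om} {σ : Om ≃ₐ[K] Om} (h : ∀ x ∈ S, σ x = x) :
    σ ∈ (IntermediateField.adjoin K S).fixingSubgroup := by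
  have h1 : Subgroup.zpowers σ ≤ (IntermediateField.adjoin K S).fixingSubgroup := by
    rw [← IntermediateField.le_iff_le, IntermediateField.adjoin_le_iff]
    intro x hx
    have h2 : Subgroup.zpowers σ ≤ MulAction.stabilizer (Om ≃ₐ[K] Om) x := by
      rw [Subgroup.zpowers_le]
      exact h x hx
    exact (IntermediateField.mem_fixedField_iff _ x).mpr fun τ hτ => h2 hτ
  exact h1 (Subgroup.mem_zpowers σ)

end general

variable {k K : Type} [Field k] [Field K] [Algebra k K] [Algebra (RatFunc k) K]
  [IsScalarTower k (RatFunc k) K] [FiniteDimensional (RatFunc k) K]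
  [Algebra.IsSeparable (RatFunc k) K] {Om : Type} [Field Om] [Algebra K Om]

variable (k) in
/-- Elements of `K` are units at almost all places. -/
theorem finite_nonunit_base {f : K} (hf : f ≠ 0) :
    {v : Place k K | ∃ w : ValuationSubring Om, below K w = v.ring ∧
      w.valuation (algebraMap K Om f) ≠ 1}.Finite := by
  refine (finite_supp (sepB_ratFunc (k := k) (K := K)) f hf).subset ?_
  rintro v ⟨w, hw, h⟩ h1
  apply h
  refine val_unit_below ?_ ?_ hf
  · rw [hw, ← ValuationSubring.valuation_le_one_iff, h1]
  · rw [hw, ← ValuationSubring.valuation_le_one_iff, map_inv₀, h1, inv_one]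

variable (k K) in
/-- Algebraic elements are units at almost all places. -/
theorem finite_nonunit [Algebra.IsAlgebraic K Om] {y : Om} (hy : y ≠ 0) :
    {v : Place k K | ∃ w : ValuationSubring Om, below K w = v.ring ∧
      w.valuation y ≠ 1}.Finite := by
  have hint : IsIntegral K y := (Algebra.IsAlgebraic.isAlgebraic y).isIntegral
  have hfin : (⋃ i ∈ (minpoly K y).support, {v : Place k K | ∃ w : ValuationSubring Om,
      below K w = v.ring ∧
      w.valuation (algebraMap K Om ((minpoly K y).coeff i)) ≠ 1}).Finite := by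
    refine Set.Finite.biUnion (Finset.finite_toSet _) fun i hi => ?_
    exact finite_nonunit_base k (mem_support_iff.mp hi)
  refine hfin.subset ?_
  rintro v ⟨w, hw, hv⟩
  by_contra hcon
  apply hv
  refine Unr_val_one_of_root (p := minpoly K y) ?_ (minpoly.coeff_zero_ne_zero hint hy)
    (minpoly.aeval _ _)
  intro i hi
  by_contra h1
  apply hcon
  simp only [Set.mem_iUnion]
  exact ⟨i, mem_support_iff.mpr hi, w, hw, h1⟩

variable (k K) in
/-- An algebraic element is fixed by almost all inertia groups. -/
theorem finite_not_fixed [Algebra.IsAlgebraic K Om] (x : Om) :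
    {v : Place k K | ∃ w : ValuationSubring Om, below K w = v.ring ∧
      ∃ σ ∈ iner K w, σ x ≠ x}.Finite := by
  rcases eq_or_ne x 0 with rfl | hx
  · refine Set.finite_empty.subset ?_
    rintro v ⟨w, -, σ, -, hσ⟩
    exact hσ (map_zero σ)
  have hint : IsIntegral K x := (Algebra.IsAlgebraic.isAlgebraic x).isIntegral
  have hroots : ((minpoly K x).rootSet Om).Finite := rootSet_finite _ _
  have hfin : ({v : Place k K | ∃ w : ValuationSubring Om, below K w = v.ring ∧
        w.valuation x ≠ 1} ∪
      ⋃ y ∈ (minpoly K x).rootSet Om \ {x}, {v : Place k K | ∃ w : ValuationSubring Om,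
        below K w = v.ring ∧ w.valuation (y - x) ≠ 1}).Finite := by
    refine (finite_nonunit k K hx).union (Set.Finite.biUnion (hroots.sdiff) fun y hy => ?_)
    exact finite_nonunit k K (sub_ne_zero.mpr hy.2)
  refine hfin.subset ?_
  rintro v ⟨w, hw, σ, hσ, hσx⟩
  by_contra hcon
  rw [Set.mem_union, not_or] at hcon
  apply hσx
  have h0 : w.valuation x = 1 := by
    by_contra h1
    exact hcon.1 ⟨w, hw, h1⟩
  refine Unr_fix_of_val hσ h0.le fun y hy hyx => ?_
  by_contra h1
  apply hcon.2
  rw [Set.mem_iUnion₂]
  exact ⟨y, ⟨(mem_rootSet.mpr ⟨minpoly.ne_zero hint, hy⟩), hyx⟩, w, hw, h1⟩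

variable (k) in
/-- A finite extension is unramified at almost all places. -/
theorem finite_ramified [Algebra.IsAlgebraic K Om] (L : IntermediateField K Om)
    [FiniteDimensional K L] :
    {v : Place k K | ∃ w : ValuationSubring Om, below K w = v.ring ∧
      ¬ iner K w ≤ L.fixingSubgroup}.Finite := by
  have hfg : L.FG := IntermediateField.essFiniteType_iff.mp inferInstance
  obtain ⟨S, hS⟩ := hfg
  rw [← hS]
  have hfin : (⋃ x ∈ (S : Set Om), {v : Place k K | ∃ w : ValuationSubring Om,
      below K w = v.ring ∧ ∃ σ ∈ iner K w, σ x ≠ x}).Finite :=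
    Set.Finite.biUnion (Finset.finite_toSet S) fun x _ => finite_not_fixed k K x
  refine hfin.subset ?_
  rintro v ⟨w, hw, hv⟩
  by_contra hcon
  apply hv
  intro σ hσ
  refine Unr_mem_fixingSubgroup_adjoin fun x hx => ?_
  by_contra h1
  apply hcon
  rw [Set.mem_iUnion₂]
  exact ⟨x, hx, w, hw, σ, hσ, h1⟩

variable (k) in
/-- For every open subgroup `N` the inertia groups at almost all places are contained in `N`. -/
theorem finite_unr_open [Algebra.IsAlgebraic K Om] {N : Subgroup (Om ≃ₐ[K] Om)}
    (hN : IsOpen (N : Set (Om ≃ₐ[K] Om))) :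
    {v : Place k K | ∃ w : ValuationSubring Om, below K w = v.ring ∧ ¬ iner K w ≤ N}.Finite := by
  obtain ⟨E, hE, hEN⟩ := (krullTopology_mem_nhds_one_iff K Om _).1
    (hN.mem_nhds N.one_mem)
  refine (finite_ramified k E).subset ?_
  rintro v ⟨w, hw, hv⟩
  exact ⟨w, hw, fun h => hv (h.trans hEN)⟩

end Pool.Agent.GBU
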