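import Pool.Agent.Lib.GBU.PlA
import Pool.Agent.Lib.GBU.Unr
import Pool.Agent.Lib.GBU.TG
import Pool.Agent.Lib.SmD.ChiFrob
import Pool.Agent.Lib.GBC.P.Ord

/-!
# GBU (SMITH-U): the chosen data above the places of a global function field `K`

For a place `v : Place k K`:
* `abK Om v`: a chosen place (valuation subring) of `Om` above `v`;
* `dvK Om v := dec K (abK Om v)`: its decomposition group;
* `phK Om v`: a chosen Frobenius element, `sgK Om v`: a chosen topological generator of the tame
  inertia group.

`LVal v σ φ`: the values of the quadratic characters at `σ` (tame inertia) and `φ` (Frobenius) at a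
place above `v`; it holds for all `σ` with `IsTG`, all `φ` with `IsFrob` and all places above `v`.
-/

set_option autoImplicit false

open IsLocalRing

namespace Pool.Agent.GBU

open Pool.Agent.BSDFF Pool.Agent.Lib.SmD Pool.Agent.SmD

/-- Constants are units at every valuation ring. -/
theorem val_const_of_finite {k : Type} [Field k] [Finite k] {F : Type*} [Field F] (f : k →+* F)
    (w : ValuationSubring F) {c : k} (hc : c ≠ 0) : w.valuation (f c) = 1 := by
  have h1 : w.valuation (f c) ≤ 1 := (w.valuation_le_one_iff _).2 (const_mem_of_finite f w c)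
  have h2 : w.valuation (f c)⁻¹ ≤ 1 := by
    rw [← map_inv₀, w.valuation_le_one_iff]
    exact const_mem_of_finite f w c⁻¹
  have h3 : w.valuation (f c) ≠ 0 := (Valuation.ne_zero_iff _).2 ((_root_.map_ne_zero f).2 hc)
  rw [map_inv₀] at h2
  exact le_antisymm h1 ((inv_le_one₀ (zero_lt_iff.2 h3)).1 h2)

theorem charOk_of_finite (k K : Type) {Om : Type} [Field k] [Finite k] [Field K] [Algebra k K]
    [Field Om] [Algebra K Om] (w : ValuationSubring Om) : CharOk w := by
  intro n hn
  have h1 : ((algebraMap K Om).comp (algebraMap k K)) (n : k) = (n : Om) := map_natCast _ n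
  rw [← h1]
  refine val_const_of_finite _ w fun h0 => hn ?_
  rw [← h1, h0, map_zero]

section LV

variable {k K : Type} [Field k] [Field K] [Algebra k K] {Om : Type} [Field Om] [Algebra K Om]

/-- The values of the quadratic characters at a tame inertia element `σ` and a Frobenius element `φ`
above `v`. -/
structure LVal (v : Place k K) (σ φ : Om ≃ₐ[K] Om) : Prop where
  sg_unit : ∀ f : K, f ≠ 0 → f ∈ v.ring → f⁻¹ ∈ v.ring → chi K f σ = 0
  sg_unif : ∀ π : v.ring, Irreducible π → chi K (π : K) σ = 1
  ph_unit : ∀ u : v.ring, IsUnit u → (chi K (u : K) φ = 0 ↔ IsSquare (residue v.ring u))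

/-- `LVal` at all places. -/
def LocVals (sg ph : Place k K → (Om ≃ₐ[K] Om)) : Prop := ∀ v, LVal v (sg v) (ph v)

theorem coe_unit_ne (v : Place k K) (u : (v.ring)ˣ) : ((u : v.ring) : K) ≠ 0 := fun h =>
  u.ne_zero (Subtype.ext h)

theorem coe_unit_inv_mem (v : Place k K) (u : (v.ring)ˣ) : ((u : v.ring) : K)⁻¹ ∈ v.ring := by
  have h5 : (((u⁻¹ : (v.ring)ˣ) : v.ring) : K) = ((u : v.ring) : K)⁻¹ := by
    have h6 : (((u⁻¹ : (v.ring)ˣ) : v.ring) : K) * ((u : v.ring) : K) = 1 :=
      congrArg Subtype.val (Units.inv_mul u)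
    exact eq_inv_of_mul_eq_one_left h6
  rw [← h5]
  exact ((u⁻¹ : (v.ring)ˣ) : v.ring).2

variable [IsSepClosed Om]

/-- `LVal` for an inertia element which moves the root of ONE uniformizer and a Frobenius element. -/
theorem lVal_of_isSg {v : Place k K} {w : ValuationSubring Om} (hw : below K w = v.ring)
    (h2 : w.valuation 2 = 1) (hfin : Finite (ResidueField v.ring)) {π : v.ring}
    (hπ : Irreducible π) {σ φ : Om ≃ₐ[K] Om} (hσ : IsSg K w (π : K) σ) (hφ : IsFrob K w φ) :
    LVal v σ φ := by
  have hunit : ∀ f : K, f ≠ 0 → f ∈ v.ring → f⁻¹ ∈ v.ring → chi K f σ = 0 := by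
    intro f hf h1 h3
    refine chi_iner_unit h2 hσ.1 (val_unit_below ?_ ?_ hf)
    · rw [hw]; exact h1
    · rw [hw]; exact h3
  have hπ0 : (π : K) ≠ 0 := fun h => hπ.ne_zero (Subtype.ext h)
  refine ⟨hunit, fun π' hπ' => ?_, fun u hu => ?_⟩
  · obtain ⟨u, hu⟩ := IsDiscreteValuationRing.associated_of_irreducible _ hπ hπ'
    have h3 : (π' : K) = (π : K) * ((u : v.ring) : K) := by
      rw [← hu]; rfl
    rw [h3, chi_mul_left (two_ne_zero_Om h2) hπ0 (coe_unit_ne v u), hσ.2,
      hunit _ (coe_unit_ne v u) (u : v.ring).2 (coe_unit_inv_mem v u), add_zero]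
  · have key : ∀ (R : ValuationSubring K) (_ : below K w = R) (_ : Finite (ResidueField R))
        (u : R) (_ : IsUnit u), chi K (u : K) φ = 0 ↔ IsSquare (residue R u) := by
      intro R hR hfR u hu
      subst hR
      have hval : w.valuation (algebraMap K Om (u : K)) = 1 := by
        obtain ⟨u', hu'⟩ := hu
        have h0 : (u : K) ≠ 0 := by
          rw [← hu']
          exact fun h => u'.ne_zero (Subtype.ext h)
        refine val_unit_below u.2 ?_ h0
        have h5 : (((u'⁻¹ : (below K w)ˣ) : below K w) : K) = (u : K)⁻¹ := by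
          have h6 : (((u'⁻¹ : (below K w)ˣ) : below K w) : K) *
              ((u' : below K w) : K) = 1 :=
            congrArg Subtype.val (Units.inv_mul u')
          rw [← hu']
          exact eq_inv_of_mul_eq_one_left h6
        rw [← h5]
        exact ((u'⁻¹ : (below K w)ˣ) : below K w).2
      exact chi_frob_iff h2 hfR hφ hval
    exact key v.ring hw hfin u hu

end LV

section chosen

variable {k K : Type} [Field k] [Field K] [Algebra k K] (Om : Type) [Field Om] [Algebra K Om]

/-- The chosen place of `Om` above `v`. -/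
noncomputable def abK (v : Place k K) : ValuationSubring Om := (exists_above_place Om v).choose

theorem abK_ne_top (v : Place k K) : abK Om v ≠ ⊤ := (exists_above_place Om v).choose_spec.1

theorem below_abK (v : Place k K) : below K (abK Om v) = v.ring :=
  (exists_above_place Om v).choose_spec.2

/-- The decomposition group of the chosen place above `v`. -/
noncomputable abbrev dvK (v : Place k K) : Subgroup (Om ≃ₐ[K] Om) := dec K (abK Om v)

open Classical in
/-- The chosen Frobenius element at `v`. -/
noncomputable def phK (v : Place k K) : Om ≃ₐ[K] Om :=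
  if h : ∃ φ, IsFrob K (abK Om v) φ then h.choose else 1

open Classical in
/-- The chosen topological generator of the tame inertia at `v`. -/
noncomputable def sgK (v : Place k K) : Om ≃ₐ[K] Om :=
  if h : ∃ τ, IsTG K (abK Om v) τ then h.choose else 1

/-- The cardinality of the residue field. -/
noncomputable def qK (v : Place k K) : ℕ := Nat.card (ResidueField v.ring)

/-- `(q_v - 1) / 2` modulo `2`. -/
noncomputable def epsK (v : Place k K) : ZMod 2 := (((qK v - 1) / 2 : ℕ) : ZMod 2)

variable {Om}

theorem resCard_below {v : Place k K} {w : ValuationSubring Om} (hw : below K w = v.ring) :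
    resCard (below K w) = qK v := by
  rw [hw]
  rfl

end chosen

section main

variable {k K : Type} [Field k] [Finite k] [Field K] [Algebra k K] [Algebra (RatFunc k) K]
  [IsScalarTower k (RatFunc k) K] [FiniteDimensional (RatFunc k) K]
  {Om : Type} [Field Om] [Algebra K Om]

theorem finite_residue_of_below {v : Place k K} {w : ValuationSubring Om}
    (hw : below K w = v.ring) : Finite (ResidueField (below K w)) := by
  rw [hw]
  exact BSDK.residue_finite v

theorem exists_isTG_of_below [IsGalois K Om] (h2 : (2 : k) ≠ 0) {v : Place k K}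
    {w : ValuationSubring Om} (hw : below K w = v.ring) : ∃ τ, IsTG K w τ := by
  obtain ⟨π, hπ⟩ := IsDiscreteValuationRing.exists_irreducible v.ring
  exact exists_isTG (locHyp_of_below h2 v w hw hπ) (charOk_of_finite k K w)

/-- `LVal` for every place `w` above `v`, every `IsTG` and every Frobenius element. -/
theorem lVal [IsSepClosure K Om] (h2 : (2 : k) ≠ 0) {v : Place k K} {w : ValuationSubring Om}
    (hw : below K w = v.ring) {σ φ : Om ≃ₐ[K] Om} (hσ : IsTG K w σ) (hφ : IsFrob K w φ) :
    LVal v σ φ := by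
  have hsc : IsSepClosed Om := IsSepClosure.sep_closed K
  obtain ⟨π, hπ⟩ := IsDiscreteValuationRing.exists_irreducible v.ring
  have hL := locHyp_of_below h2 v w hw hπ
  exact lVal_of_isSg hw hL.two (BSDK.residue_finite v) hπ (hσ.isSg hL) hφ

section gal

variable [IsGalois K Om]

theorem phK_frob (v : Place k K) : IsFrob K (abK Om v) (phK Om v) := by
  have := finite_residue_of_below (Om := Om) (below_abK Om v)
  have h : ∃ φ, IsFrob K (abK Om v) φ := exists_frob (abK Om v)
  rw [phK, dif_pos h]
  exact h.choose_spec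

theorem phK_mem (v : Place k K) : phK Om v ∈ dvK Om v := (phK_frob v).mem

theorem sgK_tg (h2 : (2 : k) ≠ 0) (v : Place k K) : IsTG K (abK Om v) (sgK Om v) := by
  have h : ∃ τ, IsTG K (abK Om v) τ := exists_isTG_of_below h2 (below_abK Om v)
  rw [sgK, dif_pos h]
  exact h.choose_spec

theorem sgK_iner (h2 : (2 : k) ≠ 0) (v : Place k K) : sgK Om v ∈ iner K (abK Om v) :=
  (sgK_tg h2 v).mem

theorem sgK_mem (h2 : (2 : k) ≠ 0) (v : Place k K) : sgK Om v ∈ dvK Om v := (sgK_iner h2 v).1

/-- The field `gen` of `Sys.Ok`. -/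
theorem genK (h2 : (2 : k) ≠ 0) (v : Place k K) {N : Subgroup (Om ≃ₐ[K] Om)} (hN : N ∈ NP K Om)
    {s : Om ≃ₐ[K] Om} (hs : s ∈ dvK Om v) :
    ∃ t ∈ Subgroup.closure {phK Om v, sgK Om v}, t⁻¹ * s ∈ N := by
  have := finite_residue_of_below (Om := Om) (below_abK Om v)
  exact (sgK_tg h2 v).dec_gen (phK_frob v) hN hs

theorem odd_qK (h2 : (2 : k) ≠ 0) (v : Place k K) : Odd (qK v) := by
  have hfin := BSDK.residue_finite v
  have hf : Fintype (ResidueField v.ring) := Fintype.ofFinite _
  unfold qK
  rw [Nat.card_eq_fintype_card, Nat.odd_iff]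
  apply FiniteField.odd_card_of_char_ne_two
  intro h
  apply h2
  apply v.constMap.injective
  rw [map_ofNat, map_zero]
  have := CharP.cast_eq_zero (ResidueField v.ring) (ringChar (ResidueField v.ring))
  rw [h] at this
  exact_mod_cast this

/-- The relation `ph sg ph⁻¹ = sg ^ q` modulo every `N`. -/
theorem frobK (h2 : (2 : k) ≠ 0) (v : Place k K) {N : Subgroup (Om ≃ₐ[K] Om)} (hN : N ∈ NP K Om) :
    (sgK Om v ^ qK v)⁻¹ * (phK Om v * sgK Om v * (phK Om v)⁻¹) ∈ N := by
  obtain ⟨π, hπ⟩ := IsDiscreteValuationRing.exists_irreducible v.ring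
  have hL := locHyp_of_below h2 v (abK Om v) (below_abK Om v) hπ
  have h := tame_frob hL (charOk_of_finite k K _) hN (phK_frob v) (sgK_iner h2 v)
  rwa [resCard_below (below_abK Om v)] at h

/-- Almost all places are unramified. -/
theorem unrK [Algebra.IsSeparable (RatFunc k) K] (h2 : (2 : k) ≠ 0)
    {N : Subgroup (Om ≃ₐ[K] Om)} (hN : IsOpen (N : Set (Om ≃ₐ[K] Om))) :
    {v : Place k K | sgK Om v ∉ N}.Finite :=
  (finite_unr_open k hN).subset fun v hv =>
    ⟨abK Om v, below_abK Om v, fun hle => hv (hle (sgK_iner h2 v))⟩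

end gal

/-- The chosen elements have the expected values on the quadratic characters. -/
theorem locVals [IsSepClosure K Om] (h2 : (2 : k) ≠ 0) :
    LocVals (k := k) (K := K) (sgK Om) (phK Om) := fun v =>
  lVal h2 (below_abK Om v) (sgK_tg h2 v) (phK_frob v)

end main

end Pool.Agent.GBU
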