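import Pool.Agent.Lib.GBU.Unr
import Pool.Agent.Lib.GBU.Plc

/-!
# SMITH-U, place layer: finitely many elements are integral and pairwise not congruent at almost all
places
-/

set_option autoImplicit false

namespace Pool.Agent.GBU

open Pool.Agent.BSDFF Pool.Agent.GBR Pool.Agent.Lib.SmD

variable (k K : Type) [Field k] [Finite k] [Field K] [Algebra k K] [Algebra (RatFunc k) K]
  [IsScalarTower k (RatFunc k) K] [FiniteDimensional (RatFunc k) K]
  [Algebra.IsSeparable (RatFunc k) K] {Om : Type} [Field Om] [Algebra K Om]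
  [Algebra.IsAlgebraic K Om]

theorem finite_bad_roots {I : Type*} [Finite I] (a : I → Om) (ha : Function.Injective a) :
    {v : Place k K | ¬ ((∀ i, (abK Om v).valuation (a i) ≤ 1) ∧
      ∀ i j, i ≠ j → (abK Om v).valuation (a i - a j) = 1)}.Finite := by
  have h1 : ∀ i, {v : Place k K | ¬ (abK Om v).valuation (a i) ≤ 1}.Finite := by
    intro i
    rcases eq_or_ne (a i) 0 with h | h
    · refine Set.Finite.subset Set.finite_empty fun v hv => hv ?_
      rw [h, map_zero]
      exact zero_le_one
    · refine (finite_nonunit k K h).subset fun v hv => ⟨abK Om v, below_abK Om v, fun h2 => hv ?_⟩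
      exact h2.le
  have h2 : ∀ p : I × I, {v : Place k K | ¬ (p.1 ≠ p.2 →
      (abK Om v).valuation (a p.1 - a p.2) = 1)}.Finite := by
    rintro ⟨i, j⟩
    rcases eq_or_ne i j with h | h
    · exact Set.Finite.subset Set.finite_empty fun v hv => hv fun h3 => absurd h h3
    · refine (finite_nonunit k K (sub_ne_zero.2 fun h4 => h (ha h4))).subset
        fun v hv => ⟨abK Om v, below_abK Om v, fun h5 => hv fun _ => h5⟩
  refine ((Set.finite_iUnion h1).union (Set.finite_iUnion h2)).subset fun v hv => ?_
  rw [Set.mem_setOf_eq, not_and_or, not_forall] at hv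
  rcases hv with ⟨i, hi⟩ | hv
  · exact Or.inl (Set.mem_iUnion.2 ⟨i, hi⟩)
  · push Not at hv
    obtain ⟨i, j, hij, h3⟩ := hv
    exact Or.inr (Set.mem_iUnion.2 ⟨(i, j), fun h4 => h3 (h4 hij)⟩)

end Pool.Agent.GBU
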