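import Pool.Agent.Lib.GBR.Plc
import Pool.Agent.Lib.GBR.Chart
import Pool.Agent.Lib.GBR.SepG
import Pool.Agent.Lib.BSDK.Res
import Pool.Agent.Lib.SmD.Plc
import Pool.Agent.Lib.SmD.Prim
import Pool.Agent.Lib.SmD.Above
import Pool.Agent.Lib.SmD.Conj

/-!
# SMITH-U, place layer: places of `Om` and places of a general global function field `K`

`K / k(t)` finite and separable, `k` finite. A valuation ring of `K` different from `K` is discrete
(`dvr_of_ne_top`) and contains `k`; so below every valuation ring `w ≠ ⊤` of an algebraic extension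
`Om` of `K` there is a unique `Place k K` (`place_below`), the hypotheses `LocHyp` of block D hold at
`w` (`exists_locHyp_of_ne_top`), every place of `K` has a `w` above it (`exists_above_place`).
-/

set_option autoImplicit false

open IsDedekindDomain IsLocalRing

namespace Pool.Agent.GBU

open Pool.Agent.BSDFF Pool.Agent.GBR Pool.Agent.Lib.SmD

/-- A valuation ring of `K = Frac R`, different from `K`, which contains the Dedekind ring `R`, is
the valuation ring of a prime ideal of `R`. -/
theorem dvr_of_dedekind {R K : Type*} [CommRing R] [IsDedekindDomain R] [Field K] [Algebra R K]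
    [IsFractionRing R K] (v : ValuationSubring K) (hne : v ≠ ⊤)
    (hv : ∀ r : R, algebraMap R K r ∈ v) :
    ∃ P : HeightOneSpectrum R, (P.valuation K).valuationSubring = v := by
  have hm : ∀ r : R, algebraMap R K r ∈ v.toSubring := hv
  obtain ⟨θ, hθ⟩ : ∃ θ : R →+* v, ∀ r, (θ r : K) = algebraMap R K r :=
    ⟨(algebraMap R K).codRestrict v.toSubring hm, fun r => rfl⟩
  obtain ⟨I, hI⟩ : ∃ I : Ideal R, I = Ideal.comap θ (IsLocalRing.maximalIdeal v) := ⟨_, rfl⟩
  have hIp : I.IsPrime := by
    rw [hI]
    exact Ideal.IsPrime.comap θ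
  have hinv : ∀ s : R, s ∉ I → (algebraMap R K s)⁻¹ ∈ v := by
    intro s hs
    rw [hI, Ideal.mem_comap, IsLocalRing.mem_maximalIdeal, mem_nonunits_iff, not_not] at hs
    obtain ⟨u, hu⟩ := hs
    have h1 : (u : v) * ((u⁻¹ : vˣ) : v) = 1 := u.mul_inv
    rw [hu] at h1
    have h2 : algebraMap R K s * (((u⁻¹ : vˣ) : v) : K) = 1 := by
      rw [← hθ s]
      exact congrArg Subtype.val h1
    rw [inv_eq_of_mul_eq_one_right h2]
    exact ((u⁻¹ : vˣ) : v).2
  have hI0 : I ≠ ⊥ := by
    intro h0
    apply hne
    rw [eq_top_iff]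
    intro x _
    obtain ⟨a, s, hs, rfl⟩ := IsFractionRing.div_surjective (A := R) x
    rw [div_eq_mul_inv]
    refine mul_mem (hv a) (hinv s ?_)
    rw [h0, Ideal.mem_bot]
    exact nonZeroDivisors.ne_zero hs
  obtain ⟨P, hP⟩ : ∃ P : HeightOneSpectrum R, P = ⟨I, hIp, hI0⟩ := ⟨_, rfl⟩
  refine ⟨P, ?_⟩
  have hPI : P.asIdeal = I := by rw [hP]
  have hle : (P.valuation K).valuationSubring ≤ v := by
    intro x hx
    obtain ⟨n, d, hnd⟩ := P.exists_primeCompl_mul_eq_of_integer x
      ((Valuation.mem_valuationSubring_iff _ _).1 hx)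
    have hd : (d : R) ∉ I := by
      rw [← hPI]
      exact d.2
    have hd0 : algebraMap R K d ≠ 0 := by
      intro h
      apply hd
      rw [(IsFractionRing.injective R K) (h.trans (map_zero _).symm)]
      exact I.zero_mem
    rw [(eq_mul_inv_iff_mul_eq₀ hd0).2 hnd]
    exact mul_mem (hv n) (hinv d hd)
  have h4 := P.valuationSubringAtPrime_eq_valuationSubring (K := K)
  have h5 : P.valuationSubringAtPrime K = v :=
    ValuationSubring.eq_of_le_of_ne_top _ (h4.le.trans hle) hne
  exact h4.symm.trans h5

section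

variable {k K : Type} [Field k] [Field K] [Algebra k K]

/-- The integral closure of `k[b]` is contained in every valuation ring which contains `k[b]`. -/
theorem Rb_mem (v : ValuationSubring K) (hc : ∀ c : k, algebraMap k K c ∈ v) {b : K} (hb : b ∈ v)
    (r : Rb k b) : algebraMap (Rb k b) K r ∈ v := by
  let S : Subalgebra k K := { v.toSubring with algebraMap_mem' := hc }
  have hS : Algebra.adjoin k {b} ≤ S := Algebra.adjoin_le (by
    intro x hx
    rw [Set.mem_singleton_iff.1 hx]
    exact hb)
  have hm : ∀ x : Algebra.adjoin k {b},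
      algebraMap (Algebra.adjoin k {b}) K x ∈ v.toSubring := fun x => hS x.2
  have h1 : IsIntegral (Algebra.adjoin k {b}) (r : K) := r.2
  have h2 : IsIntegral v (RingHom.id K (r : K)) :=
    h1.map_of_comp_eq ((algebraMap (Algebra.adjoin k {b}) K).codRestrict v.toSubring hm)
      (RingHom.id K) rfl
  obtain ⟨y, hy⟩ := IsIntegrallyClosed.isIntegral_iff.1 h2
  have h3 : (y : K) = (r : K) := hy
  show (r : K) ∈ v
  rw [← h3]
  exact y.2

theorem dvr_of_sepB {t : K} (ht : SepB k t) (v : ValuationSubring K) (hv : v ≠ ⊤)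
    (hc : ∀ c : k, algebraMap k K c ∈ v) : IsDiscreteValuationRing v := by
  have key : ∀ b : K, SepB k b → b ∈ v → IsDiscreteValuationRing v := by
    intro b hb hbv
    have : Fact (SepB k b) := ⟨hb⟩
    obtain ⟨P, hP⟩ := dvr_of_dedekind (R := Rb k b) v hv (Rb_mem v hc hbv)
    rw [← hP]
    infer_instance
  rcases v.mem_or_inv_mem t with h | h
  · exact key t ht h
  · exact key t⁻¹ (sepB_inv ht) h

omit [Field K] [Algebra k K] in
/-- Elements algebraic over a finite field lie in every valuation ring. -/
theorem const_mem_of_finite [Finite k] {F : Type*} [Field F] (f : k →+* F)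
    (v : ValuationSubring F) (c : k) : f c ∈ v := by
  by_cases hc : c = 0
  · rw [hc, map_zero]
    exact v.zero_mem
  · rcases v.mem_or_inv_mem (f c) with h | h
    · exact h
    · have := Fintype.ofFinite k
      have h1 : c ^ (Fintype.card k - 1) = 1 := FiniteField.pow_card_sub_one_eq_one c hc
      have h2 : f c = ((f c)⁻¹) ^ (Fintype.card k - 2) := by
        have h3 : 2 ≤ Fintype.card k := by
          have := Fintype.one_lt_card (α := k)
          omega
        have h4 : (f c) ^ (Fintype.card k - 2) * f c = 1 := by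
          rw [← pow_succ, show Fintype.card k - 2 + 1 = Fintype.card k - 1 by omega, ← map_pow, h1,
            map_one]
        rw [inv_pow]
        exact eq_inv_of_mul_eq_one_right h4
      rw [h2]
      exact pow_mem h _

end

/-- Every valuation ring of a global function field `K`, different from `K`, is discrete. -/
theorem dvr_of_ne_top (k : Type) {K : Type} [Field k] [Finite k] [Field K] [Algebra k K]
    [Algebra (RatFunc k) K] [IsScalarTower k (RatFunc k) K] [FiniteDimensional (RatFunc k) K]
    [Algebra.IsSeparable (RatFunc k) K] (v : ValuationSubring K) (hv : v ≠ ⊤) :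
    IsDiscreteValuationRing v :=
  dvr_of_sepB (sepB_ratFunc (k := k) (K := K)) v hv (const_mem_of_finite (algebraMap k K) v)

/-- The place below a nontrivial place of an algebraic extension is nontrivial. -/
theorem below_ne_top (K : Type*) {Om : Type*} [Field K] [Field Om] [Algebra K Om]
    [Algebra.IsAlgebraic K Om] (w : ValuationSubring Om) (hw : w ≠ ⊤) :
    below K w ≠ ⊤ := by
  intro h
  apply hw
  rw [eq_top_iff]
  intro x _
  apply mem_of_isIntegral K w
  have halg : IsAlgebraic K x := Algebra.IsAlgebraic.isAlgebraic x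
  obtain ⟨p, hp, hx⟩ := halg.isIntegral
  have hcoef : ∀ a : K, a ∈ below K w := fun a => by rw [h]; trivial
  let ι : K →+* below K w := (RingHom.id K).codRestrict (below K w).toSubring hcoef
  refine ⟨p.map ι, hp.map ι, ?_⟩
  rw [Polynomial.eval₂_map]
  exact hx

/-- The place of `K` below the place `w ≠ ⊤` of `Om`. -/
theorem exists_place_below (k K : Type) {Om : Type} [Field k] [Finite k] [Field K] [Algebra k K]
    [Algebra (RatFunc k) K] [IsScalarTower k (RatFunc k) K] [FiniteDimensional (RatFunc k) K]
    [Algebra.IsSeparable (RatFunc k) K] [Field Om] [Algebra K Om] [Algebra.IsAlgebraic K Om]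
    (w : ValuationSubring Om) (hw : w ≠ ⊤) : ∃ v : Place k K, v.ring = below K w :=
  ⟨⟨below K w, const_mem_of_finite (algebraMap k K) _,
    dvr_of_ne_top k _ (below_ne_top K w hw)⟩, rfl⟩

theorem existsUnique_place_below (k K : Type) {Om : Type} [Field k] [Finite k] [Field K]
    [Algebra k K] [Algebra (RatFunc k) K] [IsScalarTower k (RatFunc k) K]
    [FiniteDimensional (RatFunc k) K] [Algebra.IsSeparable (RatFunc k) K] [Field Om]
    [Algebra K Om] [Algebra.IsAlgebraic K Om] (w : ValuationSubring Om) (hw : w ≠ ⊤) :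
    ∃! v : Place k K, v.ring = below K w := by
  obtain ⟨v, hv⟩ := exists_place_below k K w hw
  exact ⟨v, hv, fun v' hv' => Place.ext' (hv'.trans hv.symm)⟩

/-- Every place of `K` has a place of `Om` above it, different from `⊤`. -/
theorem exists_above_place {k K : Type} (Om : Type) [Field k] [Field K] [Algebra k K] [Field Om]
    [Algebra K Om] (v : Place k K) : ∃ w : ValuationSubring Om, w ≠ ⊤ ∧ below K w = v.ring := by
  obtain ⟨w, hw⟩ := exists_above K (Om := Om) v.ring
  refine ⟨w, ?_, hw⟩
  rintro rfl
  have h1 : v.ring = ⊤ := by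
    rw [← hw]
    rfl
  have := v.dvr
  obtain ⟨π, hπ⟩ := IsDiscreteValuationRing.exists_irreducible v.ring
  apply hπ.not_isUnit
  have h2 : (π : K) ≠ 0 := fun h => hπ.ne_zero (Subtype.ext h)
  have h3 : ∀ x : K, x ∈ v.ring := by
    intro x
    rw [h1]
    trivial
  exact IsUnit.of_mul_eq_one ⟨(π : K)⁻¹, h3 _⟩ (Subtype.ext (mul_inv_cancel₀ h2))

theorem val_two_of_finite (k K : Type) {Om : Type} [Field k] [Finite k] [Field K] [Algebra k K]
    [Field Om] [Algebra K Om] (h2 : (2 : k) ≠ 0) (w : ValuationSubring Om) :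
    w.valuation 2 = 1 := by
  have h3 : w.valuation (algebraMap K Om (algebraMap k K 2)) = 1 := by
    refine val_unit_below (K := K) ?_ ?_ ?_
    · exact const_mem_of_finite (algebraMap k K) (below K w) 2
    · rw [← map_inv₀]
      exact const_mem_of_finite (algebraMap k K) (below K w) 2⁻¹
    · exact (map_ne_zero_iff _ (algebraMap k K).injective).2 h2
  rwa [map_ofNat, map_ofNat] at h3

section

variable {k K : Type} [Field k] [Finite k] [Field K] [Algebra k K] [Algebra (RatFunc k) K]
  [IsScalarTower k (RatFunc k) K] [FiniteDimensional (RatFunc k) K] {Om : Type} [Field Om]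
  [Algebra K Om]

/-- `LocHyp` at a place `w` above `v`, for every uniformizer of `v`. -/
theorem locHyp_of_below (h2 : (2 : k) ≠ 0) (v : Place k K) (w : ValuationSubring Om)
    (hw : below K w = v.ring) {π : v.ring} (hπ : Irreducible π) : LocHyp K w (π : K) :=
  locHyp_of_dvr hw v.dvr (BSDK.residue_finite v) (val_two_of_finite k K h2 w) hπ

end

/-- `LocHyp` at every place `w ≠ ⊤` of `Om`. -/
theorem exists_locHyp_of_ne_top (k K : Type) {Om : Type} [Field k] [Finite k] [Field K]
    [Algebra k K] [Algebra (RatFunc k) K] [IsScalarTower k (RatFunc k) K]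
    [FiniteDimensional (RatFunc k) K] [Algebra.IsSeparable (RatFunc k) K] [Field Om]
    [Algebra K Om] [Algebra.IsAlgebraic K Om] (h2 : (2 : k) ≠ 0) (w : ValuationSubring Om)
    (hw : w ≠ ⊤) : ∃ π : K, LocHyp K w π := by
  obtain ⟨v, hv⟩ := exists_place_below k K w hw
  obtain ⟨π, hπ⟩ := IsDiscreteValuationRing.exists_irreducible v.ring
  exact ⟨(π : K), locHyp_of_below h2 v w hv.symm hπ⟩

end Pool.Agent.GBU
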