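import Pool.Agent.Lib.GBU.TG

/-!
# SMITH-U, place layer: change of field

`K ≤ L ≤ Om`, `res K : Gal(Om / L) → Gal(Om / K)` the inclusion.

* `res_mem_dec`, `res_mem_iner`: decomposition and inertia groups over `L` are those of `K`
  intersected with `Gal(Om / L)`; `below_below`.
* `exists_NP_le_map`: if some `N0 ∈ NP K Om` is contained in `Gal(Om / L)` then every `N' ∈ NP L Om`
  contains some `N ∈ NP K Om`.
* `IsTG.sub`: the first power of a topological generator of tame inertia which lies in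
  `Gal(Om / L)` is one over `L`.
* `resCard_sub`, `isFrob_sub`: the same for Frobenius elements.
-/

set_option autoImplicit false

open IsLocalRing Polynomial

namespace Pool.Agent.GBU

open Pool.Agent.Lib.SmD Pool.Agent.SmD

section basic

variable (K : Type*) {L Om : Type*} [Field K] [Field L] [Field Om] [Algebra K L] [Algebra K Om]
  [Algebra L Om] [IsScalarTower K L Om]

/-- The inclusion of `Gal(Om / L)` into `Gal(Om / K)`. -/
abbrev res : (Om ≃ₐ[L] Om) →* (Om ≃ₐ[K] Om) := AlgEquiv.restrictScalarsHom K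

theorem res_apply (s : Om ≃ₐ[L] Om) (x : Om) : res K s x = s x := rfl

theorem res_injective : Function.Injective (res K : (Om ≃ₐ[L] Om) →* (Om ≃ₐ[K] Om)) :=
  AlgEquiv.restrictScalarsHom_injective K

variable (L) in
/-- The image of `Gal(Om / L)` in `Gal(Om / K)`. -/
abbrev rg (Om : Type*) [Field Om] [Algebra K Om] [Algebra L Om] [IsScalarTower K L Om] :
    Subgroup (Om ≃ₐ[K] Om) := (res K : (Om ≃ₐ[L] Om) →* (Om ≃ₐ[K] Om)).range

theorem mem_rg {s : Om ≃ₐ[K] Om} :
    s ∈ rg K L Om ↔ ∀ x : L, s (algebraMap L Om x) = algebraMap L Om x := by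
  constructor
  · rintro ⟨t, rfl⟩ x
    exact t.commutes x
  · intro h
    exact ⟨{ s with commutes' := h }, AlgEquiv.ext fun x => rfl⟩

theorem res_mem_rg (s : Om ≃ₐ[L] Om) : res K s ∈ rg K L Om := ⟨s, rfl⟩

/-- The image of `Gal(Om / L)` is the fixing subgroup of the image of `L`. -/
theorem rg_eq_fixing :
    rg K L Om = (IsScalarTower.toAlgHom K L Om).fieldRange.fixingSubgroup := by
  ext s
  rw [mem_rg, IntermediateField.mem_fixingSubgroup_iff]
  constructor
  · rintro h _ ⟨x, rfl⟩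
    exact h x
  · intro h x
    exact h _ ⟨x, rfl⟩

theorem isOpen_rg [FiniteDimensional K L] : IsOpen (rg K L Om : Set (Om ≃ₐ[K] Om)) := by
  rw [rg_eq_fixing]
  have : FiniteDimensional K (IsScalarTower.toAlgHom K L Om).fieldRange :=
    LinearMap.finiteDimensional_range (IsScalarTower.toAlgHom K L Om).toLinearMap
  exact IntermediateField.fixingSubgroup_isOpen _

theorem below_below (w : ValuationSubring Om) : below K (below L w) = below K w := by
  ext x
  rw [ValuationSubring.mem_comap, ValuationSubring.mem_comap, ValuationSubring.mem_comap,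
    ← IsScalarTower.algebraMap_apply]

theorem res_mem_dec {w : ValuationSubring Om} {s : Om ≃ₐ[L] Om} :
    res K s ∈ dec K w ↔ s ∈ dec L w := by
  rw [mem_dec, mem_dec]
  exact Iff.rfl

theorem res_mem_iner {w : ValuationSubring Om} {s : Om ≃ₐ[L] Om} :
    res K s ∈ iner K w ↔ s ∈ iner L w := by
  rw [mem_iner, mem_iner, res_mem_dec]
  exact Iff.rfl

/-- The image of an open subgroup is open. -/
theorem isOpen_map_res [FiniteDimensional K L] {N' : Subgroup (Om ≃ₐ[L] Om)}
    (hN' : IsOpen (N' : Set (Om ≃ₐ[L] Om))) :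
    IsOpen (N'.map (res K) : Set (Om ≃ₐ[K] Om)) := by
  obtain ⟨E, hE, hEN⟩ := (krullTopology_mem_nhds_one_iff L Om _).1 (hN'.mem_nhds N'.one_mem)
  have hfin : FiniteDimensional K (E.restrictScalars K) := by
    have : FiniteDimensional K E := Module.Finite.trans L E
    exact this
  have hop := IntermediateField.fixingSubgroup_isOpen (E.restrictScalars K)
  refine Subgroup.isOpen_mono ?_ hop
  intro s hs
  rw [IntermediateField.mem_fixingSubgroup_iff] at hs
  have h1 : ∀ x : L, s (algebraMap L Om x) = algebraMap L Om x := fun x =>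
    hs _ (E.algebraMap_mem x)
  obtain ⟨t, rfl⟩ := (mem_rg K).2 h1
  refine ⟨t, hEN ?_, rfl⟩
  rw [SetLike.mem_coe, IntermediateField.mem_fixingSubgroup_iff]
  exact fun x hx => hs x hx

end basic

section core

/-- A finite intersection of normal subgroups of index prime to the characteristic. -/
private theorem Sub_inf {Γ : Type*} [Group Γ] {K : Type*} [Field K] {A B : Subgroup Γ}
    (hA : A.Normal ∧ (A.index : K) ≠ 0) (hB : B.Normal ∧ (B.index : K) ≠ 0) :
    (A ⊓ B).Normal ∧ ((A ⊓ B).index : K) ≠ 0 := by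
  obtain ⟨h1, h3⟩ := hA
  obtain ⟨h1', h3'⟩ := hB
  refine ⟨inferInstance, ?_⟩
  have e1 : (A ⊓ B).index = A.relIndex B * B.index := by
    rw [← Subgroup.inf_relIndex_right A B, Subgroup.relIndex_mul_index inf_le_right]
  obtain ⟨m, hm⟩ : A.relIndex B ∣ A.index := Subgroup.relIndex_dvd_index_of_normal A B
  rw [e1, Nat.cast_mul]
  refine mul_ne_zero (fun h0 => h3 ?_) h3'
  rw [hm, Nat.cast_mul, h0, zero_mul]

variable {K L Om : Type*} [Field K] [Field L] [Field Om] [Algebra K L] [Algebra K Om]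
  [Algebra L Om] [IsScalarTower K L Om]

/-- If `Gal(Om / L)` contains a subgroup in `NP K Om` then every subgroup in `NP L Om` contains
one. -/
theorem exists_NP_le_map [FiniteDimensional K L] {N0 : Subgroup (Om ≃ₐ[K] Om)}
    (hN0 : N0 ∈ NP K Om) (hle : N0 ≤ rg K L Om) {N' : Subgroup (Om ≃ₐ[L] Om)}
    (hN' : N' ∈ NP L Om) : ∃ N ∈ NP K Om, N ≤ N0 ∧ N ≤ N'.map (res K) := by
  have hn0 := NP.normal hN0
  have hn' := NP.normal hN'
  have hf0 := NP.finiteIndex hN0
  set M : Subgroup (Om ≃ₐ[K] Om) := N'.map (res K) ⊓ N0 with hM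
  have hMo : IsOpen (M : Set (Om ≃ₐ[K] Om)) := by
    rw [hM, Subgroup.coe_inf]
    exact (isOpen_map_res K (NP.isOpen hN')).inter (NP.isOpen hN0)
  -- `N0` normalizes `M`
  have hnorm : ∀ n ∈ N0, ∀ m ∈ M, n * m * n⁻¹ ∈ M := by
    rintro n hn m ⟨⟨m', hm', rfl⟩, hm0⟩
    obtain ⟨n', rfl⟩ := hle hn
    refine ⟨⟨n' * m' * n'⁻¹, hn'.conj_mem _ hm' _, ?_⟩, ?_⟩
    · rw [map_mul, map_mul, map_inv]
    · exact N0.mul_mem (N0.mul_mem hn hm0) (N0.inv_mem hn)
  -- the conjugates
  let A0 : Subgroup N0 := M.subgroupOf N0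
  have hA0 : A0.Normal ∧ (A0.index : K) ≠ 0 := by
    refine ⟨⟨fun m hm n => ?_⟩, ?_⟩
    · rw [Subgroup.mem_subgroupOf] at hm ⊢
      exact hnorm n n.2 m hm
    · have h1 : A0.index = N'.relIndex (N0.comap (res K)) := by
        change M.relIndex N0 = _
        rw [hM, Subgroup.inf_relIndex_right]
        have h2 : (N0.comap (res K : (Om ≃ₐ[L] Om) →* (Om ≃ₐ[K] Om))).map (res K) = N0 := by
          rw [Subgroup.map_comap_eq]
          exact inf_eq_right.2 hle
        conv_lhs => rw [← h2]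
        exact Subgroup.relIndex_map_map_of_injective _ _ (res_injective K)
      obtain ⟨m, hm⟩ : N'.relIndex (N0.comap (res K)) ∣ N'.index :=
        Subgroup.relIndex_dvd_index_of_normal N' _
      intro h0
      apply NP.index_ne hN'
      rw [hm, Nat.cast_mul]
      rw [h1] at h0
      have h3 : ((N'.relIndex (N0.comap (res K)) : ℕ) : L) = 0 := by
        rw [← map_natCast (algebraMap K L), h0, map_zero]
      rw [h3, zero_mul]
  let A : ((Om ≃ₐ[K] Om) ⧸ N0) → Subgroup N0 := fun q =>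
    A0.comap (MulAut.conjNormal q.out).toMonoidHom
  have hA : ∀ q, (A q).Normal ∧ ((A q).index : K) ≠ 0 := by
    intro q
    have := hA0.1
    refine ⟨inferInstance, ?_⟩
    have h1 : (A q).index = A0.index :=
      Subgroup.index_comap_of_surjective _ (MulAut.conjNormal q.out).surjective
    rw [h1]
    exact hA0.2
  have hfin : Finite ((Om ≃ₐ[K] Om) ⧸ N0) := inferInstance
  have : Fintype ((Om ≃ₐ[K] Om) ⧸ N0) := Fintype.ofFinite _
  have hinf : (Finset.univ.inf A).Normal ∧ ((Finset.univ.inf A).index : K) ≠ 0 := by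
    refine Finset.inf_induction (p := fun B : Subgroup N0 => B.Normal ∧ (B.index : K) ≠ 0)
      ?_ (fun _ h1 _ h2 => Sub_inf h1 h2) (fun q _ => hA q)
    refine ⟨inferInstance, ?_⟩
    rw [Subgroup.index_top, Nat.cast_one]
    exact one_ne_zero
  have hcoset : ∀ (g : Om ≃ₐ[K] Om) (a : Om ≃ₐ[K] Om),
      (QuotientGroup.mk g : (Om ≃ₐ[K] Om) ⧸ N0).out * a *
        (QuotientGroup.mk g : (Om ≃ₐ[K] Om) ⧸ N0).out⁻¹ ∈ M → g * a * g⁻¹ ∈ M := by
    intro g a h
    set t := (QuotientGroup.mk g : (Om ≃ₐ[K] Om) ⧸ N0).out with ht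
    have h1 : t⁻¹ * g ∈ N0 := by
      rw [← QuotientGroup.eq, ht, QuotientGroup.out_eq']
    have h2 : g * t⁻¹ ∈ N0 := by
      have := hn0.conj_mem _ h1 t
      rwa [mul_inv_cancel_left] at this
    have h3 := hnorm _ h2 _ h
    have h4 : g * t⁻¹ * (t * a * t⁻¹) * (g * t⁻¹)⁻¹ = g * a * g⁻¹ := by group
    rwa [h4] at h3
  have hMN0 : M ≤ N0 := inf_le_right
  have hcore : (M.normalCore).subgroupOf N0 = Finset.univ.inf A := by
    ext a
    rw [Finset.inf_univ_eq_iInf, Subgroup.mem_iInf, Subgroup.mem_subgroupOf]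
    constructor
    · intro h q
      exact h q.out
    · intro h g
      refine hcoset g a ?_
      exact h (QuotientGroup.mk g)
  have hle1 : M.normalCore ≤ M := Subgroup.normalCore_le M
  refine ⟨M.normalCore, ⟨inferInstance, ?_, ?_⟩, hle1.trans hMN0, hle1.trans inf_le_left⟩
  · have h1 : (M.normalCore : Set (Om ≃ₐ[K] Om)) =
        ⋂ q : (Om ≃ₐ[K] Om) ⧸ N0, (fun a => q.out * a * q.out⁻¹) ⁻¹' (M : Set (Om ≃ₐ[K] Om)) := by
      ext a
      rw [Set.mem_iInter]
      constructor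
      · intro h q
        exact h q.out
      · intro h g
        exact hcoset g a (h (QuotientGroup.mk g))
    rw [h1]
    refine isOpen_iInter_of_finite fun q => hMo.preimage ?_
    exact (continuous_const.mul continuous_id).mul continuous_const
  · rw [← Subgroup.relIndex_mul_index (hle1.trans hMN0), Nat.cast_mul]
    refine mul_ne_zero ?_ (NP.index_ne hN0)
    have h1 : (M.normalCore).relIndex N0 = (Finset.univ.inf A).index := by
      rw [← hcore]
      rfl
    rw [h1]
    exact hinf.2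

/-- A subgroup containing `s ^ m` and with `e` the least positive exponent with `s ^ e` in it. -/
private theorem Sub_dvd {Γ : Type*} [Group Γ] {H : Subgroup Γ} {s : Γ} {e m : ℕ} (he : 0 < e)
    (hs : s ^ e ∈ H) (hmin : ∀ i, 0 < i → s ^ i ∈ H → e ≤ i) (hm : s ^ m ∈ H) : e ∣ m := by
  have h1 : s ^ (m % e) ∈ H := by
    have h2 : s ^ m = (s ^ e) ^ (m / e) * s ^ (m % e) := by
      rw [← pow_mul, ← pow_add, Nat.div_add_mod]
    rw [h2] at hm
    exact (Subgroup.mul_mem_cancel_left H (H.pow_mem hs _)).1 hm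
  by_contra h
  have h3 : 0 < m % e := Nat.pos_of_ne_zero fun h0 => h (Nat.dvd_of_mod_eq_zero h0)
  exact absurd (hmin _ h3 h1) (not_le.2 (Nat.mod_lt _ he))

theorem IsTG.sub [FiniteDimensional K L] {w : ValuationSubring Om} {τ : Om ≃ₐ[K] Om}
    (h : IsTG K w τ) {N0 : Subgroup (Om ≃ₐ[K] Om)} (hN0 : N0 ∈ NP K Om) (hle : N0 ≤ rg K L Om)
    {e : ℕ} (he : 0 < e) (hmin : ∀ i, 0 < i → τ ^ i ∈ rg K L Om → e ≤ i)
    {τ' : Om ≃ₐ[L] Om} (hτ' : res K τ' = τ ^ e) : IsTG L w τ' := by
  refine ⟨(res_mem_iner K).1 (by rw [hτ']; exact (iner K w).pow_mem h.mem e), ?_⟩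
  intro N' hN' σ hσ
  obtain ⟨N, hN, hNN0, hNN'⟩ := exists_NP_le_map hN0 hle hN'
  obtain ⟨m, hm⟩ := h.gen N hN (res K σ) ((res_mem_iner K).2 hσ)
  have h1 : τ ^ m ∈ rg K L Om := by
    have h2 : τ ^ m = res K σ * ((τ ^ m)⁻¹ * res K σ)⁻¹ := by group
    rw [h2]
    exact (rg K L Om).mul_mem (res_mem_rg K σ) ((rg K L Om).inv_mem (hle (hNN0 hm)))
  obtain ⟨n, rfl⟩ := Sub_dvd he (by rw [← hτ']; exact res_mem_rg K τ') hmin h1
  refine ⟨n, ?_⟩
  rw [pow_mul, ← hτ', ← map_pow, ← map_inv, ← map_mul] at hm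
  obtain ⟨s, hs, hs1⟩ := hNN' hm
  rwa [res_injective K hs1] at hs

/-- Some positive power of every element lies in `Gal(Om / L)`. -/
theorem exists_pow_mem_rg [IsGalois K Om] [FiniteDimensional K L] (s : Om ≃ₐ[K] Om) :
    ∃ e : ℕ, 0 < e ∧ s ^ e ∈ rg K L Om := by
  have hop : IsOpen (rg K L Om : Set (Om ≃ₐ[K] Om)) := isOpen_rg K
  have hfin : Finite ((Om ≃ₐ[K] Om) ⧸ rg K L Om) := Subgroup.quotient_finite_of_isOpen _ hop
  have : (rg K L Om).FiniteIndex := Subgroup.finiteIndex_of_finite_quotient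
  obtain ⟨e, he, -, h⟩ := Subgroup.exists_pow_mem_of_index_ne_zero
    (Subgroup.FiniteIndex.index_ne_zero (H := rg K L Om)) s
  exact ⟨e, he, h⟩

end core

section frob

variable {K L Om : Type*} [Field K] [Field L] [Field Om] [Algebra K L] [Algebra K Om]
  [Algebra L Om] [IsScalarTower K L Om]

/-- The number of elements of the residue field of `L` is a power of that of `K`. -/
theorem resCard_pow (w : ValuationSubring Om) [Finite (ResidueField (below L w))] :
    ∃ d : ℕ, 0 < d ∧ resCard (below L w) = resCard (below K w) ^ d := by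
  rw [← below_below K (L := L) w]
  letI alg : Algebra (ResidueField (below K (below L w))) (ResidueField (below L w)) :=
    (resMap K (below L w)).toAlgebra
  have hinj : Function.Injective
      (algebraMap (ResidueField (below K (below L w))) (ResidueField (below L w))) :=
    RingHom.injective _
  have hf : Finite (ResidueField (below K (below L w))) := Finite.of_injective _ hinj
  have hm : Module.Finite (ResidueField (below K (below L w))) (ResidueField (below L w)) :=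
    Module.Finite.of_finite
  refine ⟨Module.finrank (ResidueField (below K (below L w))) (ResidueField (below L w)),
    Module.finrank_pos, ?_⟩
  exact Module.natCard_eq_pow_finrank

theorem one_lt_resCard (w : ValuationSubring Om) [Finite (ResidueField (below K w))] :
    1 < resCard (below K w) := Finite.one_lt_card

/-- A Frobenius element over `L` and the corresponding power of one over `K` differ by inertia. -/
theorem frob_mul_inv_mem {w : ValuationSubring Om} {φ : Om ≃ₐ[K] Om} (hφ : IsFrob K w φ)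
    {ψ : Om ≃ₐ[L] Om} (hψ : IsFrob L w ψ) {d : ℕ}
    (hd : resCard (below L w) = resCard (below K w) ^ d) :
    res K ψ * (φ ^ d)⁻¹ ∈ iner K w := by
  have hφd : φ ^ d ∈ dec K w := (dec K w).pow_mem hφ.mem d
  have hψd : res K ψ ∈ dec K w := (res_mem_dec K).2 hψ.mem
  refine ⟨(dec K w).mul_mem hψd ((dec K w).inv_mem hφd), fun x hx => ?_⟩
  obtain ⟨y, hy⟩ : ∃ y, y = (φ ^ d)⁻¹ x := ⟨_, rfl⟩
  have hyw : y ∈ w := by
    rw [hy]
    exact ((mem_dec K).1 ((dec K w).inv_mem hφd) x).2 hx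
  have hyx : (φ ^ d) y = x := by
    rw [hy, ← AlgEquiv.mul_apply, mul_inv_cancel, AlgEquiv.one_apply]
  have h1 := frob_pow hφ d hyw
  have h2 := hψ.frob y hyw
  rw [hd] at h2
  have h3 : (res K ψ * (φ ^ d)⁻¹) x - x =
      (ψ y - y ^ resCard (below K w) ^ d) - ((φ ^ d) y - y ^ resCard (below K w) ^ d) := by
    rw [AlgEquiv.mul_apply, ← hy, hyx, res_apply]
    ring
  rw [h3]
  exact lt_of_le_of_lt (w.valuation.map_sub _ _) (max_lt h2 h1)

/-- An element of `Gal(Om / L)` which is inertia times `φ ^ j` forces `#κ(L) ≤ q ^ j`. -/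
theorem resCard_le {w : ValuationSubring Om} {φ : Om ≃ₐ[K] Om} (hφ : IsFrob K w φ)
    [Finite (ResidueField (below L w))] {j : ℕ} (hj : 0 < j) {ι : Om ≃ₐ[K] Om}
    (hι : ι ∈ iner K w) (h : ι * φ ^ j ∈ rg K L Om) :
    resCard (below L w) ≤ resCard (below K w) ^ j := by
  classical
  have hq : 1 < resCard (below K w) := by
    rw [← below_below K (L := L) w]
    have hinj : Function.Injective (resMap K (below L w)) := RingHom.injective _
    have hf : Finite (ResidueField (below K (below L w))) := Finite.of_injective _ hinj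
    exact Finite.one_lt_card
  set q := resCard (below K w) with hqd
  have hqj : 1 < q ^ j := Nat.one_lt_pow hj.ne' hq
  have hroot : ∀ a : ResidueField (below L w), a ^ q ^ j = a := by
    intro a
    obtain ⟨x, rfl⟩ := residue_surjective a
    rw [← map_pow]
    have hxw : algebraMap L Om (x : L) ∈ w := x.2
    have hinj : Function.Injective (resMap L w) := RingHom.injective _
    apply hinj
    rw [resMap_residue, resMap_residue]
    have e1 : (⟨algebraMap L Om ((x ^ q ^ j : below L w) : L), (x ^ q ^ j).2⟩ : w) =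
        ⟨(algebraMap L Om (x : L)) ^ q ^ j, pow_mem hxw _⟩ := by
      apply Subtype.ext
      change algebraMap L Om ((x ^ q ^ j : below L w) : L) = (algebraMap L Om (x : L)) ^ q ^ j
      rw [SubmonoidClass.coe_pow, map_pow]
    rw [e1, residue_eq_iff]
    have h1 := (mem_rg K).1 h (x : L)
    rw [AlgEquiv.mul_apply] at h1
    have h2 := frob_pow hφ j hxw
    have h3 : (φ ^ j) (algebraMap L Om (x : L)) ∈ w :=
      ((mem_dec K).1 ((dec K w).pow_mem hφ.mem j) _).2 hxw
    have h4 := hι.2 _ h3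
    rw [h1] at h4
    have h5 : algebraMap L Om (x : L) ^ q ^ j - algebraMap L Om (x : L) =
        -((φ ^ j) (algebraMap L Om (x : L)) - algebraMap L Om (x : L) ^ q ^ j) -
          (algebraMap L Om (x : L) - (φ ^ j) (algebraMap L Om (x : L))) := by ring
    rw [h5]
    refine lt_of_le_of_lt (w.valuation.map_sub _ _) (max_lt ?_ h4)
    rw [Valuation.map_neg]
    exact h2
  have : Fintype (ResidueField (below L w)) := Fintype.ofFinite _
  unfold resCard
  rw [Nat.card_eq_fintype_card]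
  have hne : (X ^ q ^ j - X : (ResidueField (below L w))[X]) ≠ 0 :=
    FiniteField.X_pow_card_sub_X_ne_zero _ hqj
  have hsub : (Finset.univ : Finset (ResidueField (below L w))) ⊆
      (X ^ q ^ j - X : (ResidueField (below L w))[X]).roots.toFinset := by
    intro a _
    rw [Multiset.mem_toFinset, mem_roots hne, IsRoot.def, eval_sub, eval_pow, eval_X, hroot a,
      sub_self]
  calc Fintype.card (ResidueField (below L w))
      = (Finset.univ : Finset (ResidueField (below L w))).card := rfl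
    _ ≤ _ := Finset.card_le_card hsub
    _ ≤ _ := Multiset.toFinset_card_le _
    _ ≤ (X ^ q ^ j - X : (ResidueField (below L w))[X]).natDegree := card_roots' _
    _ = q ^ j := FiniteField.X_pow_card_sub_X_natDegree_eq _ hqj

/-- Some `φ ^ d`, `d > 0`, is in `(iner K w) Gal(Om / L)`. -/
theorem exists_frob_mem [IsGalois L Om] {w : ValuationSubring Om} {φ : Om ≃ₐ[K] Om}
    (hφ : IsFrob K w φ) [Finite (ResidueField (below L w))] :
    ∃ d, 0 < d ∧ resCard (below L w) = resCard (below K w) ^ d ∧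
      ∃ ι ∈ iner K w, ι * φ ^ d ∈ rg K L Om := by
  obtain ⟨d, hd, hd1⟩ := resCard_pow (K := K) (L := L) w
  obtain ⟨ψ, hψ⟩ := exists_frob (K := L) w
  refine ⟨d, hd, hd1, _, frob_mul_inv_mem hφ hψ hd1, ?_⟩
  rw [inv_mul_cancel_right]
  exact res_mem_rg K ψ

theorem resCard_sub [IsGalois L Om] {w : ValuationSubring Om} {φ : Om ≃ₐ[K] Om}
    (hφ : IsFrob K w φ) [Finite (ResidueField (below L w))] {f : ℕ} (hf : 0 < f)
    (h1 : ∃ ι ∈ iner K w, ι * φ ^ f ∈ rg K L Om)
    (hmin : ∀ j, 0 < j → (∃ ι ∈ iner K w, ι * φ ^ j ∈ rg K L Om) → f ≤ j) :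
    resCard (below L w) = resCard (below K w) ^ f := by
  obtain ⟨d, hd, hd1, hd2⟩ := exists_frob_mem (L := L) hφ
  have hfd := hmin d hd hd2
  obtain ⟨ι, hι, hι1⟩ := h1
  have h2 := resCard_le hφ hf hι hι1
  rw [hd1] at h2
  have hq : 1 < resCard (below K w) := by
    by_contra hcon
    have h3 : resCard (below K w) ^ d ≤ 1 := by
      have : resCard (below K w) ≤ 1 := not_lt.1 hcon
      exact pow_le_one₀ (Nat.zero_le _) this
    rw [← hd1] at h3
    have : 1 < resCard (below L w) := Finite.one_lt_card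
    omega
  have h4 : d ≤ f := (Nat.pow_le_pow_iff_right hq).1 h2
  rw [hd1, le_antisymm h4 hfd]

theorem isFrob_sub {w : ValuationSubring Om} {φ : Om ≃ₐ[K] Om} (hφ : IsFrob K w φ) {f : ℕ}
    (hf : resCard (below L w) = resCard (below K w) ^ f) {ι : Om ≃ₐ[K] Om} (hι : ι ∈ iner K w)
    {σ : Om ≃ₐ[L] Om} (hσ : res K σ = ι * φ ^ f) : IsFrob L w σ := by
  have hφf : φ ^ f ∈ dec K w := (dec K w).pow_mem hφ.mem f
  refine ⟨(res_mem_dec K).1 ?_, fun x hx => ?_⟩
  · rw [hσ]
    exact (dec K w).mul_mem hι.1 hφf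
  · rw [hf, ← res_apply K σ x, hσ, AlgEquiv.mul_apply]
    have h1 : (φ ^ f) x ∈ w := ((mem_dec K).1 hφf x).2 hx
    have h2 := hι.2 _ h1
    have h3 := frob_pow hφ f hx
    have h4 : ι ((φ ^ f) x) - x ^ resCard (below K w) ^ f =
        (ι ((φ ^ f) x) - (φ ^ f) x) + ((φ ^ f) x - x ^ resCard (below K w) ^ f) := by ring
    rw [h4]
    exact lt_of_le_of_lt (w.valuation.map_add _ _) (max_lt h2 h3)

/-- The condition of `resCard_sub` in terms of the powers of the tame generator. -/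
theorem exists_iner_iff {w : ValuationSubring Om} {φ τ : Om ≃ₐ[K] Om} (hτ : IsTG K w τ)
    {N0 : Subgroup (Om ≃ₐ[K] Om)} (hN0 : N0 ∈ NP K Om) (hle : N0 ≤ rg K L Om) (j : ℕ) :
    (∃ ι ∈ iner K w, ι * φ ^ j ∈ rg K L Om) ↔ ∃ i : ℕ, τ ^ i * φ ^ j ∈ rg K L Om := by
  have hn0 := NP.normal hN0
  constructor
  · rintro ⟨ι, hι, h⟩
    obtain ⟨i, hi⟩ := hτ.gen N0 hN0 ι hι
    refine ⟨i, ?_⟩
    have h1 : τ ^ i * φ ^ j = ι * φ ^ j * ((φ ^ j)⁻¹ * ((τ ^ i)⁻¹ * ι)⁻¹ * ((φ ^ j)⁻¹)⁻¹) := by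
      group
    rw [h1]
    exact (rg K L Om).mul_mem h (hle (hn0.conj_mem _ (N0.inv_mem hi) _))
  · rintro ⟨i, h⟩
    exact ⟨τ ^ i, (iner K w).pow_mem hτ.mem i, h⟩

/-- The tame generator and a Frobenius element over `L`, from those over `K`. -/
theorem exists_sub [IsGalois K Om] [IsGalois L Om] [FiniteDimensional K L]
    {w : ValuationSubring Om} {φ τ : Om ≃ₐ[K] Om} (hτ : IsTG K w τ) (hφ : IsFrob K w φ)
    [Finite (ResidueField (below L w))] {N0 : Subgroup (Om ≃ₐ[K] Om)} (hN0 : N0 ∈ NP K Om)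
    (hle : N0 ≤ rg K L Om) :
    ∃ (e f j : ℕ) (τ' φ' : Om ≃ₐ[L] Om), 0 < e ∧ 0 < f ∧ res K τ' = τ ^ e ∧
      res K φ' = τ ^ j * φ ^ f ∧ IsTG L w τ' ∧ IsFrob L w φ' ∧
      resCard (below L w) = resCard (below K w) ^ f ∧
      (∀ l : ℕ, τ ^ l ∈ rg K L Om ↔ e ∣ l) ∧
      ∀ f' : ℕ, 0 < f' → (∃ i : ℕ, τ ^ i * φ ^ f' ∈ rg K L Om) → f ≤ f' := by
  classical
  have hex1 : ∃ e : ℕ, 0 < e ∧ τ ^ e ∈ rg K L Om := exists_pow_mem_rg τ
  have hex2 : ∃ f : ℕ, 0 < f ∧ ∃ i : ℕ, τ ^ i * φ ^ f ∈ rg K L Om := by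
    obtain ⟨d, hd, -, h⟩ := exists_frob_mem (L := L) hφ
    exact ⟨d, hd, (exists_iner_iff hτ hN0 hle d).1 h⟩
  obtain ⟨he, he1⟩ := Nat.find_spec hex1
  obtain ⟨hf, j, hf1⟩ := Nat.find_spec hex2
  have hmin1 : ∀ i, 0 < i → τ ^ i ∈ rg K L Om → Nat.find hex1 ≤ i := fun i h1 h2 =>
    Nat.find_min' hex1 ⟨h1, h2⟩
  have hmin2 : ∀ i, 0 < i → (∃ l : ℕ, τ ^ l * φ ^ i ∈ rg K L Om) → Nat.find hex2 ≤ i :=
    fun i h1 h2 => Nat.find_min' hex2 ⟨h1, h2⟩
  obtain ⟨τ', hτ'⟩ := id he1
  obtain ⟨φ', hφ'⟩ := id hf1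
  have hres : resCard (below L w) = resCard (below K w) ^ Nat.find hex2 := by
    refine resCard_sub hφ hf ⟨_, (iner K w).pow_mem hτ.mem j, hf1⟩ fun i hi h => ?_
    exact hmin2 i hi ((exists_iner_iff hτ hN0 hle i).1 h)
  refine ⟨Nat.find hex1, Nat.find hex2, j, τ', φ', he, hf, hτ', hφ',
    hτ.sub hN0 hle he hmin1 hτ', isFrob_sub hφ hres ((iner K w).pow_mem hτ.mem j) hφ', hres,
    fun l => ⟨fun h => Sub_dvd he he1 hmin1 h, ?_⟩, hmin2⟩
  rintro ⟨m, rfl⟩
  rw [pow_mul]
  exact (rg K L Om).pow_mem he1 m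

end frob

end Pool.Agent.GBU
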