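import Pool.Agent.Lib.GBU.Pic

/-!
Block GBU: a quadratic extension in which all places split does not exist (count of effective
divisors).
-/

set_option autoImplicit false

namespace Pool.Agent.GBU

open Pool.Agent.BSDFF Pool.Agent.GBC

section bounds

variable {k K : Type} [Field k] [Field K] [Algebra k K] (G : Geo k K) [Finite k]

/-- The effective divisors of degree `n`. -/
noncomputable def Eff (n : ℤ) : Finset (Place k K →₀ ℤ) := (finite_eff G n).toFinset

theorem mem_Eff {n : ℤ} {D : Place k K →₀ ℤ} : D ∈ Eff G n ↔ 0 ≤ D ∧ degD D = n := by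
  unfold Eff
  rw [Set.Finite.mem_toFinset]
  rfl

include G in
omit [Finite k] in
private theorem one_le_l0 : 1 ≤ Module.finrank k (LL (0 : Place k K →₀ ℤ)) := by
  have := LL_finite G (0 : Place k K →₀ ℤ)
  rw [Nat.one_le_iff_ne_zero, ← Nat.pos_iff_ne_zero, Module.finrank_pos_iff]
  refine ⟨⟨(1 : K), Or.inr fun w => by rw [ord_one]; simp⟩, 0, fun h => ?_⟩
  exact one_ne_zero (congrArg Subtype.val h)

include G in
/-- The number of effective divisors in a class. -/
theorem card_class_le (D : Place k K →₀ ℤ) :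
    {E : Place k K →₀ ℤ | 0 ≤ E ∧ E - D ∈ Prin k K}.Finite ∧
    {E : Place k K →₀ ℤ | 0 ≤ E ∧ E - D ∈ Prin k K}.ncard ≤ Nat.card k ^ Module.finrank k (LL D) ∧
    Nat.card k ^ Module.finrank k (LL D) ≤ {E : Place k K →₀ ℤ | 0 ≤ E ∧ E - D ∈ Prin k K}.ncard *
      Nat.card k ^ Module.finrank k (LL (0 : Place k K →₀ ℤ)) + 1 := by
  have h1 := card_eff_class G D
  set l := Module.finrank k (LL (0 : Place k K →₀ ℤ)) with hl
  set L := Module.finrank k (LL D)
  rw [Nat.card_coe_set_eq] at h1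
  set N := {E : Place k K →₀ ℤ | 0 ≤ E ∧ E - D ∈ Prin k K}.ncard
  have hq : 2 ≤ Nat.card k := Finite.one_lt_card
  have h5 : 1 ≤ Nat.card k ^ l - 1 := by
    have h6 : 2 ^ 1 ≤ Nat.card k ^ l := by
      calc 2 ^ 1 ≤ Nat.card k ^ 1 := Nat.pow_le_pow_left hq 1
        _ ≤ Nat.card k ^ l := Nat.pow_le_pow_right (by omega) (one_le_l0 G)
    omega
  refine ⟨?_, ?_, ?_⟩
  · refine (finite_eff G (degD D)).subset ?_
    intro E hE
    exact ⟨hE.1, degD_congr G hE.2⟩
  · calc N ≤ N * (Nat.card k ^ l - 1) := Nat.le_mul_of_pos_right _ h5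
      _ = Nat.card k ^ L - 1 := h1
      _ ≤ Nat.card k ^ L := Nat.sub_le _ _
  · have h7 : Nat.card k ^ L - 1 ≤ N * Nat.card k ^ l := by
      rw [← h1]
      exact Nat.mul_le_mul_left _ (Nat.sub_le _ _)
    omega

/-- The upper bound. -/
theorem card_Eff_le : ∃ B : ℕ, ∀ n : ℕ, (Eff G n).card ≤ B * Nat.card k ^ n := by
  classical
  obtain ⟨R, hR, hR'⟩ := exists_reps G
  set l := Module.finrank k (LL (0 : Place k K →₀ ℤ)) with hl
  refine ⟨hR.toFinset.card * Nat.card k ^ l, fun n => ?_⟩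
  rcases (Eff G n).eq_empty_or_nonempty with h0 | ⟨E₁, hE₁⟩
  · rw [h0]
    exact Nat.zero_le _
  have hE₁' := (mem_Eff G).1 hE₁
  have hsub : Eff G n ⊆ hR.toFinset.biUnion fun F =>
      (Eff G n).filter fun E => E - (E₁ + F) ∈ Prin k K := by
    intro E hE
    have hE' := (mem_Eff G).1 hE
    obtain ⟨F, hF, hEF⟩ := hR' (E - E₁) (by rw [degD_sub, hE'.2, hE₁'.2, sub_self])
    rw [Finset.mem_biUnion]
    refine ⟨F, hR.mem_toFinset.2 hF, ?_⟩
    rw [Finset.mem_filter]
    refine ⟨hE, ?_⟩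
    have h3 : E - (E₁ + F) = E - E₁ - F := by abel
    rw [h3]
    exact hEF
  have hone : ∀ F ∈ hR.toFinset,
      ((Eff G n).filter fun E => E - (E₁ + F) ∈ Prin k K).card ≤ Nat.card k ^ (n + l) := by
    intro F hF
    rcases ((Eff G n).filter fun E => E - (E₁ + F) ∈ Prin k K).eq_empty_or_nonempty with h0 | h0
    · rw [h0]
      exact Nat.zero_le _
    obtain ⟨E, hE⟩ := h0
    rw [Finset.mem_filter, mem_Eff] at hE
    have hdeg : degD (E₁ + F) = n := by
      rw [← degD_congr G hE.2, hE.1.2]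
    obtain ⟨h1, h2, _⟩ := card_class_le G (E₁ + F)
    have h3 := LL_le G (E₁ + F) (by rw [hdeg]; exact Int.natCast_nonneg _)
    rw [hdeg] at h3
    have h4 : Module.finrank k (LL (E₁ + F)) ≤ n + l := by
      have : (Module.finrank k (LL (E₁ + F)) : ℤ) ≤ n + l := h3
      exact_mod_cast this
    have h5 : ((Eff G n).filter fun E => E - (E₁ + F) ∈ Prin k K).card ≤
        {E : Place k K →₀ ℤ | 0 ≤ E ∧ E - (E₁ + F) ∈ Prin k K}.ncard := by
      rw [← Set.ncard_coe_finset]
      apply Set.ncard_le_ncard _ h1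
      intro E hE
      rw [Finset.mem_coe, Finset.mem_filter, mem_Eff] at hE
      exact ⟨hE.1.1, hE.2⟩
    calc _ ≤ _ := h5
      _ ≤ _ := h2
      _ ≤ Nat.card k ^ (n + l) := Nat.pow_le_pow_right Nat.card_pos h4
  calc (Eff G n).card ≤ _ := Finset.card_le_card hsub
    _ ≤ hR.toFinset.card * Nat.card k ^ (n + l) := Finset.card_biUnion_le_card_mul _ _ _ hone
    _ = hR.toFinset.card * Nat.card k ^ l * Nat.card k ^ n := by rw [pow_add]; ring

/-- The lower bound: `#Eff (m j) ≥ q ^ (m j) / B` for large `j`, `m` the degree of a place. -/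
theorem le_card_Eff : ∃ m B j₀ : ℕ, 0 < m ∧ 0 < B ∧ ∀ j : ℕ, j₀ ≤ j →
    Nat.card k ^ (m * j) ≤ B * (Eff G (m * j : ℕ)).card := by
  classical
  obtain ⟨w₀⟩ := exists_place_geo G
  obtain ⟨c, C, hc⟩ := riemann_eq G
  set l := Module.finrank k (LL (0 : Place k K →₀ ℤ)) with hl
  set m := w₀.degree with hm
  have hm0 : 0 < m := G.degree_pos w₀
  have hq : 2 ≤ Nat.card k := Finite.one_lt_card
  refine ⟨m, 2 * Nat.card k ^ (l + c.natAbs), c.natAbs + 1, hm0, by positivity, fun j hj => ?_⟩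
  have hdeg : degD (Finsupp.single w₀ (j : ℤ)) = (m * j : ℕ) := by
    rw [degD_single]
    push_cast
    ring
  obtain ⟨h1, _, h3⟩ := card_class_le G (Finsupp.single w₀ (j : ℤ))
  have h4 := (hc (Finsupp.single w₀ (j : ℤ))).1
  rw [hdeg] at h4
  set L := Module.finrank k (LL (Finsupp.single w₀ (j : ℤ))) with hL
  have h5 : {E : Place k K →₀ ℤ | 0 ≤ E ∧ E - Finsupp.single w₀ (j : ℤ) ∈ Prin k K}.ncard ≤
      (Eff G (m * j : ℕ)).card := by
    rw [← Set.ncard_coe_finset]
    apply Set.ncard_le_ncard _ (Finset.finite_toSet _)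
    intro E hE
    rw [Finset.mem_coe, mem_Eff]
    exact ⟨hE.1, by rw [degD_congr G hE.2, hdeg]⟩
  have h6 : m * j ≤ L + c.natAbs := by
    have h7 := Int.natAbs_neg c
    have h8 : -c ≤ c.natAbs := by omega
    omega
  have hL1 : 1 ≤ L := by
    have : j ≤ m * j := Nat.le_mul_of_pos_left _ hm0
    omega
  have h9 : 2 ≤ Nat.card k ^ L := by
    calc 2 = 2 ^ 1 := rfl
      _ ≤ Nat.card k ^ 1 := Nat.pow_le_pow_left hq 1
      _ ≤ Nat.card k ^ L := Nat.pow_le_pow_right (by omega) hL1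
  set N := (Eff G (m * j : ℕ)).card
  have h10 : Nat.card k ^ L ≤ N * Nat.card k ^ l + 1 :=
    h3.trans (Nat.add_le_add_right (Nat.mul_le_mul_right _ h5) 1)
  have h11 : Nat.card k ^ L ≤ 2 * (N * Nat.card k ^ l) := by omega
  calc Nat.card k ^ (m * j) ≤ Nat.card k ^ (L + c.natAbs) := Nat.pow_le_pow_right (by omega) h6
    _ = Nat.card k ^ L * Nat.card k ^ c.natAbs := pow_add _ _ _
    _ ≤ 2 * (N * Nat.card k ^ l) * Nat.card k ^ c.natAbs := Nat.mul_le_mul_right _ h11
    _ = 2 * Nat.card k ^ (l + c.natAbs) * N := by rw [pow_add]; ring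

end bounds

section contra

variable {k K L : Type} [Field k] [Finite k] [Field K] [Algebra k K] [Field L] [Algebra k L]

/-- There are no two injections `u₁`, `u₂` with disjoint images of the set of places of `K` into that of
`L` which preserve the degrees. -/
theorem no_split (G : Geo k K) (G' : Geo k L) (u₁ u₂ : Place k K → Place k L)
    (h1 : Function.Injective u₁) (h2 : Function.Injective u₂) (hd : ∀ w w', u₁ w ≠ u₂ w')
    (d1 : ∀ w, (u₁ w).degree = w.degree) (d2 : ∀ w, (u₂ w).degree = w.degree) : False := by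
  classical
  obtain ⟨B, hB⟩ := card_Eff_le G'
  obtain ⟨m, A, j₀, hm, hA, hlow⟩ := le_card_Eff G
  set q := Nat.card k with hq
  have hq0 : 0 < q := Nat.card_pos
  -- the map
  have hdeg : ∀ (u : Place k K → Place k L) (hu : ∀ w, (u w).degree = w.degree)
      (D : Place k K →₀ ℤ), degD (D.mapDomain u) = degD D := by
    intro u hu D
    unfold degD
    rw [Finsupp.sum_mapDomain_index (fun w => mul_zero _) (fun w a b => mul_add _ _ _)]
    refine Finsupp.sum_congr fun w _ => ?_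
    rw [hu w]
  have hpos : ∀ (u : Place k K → Place k L) (hu : Function.Injective u) (D : Place k K →₀ ℤ),
      0 ≤ D → 0 ≤ D.mapDomain u := by
    intro u hu D hD v
    by_cases hv : v ∈ Set.range u
    · obtain ⟨w, rfl⟩ := hv
      rw [Finsupp.mapDomain_apply hu]
      exact hD w
    · rw [Finsupp.mapDomain_of_notMem_range _ _ hv]
      rfl
  let Φ : (Place k K →₀ ℤ) × (Place k K →₀ ℤ) → (Place k L →₀ ℤ) := fun p =>
    p.1.mapDomain u₁ + p.2.mapDomain u₂
  have hΦ1 : ∀ p w, Φ p (u₁ w) = p.1 w := by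
    intro p w
    change (p.1.mapDomain u₁ + p.2.mapDomain u₂) (u₁ w) = p.1 w
    rw [Finsupp.add_apply, Finsupp.mapDomain_apply h1, Finsupp.mapDomain_of_notMem_range _ _ (by
      rintro ⟨w', hw'⟩
      exact hd w w' hw'.symm), add_zero]
  have hΦ2 : ∀ p w, Φ p (u₂ w) = p.2 w := by
    intro p w
    change (p.1.mapDomain u₁ + p.2.mapDomain u₂) (u₂ w) = p.2 w
    rw [Finsupp.add_apply, Finsupp.mapDomain_apply h2, Finsupp.mapDomain_of_notMem_range _ _ (by
      rintro ⟨w', hw'⟩
      exact hd w' w hw'), zero_add]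
  have hΦinj : Function.Injective Φ := by
    intro p p' h
    refine Prod.ext ?_ ?_
    · ext w
      rw [← hΦ1 p w, ← hΦ1 p' w, h]
    · ext w
      rw [← hΦ2 p w, ← hΦ2 p' w, h]
  -- the count
  have hcount : ∀ J : ℕ, ∑ j ∈ Finset.range (J + 1), (Eff G (m * j : ℕ)).card *
      (Eff G (m * (J - j) : ℕ)).card ≤ (Eff G' (m * J : ℕ)).card := by
    intro J
    have h3 : ∑ j ∈ Finset.range (J + 1), (Eff G (m * j : ℕ)).card *
        (Eff G (m * (J - j) : ℕ)).card = ((Finset.range (J + 1)).biUnion fun j =>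
          (Eff G (m * j : ℕ)) ×ˢ (Eff G (m * (J - j) : ℕ))).card := by
      rw [Finset.card_biUnion]
      · refine Finset.sum_congr rfl fun j _ => ?_
        rw [Finset.card_product]
      · intro j _ j' _ hjj
        rw [Function.onFun, Finset.disjoint_left]
        rintro ⟨E, E'⟩ hE hE'
        rw [Finset.mem_product, mem_Eff, mem_Eff] at hE hE'
        apply hjj
        have h4 : ((m * j : ℕ) : ℤ) = (m * j' : ℕ) := by
          rw [← hE.1.2, ← hE'.1.2]
        have h5 : m * j = m * j' := by exact_mod_cast h4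
        exact Nat.eq_of_mul_eq_mul_left hm h5
    rw [h3]
    refine Finset.card_le_card_of_injOn Φ ?_ hΦinj.injOn
    rintro ⟨E, E'⟩ hE
    rw [Finset.mem_coe, Finset.mem_biUnion] at hE
    obtain ⟨j, hj, hE⟩ := hE
    rw [Finset.mem_product, mem_Eff, mem_Eff] at hE
    rw [Finset.mem_coe, mem_Eff]
    refine ⟨add_nonneg (hpos u₁ h1 E hE.1.1) (hpos u₂ h2 E' hE.2.1), ?_⟩
    change degD (E.mapDomain u₁ + E'.mapDomain u₂) = _
    rw [degD_add, hdeg u₁ d1, hdeg u₂ d2]
    have h6 := hE.1.2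
    have h7 := hE.2.2
    have h8 : degD E = _ := h6
    have h9 : degD E' = _ := h7
    rw [h8, h9]
    rw [Finset.mem_range] at hj
    have h10 : m * j + m * (J - j) = m * J := by
      rw [← mul_add, Nat.add_sub_cancel' (by omega)]
    exact_mod_cast h10
  -- contradiction
  have hfin : ∀ J : ℕ, J + 1 ≤ A * A * B + 2 * j₀ := by
    intro J
    by_contra hJ
    rw [not_le] at hJ
    have h3 : (Finset.Icc j₀ (J - j₀)).card • (q ^ (m * J)) ≤ ∑ j ∈ Finset.Icc j₀ (J - j₀),
        A * A * ((Eff G (m * j : ℕ)).card * (Eff G (m * (J - j) : ℕ)).card) := by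
      refine Finset.card_nsmul_le_sum _ _ _ fun j hj => ?_
      rw [Finset.mem_Icc] at hj
      have h4 := hlow j hj.1
      have h5 := hlow (J - j) (by omega)
      have h6 : m * J = m * j + m * (J - j) := by
        rw [← mul_add, Nat.add_sub_cancel' (by omega)]
      calc q ^ (m * J) = q ^ (m * j) * q ^ (m * (J - j)) := by rw [h6, pow_add]
        _ ≤ (A * (Eff G (m * j : ℕ)).card) * (A * (Eff G (m * (J - j) : ℕ)).card) :=
          Nat.mul_le_mul h4 h5
        _ = A * A * ((Eff G (m * j : ℕ)).card * (Eff G (m * (J - j) : ℕ)).card) := by ring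
    rw [← Finset.mul_sum] at h3
    have h7 : ∑ j ∈ Finset.Icc j₀ (J - j₀), (Eff G (m * j : ℕ)).card *
        (Eff G (m * (J - j) : ℕ)).card ≤ ∑ j ∈ Finset.range (J + 1), (Eff G (m * j : ℕ)).card *
        (Eff G (m * (J - j) : ℕ)).card := by
      refine Finset.sum_le_sum_of_subset fun j hj => ?_
      rw [Finset.mem_Icc] at hj
      rw [Finset.mem_range]
      omega
    have h8 := hB (m * J)
    have h9 : (Finset.Icc j₀ (J - j₀)).card • (q ^ (m * J)) ≤ A * A * (B * q ^ (m * J)) :=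
      h3.trans (Nat.mul_le_mul_left _ ((h7.trans (hcount J)).trans h8))
    rw [smul_eq_mul, ← mul_assoc] at h9
    have h10 := Nat.le_of_mul_le_mul_right h9 (pow_pos hq0 _)
    rw [Nat.card_Icc] at h10
    omega
  have h := hfin (A * A * B + 2 * j₀)
  omega

end contra

end Pool.Agent.GBU
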