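import Pool.Agent.Lib.GBU.Split
import Pool.Agent.Lib.GBU.Zeta
import Pool.Agent.Lib.GBC.E.Main
import Pool.Agent.Lib.GBU.Even

/-!
Block GBU: an element of `K` which is a square in all completions is a square.
-/

set_option autoImplicit false

open IsLocalRing Polynomial

namespace Pool.Agent.GBU

open Pool.Agent.BSDFF Pool.Agent.GBC Pool.Agent.Lib.SmD

private theorem place_ext {k K : Type} [Field k] [Field K] [Algebra k K] {v w : Place k K}
    (h : v.ring = w.ring) : v = w := by
  obtain ⟨r, c, d⟩ := v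
  obtain ⟨r', c', d'⟩ := w
  obtain rfl : r = r' := h
  rfl

section two

variable {k K : Type} [Field k] [Field K] [Algebra k K] (a : K)
  [Fact (Irreducible (X ^ 2 - C a : K[X]))]

private theorem root_sq : (AdjoinRoot.root (X ^ 2 - C a : K[X])) ^ 2 =
    algebraMap K (AdjoinRoot (X ^ 2 - C a : K[X])) a := by
  have h := AdjoinRoot.eval₂_root (X ^ 2 - C a : K[X])
  rw [eval₂_sub, eval₂_X_pow, eval₂_C, sub_eq_zero] at h
  exact h

/-- The two places above a place where `a` is a square. -/
private theorem two_places (w : Place k K) (A : BSDK.LocAt w)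
    (hfin : Finite (ResidueField w.ring)) (hsq : IsSquare (w.toCompletion a)) :
    ∃ v₁ v₂ : Place k (AdjoinRoot (X ^ 2 - C a : K[X])), v₁ ≠ v₂ ∧ v₁.degree = w.degree ∧
      v₂.degree = w.degree ∧
      (∀ x : K, algebraMap K _ x ∈ v₁.ring ↔ x ∈ w.ring) ∧
      (∀ x : K, algebraMap K _ x ∈ v₂.ring ↔ x ∈ w.ring) := by
  obtain ⟨β, hβ⟩ := hsq
  have ha0 : a ≠ 0 := by
    rintro rfl
    have h := (Fact.out : Irreducible (X ^ 2 - C (0 : K) : K[X]))
    rw [C_0, sub_zero] at h
    exact (Irreducible.not_isUnit h) (by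
      have := h.isUnit_or_isUnit (sq X)
      rcases this with h | h
      · rw [sq]; exact h.mul h
      · rw [sq]; exact h.mul h)
  have hβ0 : β ≠ 0 := by
    rintro rfl
    rw [mul_zero] at hβ
    exact (_root_.map_ne_zero w.toCompletion).2 ha0 hβ
  have e1 : eval₂ w.toCompletion β (X ^ 2 - C a : K[X]) = 0 := by
    rw [eval₂_sub, eval₂_X_pow, eval₂_C, hβ]
    ring
  have e2 : eval₂ w.toCompletion (-β) (X ^ 2 - C a : K[X]) = 0 := by
    rw [eval₂_sub, eval₂_X_pow, eval₂_C, hβ]
    ring
  let ι₁ := AdjoinRoot.lift w.toCompletion β e1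
  let ι₂ := AdjoinRoot.lift w.toCompletion (-β) e2
  have hι₁ : ∀ x : K, ι₁ (algebraMap K _ x) = w.toCompletion x := fun x =>
    AdjoinRoot.lift_of e1
  have hι₂ : ∀ x : K, ι₂ (algebraMap K _ x) = w.toCompletion x := fun x =>
    AdjoinRoot.lift_of e2
  obtain ⟨v₁, m₁, d₁⟩ := exists_pull w A ι₁ hι₁ hfin
  obtain ⟨v₂, m₂, d₂⟩ := exists_pull w A ι₂ hι₂ hfin
  refine ⟨v₁, v₂, ?_, d₁, d₂, fun x => ?_, fun x => ?_⟩
  · intro h
    obtain ⟨b, hb0, hb1, hb2⟩ := exists_val_eq w A hβ0
    set s := AdjoinRoot.root (X ^ 2 - C a : K[X]) with hs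
    have hs1 : ι₁ s = β := AdjoinRoot.lift_root e1
    have hs2 : ι₂ s = -β := AdjoinRoot.lift_root e2
    -- `z = b / (s - b)`
    have hβv : A.O.valuation β ≠ 0 := (Valuation.ne_zero_iff _).2 hβ0
    have k1 : A.O.valuation (β - w.toCompletion b) < A.O.valuation β := hb1
    have hsb : s - algebraMap K _ b ≠ 0 := by
      intro h0
      have h3 := congrArg ι₂ h0
      rw [map_sub, hs2, hι₂, map_zero] at h3
      -- `-β = b`
      have h4 : w.toCompletion b = -β := by
        linear_combination -h3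
      rw [h4] at k1
      have h5 : β - -β = 2 * β := by ring
      rw [h5, map_mul, A.two, one_mul] at k1
      exact lt_irrefl _ k1
    have hval2 : A.O.valuation (ι₂ (s - algebraMap K _ b)) = A.O.valuation β := by
      rw [map_sub, hs2, hι₂]
      have h5 : -β - w.toCompletion b = -(2 * β) + (β - w.toCompletion b) := by ring
      rw [h5]
      have h6 : A.O.valuation (-(2 * β)) = A.O.valuation β := by
        rw [Valuation.map_neg, map_mul, A.two, one_mul]
      rw [Valuation.map_add_eq_of_lt_left _ (by rw [h6]; exact k1), h6]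
    have hz2 : algebraMap K _ b / (s - algebraMap K _ b) ∈ v₂.ring := by
      rw [m₂, map_div₀, hι₂, ← ValuationSubring.valuation_le_one_iff, map_div₀, hval2, hb2,
        div_self hβv]
    have hz1 : algebraMap K _ b / (s - algebraMap K _ b) ∉ v₁.ring := by
      rw [m₁, map_div₀, hι₁, map_sub, hs1, hι₁, ← ValuationSubring.valuation_le_one_iff, map_div₀,
        hb2, not_le]
      have h7 : A.O.valuation (β - w.toCompletion b) ≠ 0 := by
        rw [Valuation.ne_zero_iff]
        have h8 := (_root_.map_ne_zero ι₁).2 hsb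
        rw [map_sub, hs1, hι₁] at h8
        exact h8
      rw [one_lt_div₀ (zero_lt_iff.2 h7)]
      exact k1
    rw [h] at hz1
    exact hz1 hz2
  · rw [m₁, hι₁, A.mem_iff]
  · rw [m₂, hι₂, A.mem_iff]

end two

section rat

variable {k K : Type} [Field k] [Finite k] [Field K] [Algebra k K] [Algebra (RatFunc k) K]
  [IsScalarTower k (RatFunc k) K] [FiniteDimensional (RatFunc k) K]
  [Algebra.IsSeparable (RatFunc k) K]

/-- A square in all completions is a square. -/
theorem isSquare_of_local_all (h2 : (2 : k) ≠ 0) (a : K)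
    (h : ∀ w : Place k K, IsSquare (w.toCompletion a)) : IsSquare a := by
  classical
  by_contra hns
  have hirr : Irreducible (X ^ 2 - C a : K[X]) := by
    rw [X_pow_sub_C_irreducible_iff_of_prime Nat.prime_two]
    intro b hb
    exact hns ⟨b, by rw [← hb, sq]⟩
  have : Fact (Irreducible (X ^ 2 - C a : K[X])) := ⟨hirr⟩
  have h2K : (2 : K) ≠ 0 := by
    have h := (_root_.map_ne_zero (algebraMap k K)).2 h2
    rwa [map_ofNat] at h
  have ha0 : a ≠ 0 := by
    rintro rfl
    exact hns ⟨0, by ring⟩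
  let L := AdjoinRoot (X ^ 2 - C a : K[X])
  have hdeg0 : (X ^ 2 - C a : K[X]) ≠ 0 := hirr.ne_zero
  have f1 : FiniteDimensional K L := (AdjoinRoot.powerBasis hdeg0).finite
  have t1 : IsScalarTower k (RatFunc k) L := inferInstance
  have t2 : IsScalarTower (RatFunc k) K L := inferInstance
  have f2 : FiniteDimensional (RatFunc k) L := FiniteDimensional.trans (RatFunc k) K L
  have s1 : Algebra.IsSeparable K L := by
    have h3 : IsSeparable K (AdjoinRoot.root (X ^ 2 - C a : K[X])) := by
      have h4 : (X ^ 2 - C a : K[X]).Separable := separable_X_pow_sub_C a (by exact_mod_cast h2K) ha0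
      refine h4.of_dvd (minpoly.dvd K _ ?_)
      rw [map_sub, map_pow, aeval_X, aeval_C, root_sq, sub_self]
    have h5 := (IntermediateField.isSeparable_adjoin_simple_iff_isSeparable K L).2 h3
    rw [IntermediateField.adjoin_root_eq_top] at h5
    exact ⟨fun x => IntermediateField.isSeparable_of_mem_isSeparable K L (L := ⊤)
      (IntermediateField.mem_top (x := x))⟩
  have s2 : Algebra.IsSeparable (RatFunc k) L := Algebra.IsSeparable.trans (RatFunc k) K L
  obtain ⟨GK, _⟩ := exists_geo k K
  obtain ⟨GL', _⟩ := exists_geo k L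
  have hp : ∀ w : Place k K, ∃ v₁ v₂ : Place k L, v₁ ≠ v₂ ∧ v₁.degree = w.degree ∧
      v₂.degree = w.degree ∧ (∀ x : K, algebraMap K L x ∈ v₁.ring ↔ x ∈ w.ring) ∧
      (∀ x : K, algebraMap K L x ∈ v₂.ring ↔ x ∈ w.ring) := fun w =>
    two_places a w (BSDK.locAt h2 w) (GK.finite_residue w) (h w)
  choose u₁ u₂ hne d₁ d₂ m₁ m₂ using hp
  refine no_split GK GL' u₁ u₂ ?_ ?_ ?_ d₁ d₂
  · intro w w' hw
    apply place_ext
    ext x
    rw [← m₁ w, ← m₁ w', hw]
  · intro w w' hw
    apply place_ext
    ext x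
    rw [← m₂ w, ← m₂ w', hw]
  · intro w w' hw
    have : w = w' := by
      apply place_ext
      ext x
      rw [← m₁ w, ← m₂ w', hw]
    subst this
    exact hne w hw

end rat

end Pool.Agent.GBU
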