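import Pool.Agent.Lib.GBU.Pic
import Mathlib.GroupTheory.IndexNSmul

/-!
Block GBU: the `S`-units modulo squares.
-/

set_option autoImplicit false

namespace Pool.Agent.GBU

open Pool.Agent.BSDFF Pool.Agent.GBC

variable {k K : Type} [Field k] [Field K] [Algebra k K]

/-- `α` of even valuation outside of `S` is an `S`-unit times a square. -/
theorem XS_eq {S : Set (Place k K)} (hf : ∀ x : K, x ≠ 0 → {w : Place k K | ord w x ≠ 0}.Finite)
    (h : PrinOut S) : XS S = SU S ⊔ Sqs K := by
  classical
  apply le_antisymm
  · intro u hu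
    have hfin := hf (u : K) u.ne_zero
    let D : Place k K →₀ ℤ := Finsupp.onFinset hfin.toFinset (fun w => ord w (u : K) / 2)
      fun w hw => by
        rw [Set.Finite.mem_toFinset]
        intro h0
        apply hw
        rw [h0]
        rfl
    obtain ⟨x, hx, hxD⟩ := h D
    have h1 : u = (u * (Units.mk0 x hx ^ 2)⁻¹) * Units.mk0 x hx ^ 2 := by
      rw [inv_mul_cancel_right]
    rw [h1]
    refine Subgroup.mul_mem_sup ?_ ⟨_, rfl⟩
    intro w hw
    rw [Units.val_mul, Units.val_inv_eq_inv_val, Units.val_pow_eq_pow_val, Units.val_mk0,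
      ord_mul w u.ne_zero (inv_ne_zero (pow_ne_zero _ hx)), ord_inv w (pow_ne_zero _ hx),
      ord_pow w hx, hxD w hw]
    have h2 := hu w hw
    have h3 : D w = ord w (u : K) / 2 := rfl
    rw [h3]
    obtain ⟨m, hm⟩ := h2
    push_cast
    omega
  · rw [sup_le_iff]
    constructor
    · intro u hu w hw
      rw [hu w hw]
      exact Even.zero
    · rintro _ ⟨v, rfl⟩ w _
      change Even (ord w ((v ^ 2 : Kˣ) : K))
      rw [Units.val_pow_eq_pow_val, ord_pow w v.ne_zero]
      exact (even_two).mul_right _

/-- The orders at the places of `S`. -/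
noncomputable def ordS (S : Set (Place k K)) : Additive (SU S) →+ (S → ℤ) where
  toFun u := fun w => ord w.1 ((u.toMul : Kˣ) : K)
  map_zero' := by
    ext w
    exact ord_one w.1
  map_add' a b := by
    ext w
    exact ord_mul w.1 (Units.ne_zero _) (Units.ne_zero _)

theorem ordS_apply (S : Set (Place k K)) (u : Additive (SU S)) (w : S) :
    ordS S u w = ord w.1 ((u.toMul : Kˣ) : K) := rfl

/-- The degree. -/
noncomputable def degS (S : Set (Place k K)) [Fintype S] : (S → ℤ) →ₗ[ℤ] ℤ :=
  Fintype.linearCombination ℤ (fun w : S => (w.1.degree : ℤ))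

theorem degS_apply (S : Set (Place k K)) [Fintype S] (f : S → ℤ) :
    degS S f = ∑ w : S, f w * (w.1.degree : ℤ) := by
  unfold degS
  rw [Fintype.linearCombination_apply]
  simp only [smul_eq_mul]

/-- The divisor of a function on `S`. -/
noncomputable def divS (S : Set (Place k K)) [Fintype S] : (S → ℤ) →+ (Place k K →₀ ℤ) where
  toFun f := ∑ w : S, Finsupp.single w.1 (f w)
  map_zero' := by simp
  map_add' f g := by
    rw [← Finset.sum_add_distrib]
    refine Finset.sum_congr rfl fun w _ => ?_
    rw [Pi.add_apply, Finsupp.single_add]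

theorem divS_apply (S : Set (Place k K)) [Fintype S] (f : S → ℤ) (w : S) :
    divS S f w.1 = f w := by
  classical
  change (∑ v : S, Finsupp.single v.1 (f v) : Place k K →₀ ℤ) w.1 = f w
  rw [Finsupp.finsetSum_apply, Finset.sum_eq_single w]
  · rw [Finsupp.single_eq_same]
  · intro v _ hv
    rw [Finsupp.single_eq_of_ne]
    intro h
    exact hv (Subtype.ext h.symm)
  · intro h
    exact absurd (Finset.mem_univ w) h

theorem divS_apply_out (S : Set (Place k K)) [Fintype S] (f : S → ℤ) {w : Place k K} (hw : w ∉ S) :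
    divS S f w = 0 := by
  classical
  change (∑ v : S, Finsupp.single v.1 (f v) : Place k K →₀ ℤ) w = 0
  rw [Finsupp.finsetSum_apply, Finset.sum_eq_zero]
  intro v _
  rw [Finsupp.single_eq_of_ne]
  rintro rfl
  exact hw v.2

theorem degD_divS (S : Set (Place k K)) [Fintype S] (f : S → ℤ) :
    degD (divS S f) = degS S f := by
  change degHom k K (∑ v : S, Finsupp.single v.1 (f v)) = _
  rw [map_sum, degS_apply]
  refine Finset.sum_congr rfl fun w _ => ?_
  rw [degHom_apply, degD_single, mul_comm]

section count

variable (G : Geo k K) (S : Set (Place k K)) [Fintype S]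

/-- The divisors of the `S`-units, as functions on `S`. -/
private theorem mem_range_iff (f : S → ℤ) : f ∈ (ordS S).range ↔ divS S f ∈ Prin k K := by
  constructor
  · rintro ⟨u, rfl⟩
    refine ⟨((u.toMul : Kˣ) : K), Units.ne_zero _, fun w => ?_⟩
    by_cases hw : w ∈ S
    · exact (divS_apply S _ ⟨w, hw⟩).trans (ordS_apply S u ⟨w, hw⟩)
    · rw [divS_apply_out S _ hw]
      exact (u.toMul.2 w hw).symm
  · rintro ⟨x, hx, hxD⟩
    refine ⟨Additive.ofMul ⟨Units.mk0 x hx, fun w hw => ?_⟩, ?_⟩
    · rw [Units.val_mk0, ← hxD w, divS_apply_out S _ hw]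
    · ext w
      rw [ordS_apply]
      change ord w.1 x = f w
      rw [← hxD w.1, divS_apply]

include G

private theorem range_le : (ordS S).range ≤ (LinearMap.ker (degS S)).toAddSubgroup := by
  intro f hf
  rw [Submodule.mem_toAddSubgroup, LinearMap.mem_ker, ← degD_divS]
  exact degD_prin G ((mem_range_iff S f).1 hf)

variable [Finite k]

private theorem relIndex_range :
    (ordS S).range.relIndex (LinearMap.ker (degS S)).toAddSubgroup ≠ 0 := by
  have hfin := finite_pic0 G
  let N := (LinearMap.ker (degS S)).toAddSubgroup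
  let ψ : N →+ ((degHom k K).ker ⧸ (Prin k K).addSubgroupOf (degHom k K).ker) :=
    (QuotientAddGroup.mk' _).comp (((divS S).comp N.subtype).codRestrict (degHom k K).ker
      (fun f => by
        rw [AddMonoidHom.mem_ker]
        change degD (divS S f.1) = 0
        rw [degD_divS]
        exact f.2))
  have hker : ψ.ker = (ordS S).range.addSubgroupOf N := by
    ext f
    rw [AddMonoidHom.mem_ker, AddSubgroup.mem_addSubgroupOf, mem_range_iff]
    change (QuotientAddGroup.mk _ : (degHom k K).ker ⧸ _) = 0 ↔ _
    rw [QuotientAddGroup.eq_zero_iff, AddSubgroup.mem_addSubgroupOf]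
    rfl
  have h1 : (ordS S).range.relIndex N = ψ.ker.index := by rw [hker]; rfl
  rw [h1, AddSubgroup.index_ker]
  have : Finite ψ.range := inferInstance
  exact Nat.card_pos.ne'

omit [Finite k] in
private theorem finrank_ker (hS : S.Nonempty) :
    Module.finrank ℤ (LinearMap.ker (degS S)) + 1 = Fintype.card S := by
  classical
  have h1 := Submodule.finrank_quotient_add_finrank (LinearMap.ker (degS S))
  rw [Module.finrank_fintype_fun_eq_card, (degS S).quotKerEquivRange.finrank_eq] at h1
  obtain ⟨w, hw⟩ := hS
  have h2 : Module.finrank ℤ (LinearMap.range (degS S)) = 1 := by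
    apply le_antisymm
    · have := Submodule.finrank_le (LinearMap.range (degS S))
      rw [Module.finrank_self] at this
      exact this
    · rw [Nat.one_le_iff_ne_zero, ← Nat.pos_iff_ne_zero, Module.finrank_pos_iff]
      refine ⟨⟨degS S (Pi.single ⟨w, hw⟩ 1), ⟨_, rfl⟩⟩, 0, fun h => ?_⟩
      have h3 : degS S (Pi.single ⟨w, hw⟩ 1) = 0 := congrArg Subtype.val h
      rw [degS_apply, Finset.sum_eq_single ⟨w, hw⟩] at h3
      · rw [Pi.single_eq_same, one_mul] at h3
        have := G.degree_pos w
        have h4 : w.degree = 0 := by exact_mod_cast h3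
        omega
      · intro v _ hv
        rw [Pi.single_eq_of_ne hv, zero_mul]
      · intro h
        exact absurd (Finset.mem_univ _) h
  omega

private theorem finrank_range (hS : S.Nonempty) :
    Module.finrank ℤ (ordS S).range + 1 = Fintype.card S := by
  rw [← finrank_ker G S hS]
  congr 1
  have : (ordS S).range.IsFiniteRelIndex (LinearMap.ker (degS S)).toAddSubgroup :=
    ⟨relIndex_range G S⟩
  have h1 : Module.Finite ℤ (LinearMap.ker (degS S)).toAddSubgroup :=
    inferInstanceAs (Module.Finite ℤ (LinearMap.ker (degS S)))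
  have h2 : Module.IsTorsionFree ℤ (LinearMap.ker (degS S)).toAddSubgroup :=
    inferInstanceAs (Module.IsTorsionFree ℤ (LinearMap.ker (degS S)))
  exact AddSubgroup.finrank_eq_of_isFiniteRelIndex (range_le G S)

omit [Fintype S] in
private theorem finite_mu : Finite (ordS S).ker := by
  have h1 := LL_finite G (0 : Place k K →₀ ℤ)
  have h2 : Finite (LL (0 : Place k K →₀ ℤ)) := Module.finite_of_finite k
  refine Finite.of_injective (β := LL (0 : Place k K →₀ ℤ))
    (fun u => ⟨(((u : Additive (SU S)).toMul : Kˣ) : K), ?_⟩) ?_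
  · refine Or.inr fun w => ?_
    rw [Finsupp.zero_apply, neg_zero]
    by_cases hw : w ∈ S
    · have h3 := congrFun u.2 ⟨w, hw⟩
      rw [ordS_apply] at h3
      exact h3.ge
    · exact (u.1.toMul.2 w hw).ge
  · intro u v h
    apply Subtype.ext
    apply Additive.toMul.injective
    apply Subtype.ext
    apply Units.ext
    exact congrArg (fun x : LL (0 : Place k K →₀ ℤ) => (x : K)) h

omit [Fintype S] in
private theorem card_mu (h2 : (2 : k) ≠ 0) :
    (nsmulAddMonoidHom (α := Additive (SU S)) 2).range.relIndex (ordS S).ker = 2 := by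
  classical
  have hfin := finite_mu G S
  have h2K : (2 : K) ≠ 0 := by
    have h := (map_ne_zero (algebraMap k K)).2 h2
    rwa [map_ofNat] at h
  have hsub : (nsmulAddMonoidHom (α := Additive (SU S)) 2).range.addSubgroupOf (ordS S).ker =
      (nsmulAddMonoidHom (α := (ordS S).ker) 2).range := by
    ext u
    rw [AddSubgroup.mem_addSubgroupOf]
    constructor
    · rintro ⟨v, hv⟩
      have hv' : (2 : ℕ) • v = (u : Additive (SU S)) := hv
      have hvk : v ∈ (ordS S).ker := by
        rw [AddMonoidHom.mem_ker]
        have h3 := u.2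
        rw [AddMonoidHom.mem_ker, ← hv', map_nsmul] at h3
        ext w
        have h4 := congrFun h3 w
        rw [Pi.smul_apply, nsmul_eq_mul, Pi.zero_apply] at h4
        rw [Pi.zero_apply]
        simpa using h4
      exact ⟨⟨v, hvk⟩, Subtype.ext hv'⟩
    · rintro ⟨v, rfl⟩
      exact ⟨v.1, rfl⟩
  have h3 : (nsmulAddMonoidHom (α := Additive (SU S)) 2).range.relIndex (ordS S).ker =
      (nsmulAddMonoidHom (α := (ordS S).ker) 2).range.index := by
    rw [← hsub]
    rfl
  rw [h3]
  have h4 := AddSubgroup.card_mul_index (nsmulAddMonoidHom (α := (ordS S).ker) 2).range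
  have h5 := AddSubgroup.card_mul_index (nsmulAddMonoidHom (α := (ordS S).ker) 2).ker
  rw [AddSubgroup.index_ker] at h5
  have h6 : 0 < Nat.card (nsmulAddMonoidHom (α := (ordS S).ker) 2).range := Nat.card_pos
  have h7 : (nsmulAddMonoidHom (α := (ordS S).ker) 2).range.index =
      Nat.card (nsmulAddMonoidHom (α := (ordS S).ker) 2).ker := by
    apply Nat.eq_of_mul_eq_mul_left h6
    rw [h4, ← h5, mul_comm]
  rw [h7]
  -- the elements `1`, `-1`
  have hneg : (-1 : Kˣ) ∈ SU S := fun w _ => by
    rw [Units.val_neg, Units.val_one, ord_neg, ord_one]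
  let m : Additive (SU S) := Additive.ofMul ⟨-1, hneg⟩
  have hmk : m ∈ (ordS S).ker := by
    rw [AddMonoidHom.mem_ker]
    ext w
    rw [ordS_apply]
    change ord w.1 ((-1 : Kˣ) : K) = 0
    rw [Units.val_neg, Units.val_one, ord_neg, ord_one]
  let m' : (ordS S).ker := ⟨m, hmk⟩
  have hm'0 : m' ≠ 0 := by
    intro h
    have h8 : (((m' : Additive (SU S)).toMul : Kˣ) : K) = 1 := by
      rw [h]
      rfl
    have h9 : (-1 : K) = 1 := h8
    apply h2K
    linear_combination -h9
  have hker : ∀ u : (ordS S).ker, u ∈ (nsmulAddMonoidHom (α := (ordS S).ker) 2).ker ↔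
      u = 0 ∨ u = m' := by
    intro u
    rw [AddMonoidHom.mem_ker]
    constructor
    · intro h
      have h8 : (((u : Additive (SU S)).toMul : Kˣ) : K) ^ 2 = 1 := by
        have h9 : (2 : ℕ) • u = 0 := h
        have h10 : ((((2 : ℕ) • u : (ordS S).ker) : Additive (SU S)).toMul : Kˣ) = 1 := by
          rw [h9]
          rfl
        have h11 : ((((2 : ℕ) • u : (ordS S).ker) : Additive (SU S)).toMul : Kˣ) =
          (((u : Additive (SU S)).toMul : Kˣ)) ^ 2 := rfl
        rw [h11] at h10
        rw [← Units.val_pow_eq_pow_val, h10, Units.val_one]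
      rcases sq_eq_one_iff.1 h8 with h | h
      · left
        apply Subtype.ext
        apply Additive.toMul.injective
        apply Subtype.ext
        apply Units.ext
        exact h
      · right
        apply Subtype.ext
        apply Additive.toMul.injective
        apply Subtype.ext
        apply Units.ext
        exact h
    · rintro (rfl | rfl)
      · exact map_zero _
      · apply Subtype.ext
        apply Additive.toMul.injective
        apply Subtype.ext
        apply Units.ext
        change ((-1 : K)) ^ 2 = 1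
        norm_num
  have e : (nsmulAddMonoidHom (α := (ordS S).ker) 2).ker ≃ Bool :=
    { toFun := fun u => if u.1 = 0 then true else false
      invFun := fun b => if b then ⟨0, (hker 0).2 (Or.inl rfl)⟩ else ⟨m', (hker m').2 (Or.inr rfl)⟩
      left_inv := fun u => by
        rcases (hker u.1).1 u.2 with h | h
        · simp only [h, if_true]
          exact Subtype.ext h.symm
        · have h0 : u.1 ≠ 0 := by
            rw [h]
            exact hm'0
          simp only [h0, if_false]
          exact Subtype.ext h.symm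
      right_inv := fun b => by
        rcases b with _ | _
        · simp [hm'0]
        · simp }
  rw [Nat.card_congr e]
  simp

/-- U2 for the `S`-units, additive form -/
private theorem index_units (h2 : (2 : k) ≠ 0) (hS : S.Nonempty) :
    (nsmulAddMonoidHom (α := Additive (SU S)) 2).range.index = 2 ^ Fintype.card S := by
  set P := (nsmulAddMonoidHom (α := Additive (SU S)) 2).range with hP
  have h1 : P ≤ (ordS S).ker ⊔ P := le_sup_right
  have h3 := AddSubgroup.relIndex_mul_index h1
  have h4 : P.relIndex ((ordS S).ker ⊔ P) = 2 := by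
    rw [AddSubgroup.relIndex_sup_right]
    exact card_mu G S h2
  have h5 : ((ordS S).ker ⊔ P).index = 2 ^ Module.finrank ℤ (ordS S).range := by
    have e1 : (ordS S).ker ⊔ P = (P.map (ordS S)).comap (ordS S) := by
      rw [AddSubgroup.comap_map_eq, sup_comm]
    rw [e1, AddSubgroup.index_comap]
    have e2 : P.map (ordS S) = (ordS S).range.map (nsmulAddMonoidHom (α := S → ℤ) 2) := by
      ext f
      constructor
      · rintro ⟨_, ⟨u, rfl⟩, rfl⟩
        refine ⟨ordS S u, ⟨u, rfl⟩, ?_⟩
        exact (map_nsmul (ordS S) 2 u).symm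
      · rintro ⟨_, ⟨u, rfl⟩, rfl⟩
        refine ⟨(2 : ℕ) • u, ⟨u, rfl⟩, ?_⟩
        exact map_nsmul (ordS S) 2 u
    rw [e2]
    exact AddSubgroup.relIndex_map_nsmul 2 (ordS S).range
  rw [h4, h5] at h3
  rw [← h3, ← finrank_range G S hS, pow_succ, mul_comm]

end count

section final

variable (G : Geo k K) [Finite k]

include G

/-- U2 for the units -/
theorem card_SU (h2 : (2 : k) ≠ 0) {S : Set (Place k K)} (hf : S.Finite) (hS : S.Nonempty) :
    (Sqs K).relIndex (SU S) = 2 ^ S.ncard := by
  have : Fintype S := hf.fintype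
  have h1 := index_units G S h2 hS
  have h3 : Subgroup.toAddSubgroup ((Sqs K).subgroupOf (SU S)) =
      (nsmulAddMonoidHom (α := Additive (SU S)) 2).range := by
    ext u
    constructor
    · rintro ⟨v, hv⟩
      have hv' : v ^ 2 = (u.toMul : Kˣ) := hv
      refine ⟨Additive.ofMul ⟨v, fun w hw => ?_⟩, ?_⟩
      · have h4 := u.toMul.2 w hw
        have h5 : ord w ((u.toMul : Kˣ) : K) = 2 * ord w (v : K) := by
          rw [← hv', Units.val_pow_eq_pow_val, ord_pow w v.ne_zero]
          rfl
        have h6 : ord w ((u.toMul : Kˣ) : K) = 0 := h4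
        omega
      · apply Additive.toMul.injective
        apply Subtype.ext
        exact hv'
    · rintro ⟨v, rfl⟩
      exact ⟨(v.toMul : Kˣ), rfl⟩
  have h4 : (Sqs K).relIndex (SU S) = ((Sqs K).subgroupOf (SU S)).index := rfl
  rw [h4, ← Subgroup.index_toAddSubgroup, h3, h1, ← Nat.card_eq_fintype_card]
  rfl

/-- U2 -/
theorem card_XS (h2 : (2 : k) ≠ 0) {S : Set (Place k K)} (hf : S.Finite) (hS : S.Nonempty)
    (h : PrinOut S) : Nat.card (XS S ⧸ (Sqs K).subgroupOf (XS S)) = 2 ^ S.ncard := by
  have h1 : Nat.card (XS S ⧸ (Sqs K).subgroupOf (XS S)) = (Sqs K).relIndex (XS S) := rfl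
  rw [h1, XS_eq (fun x hx => ord_finite G hx) h, Subgroup.relIndex_sup_right]
  exact card_SU G h2 hf hS

end final

end Pool.Agent.GBU
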