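import Pool.Agent.Lib.GBU.Cls
import Pool.Agent.Lib.GBU.SqW
import Pool.Agent.Lib.GBU.Unit

/-!
Block GBU: local squares, the image of `X_S` in the local square classes is its own orthogonal
complement.
-/

set_option autoImplicit false

open IsLocalRing

namespace Pool.Agent.GBU

open Pool.Agent.BSDFF Pool.Agent.GBC Pool.Agent.GBR Pool.Agent.BSDP.R

section rat

variable {k K : Type} [Field k] [Finite k] [Field K] [Algebra k K] [Algebra (RatFunc k) K]
  [IsScalarTower k (RatFunc k) K] [FiniteDimensional (RatFunc k) K]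
  [Algebra.IsSeparable (RatFunc k) K]

/-- If the bad places are in `{w}` then there are none. -/
private theorem good_of_subset (h2 : (2 : k) ≠ 0) {a b : K} (ha : a ≠ 0) (hb : b ≠ 0)
    (w : Place k K) (h : ∀ v : Place k K, v ≠ w → Iso2 v a b) : Iso2 w a b :=
  recip2 h2 (fun w => BSDK.locAt h2 w) (sepB_ratFunc (k := k) (K := K)) ha hb w h

omit [Algebra.IsSeparable (RatFunc k) K] in
/-- local squares -/
theorem iso2_of_sq (h2 : (2 : k) ≠ 0) (w : Place k K) {a b : K} (ha : a ≠ 0) (hb : b ≠ 0)
    (h : IsSquare (w.toCompletion a)) : Iso2 w a b := by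
  have A := BSDK.locAt h2 w
  rw [iso2_iff w A ha hb]
  obtain ⟨h3, h4⟩ := (sq_iff w A ha).1 h
  rw [h3, h4]
  unfold sym
  simp

/-- U3: injectivity on `X_S`. -/
theorem isSquare_of_localS (h2 : (2 : k) ≠ 0) {S : Set (Place k K)} (_hf : S.Finite)
    (hS : PrinOut S) (u : Kˣ)
    (hu : u ∈ XS S) (h : ∀ w ∈ S, IsSquare (w.toCompletion (u : K))) : IsSquare (u : K) := by
  classical
  refine isSquare_of_local_all h2 (u : K) fun w => ?_
  by_cases hw : w ∈ S
  · exact h w hw
  obtain ⟨b, hb, hbw⟩ := hS (Finsupp.single w 1)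
  have hbw1 : ord w b = 1 := by rw [hbw w hw, Finsupp.single_eq_same]
  have hiso : Iso2 w (u : K) b := by
    refine good_of_subset h2 u.ne_zero hb w fun v hv => ?_
    by_cases hvS : v ∈ S
    · exact iso2_of_sq h2 v u.ne_zero hb (h v hvS)
    · refine iso2_evenU v (BSDK.locAt h2 v) u.ne_zero hb (hu v hvS) ?_
      rw [hbw v hvS, Finsupp.single_eq_of_ne hv]
      exact Even.zero
  refine (iso2_odd_right w (BSDK.locAt h2 w) u.ne_zero hb (hu w hw) ?_).1 hiso
  rw [hbw1]
  decide

/-- U3: an element which is a square in almost all completions is a square. -/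
theorem isSquare_of_local (h2 : (2 : k) ≠ 0) (T : Set (Place k K)) (hT : T.Finite) (a : K)
    (h : ∀ w : Place k K, w ∉ T → IsSquare (w.toCompletion a)) : IsSquare a := by
  classical
  by_cases ha : a = 0
  · rw [ha]
    exact ⟨0, by ring⟩
  refine isSquare_of_local_all h2 a fun w => ?_
  by_cases hw : w ∈ T
  · have A := BSDK.locAt h2 w
    rw [← pr_eq_zero w A ha]
    have key : ∀ x : ZMod 2 × ZMod 2, sym (phv w (-1)) (pr w a) x = 0 := by
      intro x
      obtain ⟨b, hb, hbx⟩ := exists_prs (fun v : Place k K => BSDK.locAt h2 v) hT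
        (fun v => if v = w then x else 0)
      have h1 : pr w b = x := by rw [hbx w hw, if_pos rfl]
      have hiso : Iso2 w a b := by
        refine good_of_subset h2 ha hb w fun v hv => ?_
        by_cases hvT : v ∈ T
        · rw [iso2_swap]
          refine iso2_of_sq h2 v hb ha ?_
          rw [← pr_eq_zero v (BSDK.locAt h2 v) hb, hbx v hvT, if_neg hv]
        · exact iso2_of_sq h2 v ha hb (h v hvT)
      have h3 := (iso2_iff w A ha hb).1 hiso
      rw [← h1]
      exact h3
    have k1 := key (1, 0)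
    have k2 := key (0, 1)
    unfold sym at k1 k2
    simp only [mul_zero, mul_one, zero_add, add_zero] at k1 k2
    refine Prod.ext k2 ?_
    rw [k2] at k1
    simpa using k1
  · exact h w hw

/-- Reciprocity as a sum of symbols. -/
theorem sum_sym (h2 : (2 : k) ≠ 0) (S : Finset (Place k K)) {a b : K} (ha : a ≠ 0) (hb : b ≠ 0)
    (h : ∀ w ∉ S, Iso2 w a b) : ∑ w ∈ S, sym (phv w (-1)) (pr w a) (pr w b) = 0 := by
  classical
  obtain ⟨hfin, heven⟩ := even_bad h2 ha hb
  have h1 : ∀ w ∈ S, sym (phv w (-1)) (pr w a) (pr w b) = if ¬ Iso2 w a b then 1 else 0 := by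
    intro w _
    have h3 := iso2_iff w (BSDK.locAt h2 w) ha hb
    change Iso2 w a b ↔ sym (phv w (-1)) (pr w a) (pr w b) = 0 at h3
    rw [h3]
    generalize sym (phv w (-1)) (pr w a) (pr w b) = y
    by_cases hy : y = 0
    · rw [if_neg (not_not.2 hy), hy]
    · rw [if_pos hy]
      revert hy
      revert y
      decide
  rw [Finset.sum_congr rfl h1, Finset.sum_ite, Finset.sum_const_zero, add_zero, Finset.sum_const,
    nsmul_one]
  have h4 : {v : Place k K | ¬ Iso2 v a b} = ((S.filter fun w => ¬ Iso2 w a b : Finset _) :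
      Set (Place k K)) := by
    ext v
    rw [Finset.coe_filter]
    constructor
    · intro hv
      refine ⟨?_, hv⟩
      by_contra hvS
      exact hv (h v hvS)
    · exact fun hv => hv.2
  rw [h4, Set.ncard_coe_finset] at heven
  rw [ZMod.natCast_eq_zero_iff]
  exact heven.two_dvd

end rat

/-! ### The local space -/

section space

variable {ι : Type} [Fintype ι]

/-- The form on the local space. -/
noncomputable def locForm (e : ι → ZMod 2) :
    LinearMap.BilinForm (ZMod 2) (ι → ZMod 2 × ZMod 2) :=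
  LinearMap.mk₂ (ZMod 2) (fun x y => ∑ i, sym (e i) (x i) (y i))
    (fun x x' y => by
      rw [← Finset.sum_add_distrib]
      refine Finset.sum_congr rfl fun i _ => ?_
      simp only [sym, Pi.add_apply, Prod.fst_add, Prod.snd_add]
      ring)
    (fun c x y => by
      rw [smul_eq_mul, Finset.mul_sum]
      refine Finset.sum_congr rfl fun i _ => ?_
      simp only [sym, Pi.smul_apply, Prod.smul_fst, Prod.smul_snd, smul_eq_mul]
      ring)
    (fun x y y' => by
      rw [← Finset.sum_add_distrib]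
      refine Finset.sum_congr rfl fun i _ => ?_
      simp only [sym, Pi.add_apply, Prod.fst_add, Prod.snd_add]
      ring)
    (fun c x y => by
      rw [smul_eq_mul, Finset.mul_sum]
      refine Finset.sum_congr rfl fun i _ => ?_
      simp only [sym, Pi.smul_apply, Prod.smul_fst, Prod.smul_snd, smul_eq_mul]
      ring)

theorem locForm_apply (e : ι → ZMod 2) (x y : ι → ZMod 2 × ZMod 2) :
    locForm e x y = ∑ i, sym (e i) (x i) (y i) := rfl

theorem sym_comm (e : ZMod 2) (x y : ZMod 2 × ZMod 2) : sym e x y = sym e y x := by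
  unfold sym
  ring

theorem locForm_nondeg (e : ι → ZMod 2) : (locForm e).Nondegenerate := by
  classical
  have h1 : ∀ x : ι → ZMod 2 × ZMod 2, (∀ y, locForm e x y = 0) → x = 0 := by
    intro x hx
    ext1 i
    have key : ∀ z : ZMod 2 × ZMod 2, sym (e i) (x i) z = 0 := by
      intro z
      have h3 := hx (Pi.single i z)
      rw [locForm_apply, Finset.sum_eq_single i] at h3
      · rw [Pi.single_eq_same] at h3
        exact h3
      · intro j _ hj
        rw [Pi.single_eq_of_ne hj]
        simp [sym]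
      · intro h
        exact absurd (Finset.mem_univ i) h
    have k1 := key (1, 0)
    have k2 := key (0, 1)
    unfold sym at k1 k2
    simp only [mul_zero, mul_one, zero_add, add_zero] at k1 k2
    refine Prod.ext k2 ?_
    rw [k2] at k1
    simpa using k1
  refine ⟨h1, fun y hy => h1 y fun x => ?_⟩
  rw [locForm_apply]
  simp only [sym_comm _ (y _) (x _)]
  exact hy x

/-- A subspace of half dimension on which the form is zero is its own orthogonal complement. -/
theorem mem_of_orth (e : ι → ZMod 2) (Λ : Submodule (ZMod 2) (ι → ZMod 2 × ZMod 2))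
    (hdim : Module.finrank (ZMod 2) Λ = Fintype.card ι)
    (hiso : ∀ x ∈ Λ, ∀ y ∈ Λ, locForm e x y = 0) (ξ : ι → ZMod 2 × ZMod 2)
    (h : ∀ y ∈ Λ, locForm e ξ y = 0) : ξ ∈ Λ := by
  have hle : Λ ≤ (locForm e).orthogonal Λ := by
    intro y hy
    rw [LinearMap.BilinForm.mem_orthogonal_iff]
    intro x hx
    exact hiso x hx y hy
  have hfr := LinearMap.BilinForm.finrank_orthogonal (locForm_nondeg e) Λ
  have hV : Module.finrank (ZMod 2) (ι → ZMod 2 × ZMod 2) = 2 * Fintype.card ι := by
    rw [Module.finrank_pi_fintype]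
    simp only [Module.finrank_prod, Module.finrank_self, Finset.sum_const, Finset.card_univ,
      smul_eq_mul]
    ring
  have heq : Λ = (locForm e).orthogonal Λ := by
    apply Submodule.eq_of_le_of_finrank_eq hle
    rw [hfr, hV, hdim]
    omega
  rw [heq, LinearMap.BilinForm.mem_orthogonal_iff]
  intro x hx
  have h3 := h x hx
  rw [locForm_apply] at h3
  change locForm e x ξ = 0
  rw [locForm_apply]
  simp only [sym_comm _ (x _) (ξ _)]
  exact h3

end space

section lag

variable {k K : Type} [Field k] [Finite k] [Field K] [Algebra k K] [Algebra (RatFunc k) K]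
  [IsScalarTower k (RatFunc k) K] [FiniteDimensional (RatFunc k) K]
  [Algebra.IsSeparable (RatFunc k) K]

/-- The pairs of an element of `X_S` at the places of `S`. -/
private noncomputable def prS (h2 : (2 : k) ≠ 0) (S : Finset (Place k K)) :
    Additive (XS (S : Set (Place k K))) →+ (S → ZMod 2 × ZMod 2) where
  toFun u := fun w => pr w.1 ((u.toMul : Kˣ) : K)
  map_zero' := by
    ext1 w
    exact pr_one w.1 (BSDK.locAt h2 w.1)
  map_add' a b := by
    ext1 w
    exact pr_mul w.1 (BSDK.locAt h2 w.1) (Units.ne_zero _) (Units.ne_zero _)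

/-- The image of `X_S` is its own orthogonal complement (`LAG`). -/
theorem lag (h2 : (2 : k) ≠ 0) (S : Finset (Place k K)) (hne : S.Nonempty)
    (hS : PrinOut (S : Set (Place k K))) (ξ : Place k K → ZMod 2 × ZMod 2)
    (h : ∀ u : Kˣ, u ∈ XS (S : Set (Place k K)) →
      ∑ w ∈ S, sym (phv w (-1)) (ξ w) (pr w (u : K)) = 0) :
    ∃ u : Kˣ, u ∈ XS (S : Set (Place k K)) ∧ ∀ w ∈ S, pr w (u : K) = ξ w := by
  classical
  obtain ⟨G, _⟩ := exists_geo k K
  have hcard := card_XS G h2 S.finite_toSet (by exact_mod_cast hne) hS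
  set ψ := prS h2 S with hψ
  let Λ : Submodule (ZMod 2) (S → ZMod 2 × ZMod 2) := AddSubgroup.toZModSubmodule 2 ψ.range
  have hmem : ∀ x, x ∈ Λ ↔ ∃ u : Kˣ, u ∈ XS (S : Set (Place k K)) ∧ ∀ w : S, pr w.1 (u : K) = x w := by
    intro x
    change x ∈ ψ.range ↔ _
    constructor
    · rintro ⟨u, rfl⟩
      exact ⟨(u.toMul : Kˣ), u.toMul.2, fun w => rfl⟩
    · rintro ⟨u, hu, hx⟩
      exact ⟨Additive.ofMul ⟨u, hu⟩, funext fun w => hx w⟩
  have hker : Subgroup.toAddSubgroup ((Sqs K).subgroupOf (XS (S : Set (Place k K)))) = ψ.ker := by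
    ext u
    constructor
    · rintro ⟨v, hv⟩
      have hv' : v ^ 2 = (u.toMul : Kˣ) := hv
      rw [AddMonoidHom.mem_ker]
      ext1 w
      change pr w.1 ((u.toMul : Kˣ) : K) = 0
      rw [← hv', Units.val_pow_eq_pow_val, pr_eq_zero w.1 (BSDK.locAt h2 w.1)
        (pow_ne_zero _ v.ne_zero), map_pow]
      exact ⟨_, sq _⟩
    · intro hu
      rw [AddMonoidHom.mem_ker] at hu
      have h3 : IsSquare (((u.toMul : Kˣ)) : K) := by
        refine isSquare_of_localS h2 S.finite_toSet hS (u.toMul : Kˣ) u.toMul.2 fun w hw => ?_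
        rw [← pr_eq_zero w (BSDK.locAt h2 w) (Units.ne_zero _)]
        exact congrFun hu ⟨w, hw⟩
      obtain ⟨v, hv⟩ := h3
      have hv0 : v ≠ 0 := by
        rintro rfl
        rw [mul_zero] at hv
        exact Units.ne_zero _ hv
      exact ⟨Units.mk0 v hv0, Units.ext (by
        change v ^ 2 = _
        rw [sq, ← hv]
        rfl)⟩
  have hcardΛ : Nat.card Λ = 2 ^ S.card := by
    have h3 : Nat.card ψ.range = ψ.ker.index := (AddSubgroup.index_ker ψ).symm
    have h4 : Nat.card Λ = Nat.card ψ.range := rfl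
    rw [h4, h3, ← hker, Subgroup.index_toAddSubgroup]
    rw [Set.ncard_coe_finset] at hcard
    exact hcard
  have hdim : Module.finrank (ZMod 2) Λ = Fintype.card S := by
    have h3 : Nat.card Λ = Nat.card (ZMod 2) ^ Module.finrank (ZMod 2) Λ :=
      Module.natCard_eq_pow_finrank
    rw [hcardΛ, Nat.card_zmod] at h3
    rw [Fintype.card_coe]
    exact (Nat.pow_right_injective (le_refl 2) h3).symm
  have hmain := mem_of_orth (fun w : S => phv w.1 (-1)) Λ hdim ?_ (fun w => ξ w.1) ?_
  · obtain ⟨u, hu, h3⟩ := (hmem _).1 hmain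
    exact ⟨u, hu, fun w hw => h3 ⟨w, hw⟩⟩
  · intro x hx y hy
    obtain ⟨u, hu, hux⟩ := (hmem x).1 hx
    obtain ⟨v, hv, hvy⟩ := (hmem y).1 hy
    rw [locForm_apply]
    have h3 := sum_sym h2 S u.ne_zero v.ne_zero (fun w hw =>
      iso2_evenU w (BSDK.locAt h2 w) u.ne_zero v.ne_zero (hu w hw) (hv w hw))
    rw [← Finset.sum_coe_sort] at h3
    rw [← h3]
    refine Finset.sum_congr rfl fun w _ => ?_
    rw [hux w, hvy w]
  · intro y hy
    obtain ⟨v, hv, hvy⟩ := (hmem y).1 hy
    rw [locForm_apply]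
    have h3 := h v hv
    rw [← Finset.sum_coe_sort] at h3
    rw [← h3]
    refine Finset.sum_congr rfl fun w _ => ?_
    rw [hvy w]

/-- Weak approximation modulo squares. -/
theorem exists_class (h2 : (2 : k) ≠ 0) {S : Set (Place k K)} (hf : S.Finite)
    (c : Place k K → K) (hc : ∀ w ∈ S, c w ≠ 0) :
    ∃ u : K, u ≠ 0 ∧ ∀ w ∈ S, IsSquare (w.toCompletion (u / c w)) :=
  exists_classL (fun w => BSDK.locAt h2 w) hf c hc

/-- `S` is not empty. -/
theorem PrinOut.nonempty {S : Set (Place k K)} (h : PrinOut S) : S.Nonempty := by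
  classical
  obtain ⟨G, _⟩ := exists_geo k K
  obtain ⟨w⟩ := exists_place_geo G
  by_contra hS
  rw [Set.not_nonempty_iff_eq_empty] at hS
  subst hS
  obtain ⟨x, hx, hxD⟩ := h (Finsupp.single w 1)
  have h1 : degD (Finsupp.single w (1 : ℤ)) = 0 :=
    degD_prin G ⟨x, hx, fun v => (hxD v (Set.notMem_empty v)).symm⟩
  rw [degD_single] at h1
  have := G.degree_pos w
  omega

/-- The image of `X_S` is its own orthogonal complement, in terms of `Iso2`. -/
theorem lagrange (h2 : (2 : k) ≠ 0) {S : Set (Place k K)} (hf : S.Finite) (hS : PrinOut S)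
    (c : K) (hc : c ≠ 0)
    (h : ∀ u : Kˣ, u ∈ XS S → Even {w : Place k K | w ∈ S ∧ ¬ Iso2 w c (u : K)}.ncard) :
    ∃ u : Kˣ, u ∈ XS S ∧ ∀ w ∈ S, IsSquare (w.toCompletion (c / u)) := by
  classical
  have hne := hS.nonempty
  have hcoe : ((hf.toFinset : Finset (Place k K)) : Set (Place k K)) = S := hf.coe_toFinset
  obtain ⟨u, hu, h3⟩ := lag h2 hf.toFinset (by
    obtain ⟨w, hw⟩ := hne
    exact ⟨w, hf.mem_toFinset.2 hw⟩) (by rw [hcoe]; exact hS) (fun w => pr w c) (by
      intro u hu
      rw [hcoe] at hu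
      have h1 : ∀ w ∈ hf.toFinset, sym (phv w (-1)) (pr w c) (pr w (u : K)) =
          if ¬ Iso2 w c (u : K) then 1 else 0 := by
        intro w _
        have h3 := iso2_iff w (BSDK.locAt h2 w) hc u.ne_zero
        change Iso2 w c (u : K) ↔ sym (phv w (-1)) (pr w c) (pr w (u : K)) = 0 at h3
        rw [h3]
        generalize sym (phv w (-1)) (pr w c) (pr w (u : K)) = y
        by_cases hy : y = 0
        · rw [if_neg (not_not.2 hy), hy]
        · rw [if_pos hy]
          revert hy
          revert y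
          decide
      rw [Finset.sum_congr rfl h1, Finset.sum_ite, Finset.sum_const_zero, add_zero,
        Finset.sum_const, nsmul_one]
      have h4 := h u hu
      have h5 : {w : Place k K | w ∈ S ∧ ¬ Iso2 w c (u : K)} =
          ((hf.toFinset.filter fun w => ¬ Iso2 w c (u : K) : Finset _) : Set (Place k K)) := by
        ext v
        rw [Finset.coe_filter]
        constructor
        · exact fun hv => ⟨hf.mem_toFinset.2 hv.1, hv.2⟩
        · exact fun hv => ⟨hf.mem_toFinset.1 hv.1, hv.2⟩
      rw [h5, Set.ncard_coe_finset] at h4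
      rw [ZMod.natCast_eq_zero_iff]
      exact h4.two_dvd)
  rw [hcoe] at hu
  refine ⟨u, hu, fun w hw => ?_⟩
  rw [← pr_eq_iff w (BSDK.locAt h2 w) hc u.ne_zero]
  exact (h3 w (hf.mem_toFinset.2 hw)).symm

end lag

end Pool.Agent.GBU
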