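import Pool.Agent.Lib.GBU.Sym
import Pool.Agent.Lib.GBU.Lag

/-!
# GBU (SMITH-U): reciprocity and duality for the quadratic characters of a global function field

`HomO c`: `c : Gal(Om / K) → ZMod 2` is a homomorphism with open kernel. For all elements `sg v`,
`ph v` of the decomposition groups with `LocVals sg ph`:
* `recipK`: the sum of the local symbols of two such homomorphisms is zero;
* `lag_inj`, `lag_surj`, `lag_ram`: the homomorphisms unramified outside `S` (`PrinOut S`) are a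
  maximal isotropic subspace of the local vectors at `S`.
-/

set_option autoImplicit false

open IsLocalRing

namespace Pool.Agent.GBU

open Pool.Agent.BSDFF Pool.Agent.Lib.SmD Pool.Agent.GBC Pool.Agent.GBR

/-- Homomorphisms to `ZMod 2` with open kernel. -/
structure HomO {K Om : Type} [Field K] [Field Om] [Algebra K Om] (c : (Om ≃ₐ[K] Om) → ZMod 2) :
    Prop where
  add : ∀ s t, c (s * t) = c s + c t
  fin : ∃ U : Subgroup (Om ≃ₐ[K] Om), IsOpen (U : Set (Om ≃ₐ[K] Om)) ∧ ∀ s ∈ U, c s = 0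

section hom

variable {K Om : Type} [Field K] [Field Om] [Algebra K Om]

theorem homO_of_NP {c : (Om ≃ₐ[K] Om) → ZMod 2} (hc : ∀ s t, c (s * t) = c s + c t)
    (h : ∃ N ∈ NP K Om, ∀ s, ∀ n ∈ N, c (s * n) = c s) : HomO c := by
  obtain ⟨N, hN, h1⟩ := h
  refine ⟨hc, N, NP.isOpen hN, fun s hs => ?_⟩
  have h3 := h1 1 s hs
  have h4 := hc 1 1
  rw [mul_one] at h4
  rw [one_mul, left_eq_add.1 h4] at h3
  exact h3

theorem HomO.tf [IsSepClosure K Om] (h2 : (2 : K) ≠ 0) {c : (Om ≃ₐ[K] Om) → ZMod 2}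
    (hc : HomO c) : ∃ N ∈ NP K Om, ∀ s, ∀ n ∈ N, c (s * n) = c s := by
  obtain ⟨U, hU, h0⟩ := hc.fin
  obtain ⟨N, hN, h⟩ := exists_NN_of_hom hc.add hU h0
  exact ⟨N, NN_subset_NP h2 hN, h⟩

theorem HomO.kummer [IsSepClosure K Om] (h2 : (2 : K) ≠ 0) {c : (Om ≃ₐ[K] Om) → ZMod 2}
    (hc : HomO c) : ∃ f : K, f ≠ 0 ∧ ∀ s, c s = chi K f s := by
  obtain ⟨U, hU, h0⟩ := hc.fin
  exact kummer_open h2 hc.add hU h0

theorem homO_chi [IsSepClosure K Om] (h2 : (2 : K) ≠ 0) {f : K} (hf : f ≠ 0) :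
    HomO (chi K f : (Om ≃ₐ[K] Om) → ZMod 2) := by
  obtain ⟨⟨N, hN, h1⟩, h3⟩ := Pool.Agent.SmF.chi_homG (Ω := Om) h2 hf
  exact homO_of_NP h3 ⟨N, NN_subset_NP h2 hN, h1⟩

end hom

section main

variable {k K : Type} [Field k] [Finite k] [Field K] [Algebra k K] [Algebra (RatFunc k) K]
  [IsScalarTower k (RatFunc k) K] [FiniteDimensional (RatFunc k) K]
  [Algebra.IsSeparable (RatFunc k) K] {Om : Type} [Field Om]
  [Algebra K Om] [IsSepClosure K Om] {sg ph : Place k K → (Om ≃ₐ[K] Om)}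

private theorem Lag_sum {α : Type*} {B : Set α} (hB : B.Finite) {f : α → ZMod 2}
    (hf : ∀ v, f v = 0 ↔ v ∉ B) : ∑ᶠ v, f v = (B.ncard : ZMod 2) := by
  classical
  have h1 : Function.support f ⊆ (hB.toFinset : Set α) := by
    intro v hv
    rw [hB.coe_toFinset]
    by_contra h
    exact hv ((hf v).2 h)
  rw [finsum_eq_sum_of_support_subset f h1, Set.ncard_eq_toFinset_card B hB]
  have h3 : ∀ v ∈ hB.toFinset, f v = 1 := by
    intro v hv
    have h4 : f v ≠ 0 := fun h => (hf v).1 h (hB.mem_toFinset.1 hv)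
    have : ∀ a : ZMod 2, a ≠ 0 → a = 1 := by decide
    exact this _ h4
  rw [Finset.sum_congr rfl h3, Finset.sum_const, nsmul_eq_mul, mul_one]

omit [Algebra.IsSeparable (RatFunc k) K] in
/-- Every pair of local values is the pair of a quadratic character. -/
theorem LVal.exists_pair (h2 : (2 : k) ≠ 0) {v : Place k K} {σ φ : Om ≃ₐ[K] Om}
    (h : LVal v σ φ) (x : ZMod 2 × ZMod 2) :
    ∃ f : K, f ≠ 0 ∧ (chi K f σ, chi K f φ) = x := by
  have h2' : (2 : K) ≠ 0 := two_ne_K h2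
  have hfin := BSDK.residue_finite v
  have hf : Fintype (ResidueField v.ring) := Fintype.ofFinite _
  have hz : ∀ a : ZMod 2, a ≠ 0 → a = 1 := by decide
  have hchar : ringChar (ResidueField v.ring) ≠ 2 := by
    intro h0
    apply h2
    apply v.constMap.injective
    rw [map_ofNat, map_zero]
    have := CharP.cast_eq_zero (ResidueField v.ring) (ringChar (ResidueField v.ring))
    rw [h0] at this
    exact_mod_cast this
  obtain ⟨r, hr⟩ := FiniteField.exists_nonsquare hchar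
  obtain ⟨u, rfl⟩ := residue_surjective r
  have hu : IsUnit u := by
    by_contra hn
    apply hr
    rw [(residue_eq_zero_iff u).2 ((mem_maximalIdeal u).2 hn)]
    exact ⟨0, by rw [mul_zero]⟩
  obtain ⟨hu0, huo⟩ := (val_one_iff_unit u).1 hu
  have huφ : chi K (u : K) φ = 1 := hz _ fun h0 => hr ((h.ph_unit u hu).1 h0)
  have huσ : chi K (u : K) σ = 0 := h.sg_of_ord hu0 huo
  have hp0 := unifK_ne v
  have hpσ : chi K (unif v : K) σ = 1 := h.sg_unif'
  obtain ⟨i, j⟩ := x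
  by_cases hi : i = 0
  · subst hi
    by_cases hj : j = 0
    · subst hj
      exact ⟨1, one_ne_zero, by rw [Pool.Agent.SmF.chi_one, Pool.Agent.SmF.chi_one]⟩
    · rw [hz j hj]
      exact ⟨(u : K), hu0, by rw [huσ, huφ]⟩
  · rw [hz i hi]
    by_cases hj : chi K (unif v : K) φ = j
    · exact ⟨(unif v : K), hp0, by rw [hpσ, hj]⟩
    · refine ⟨(unif v : K) * (u : K), mul_ne_zero hp0 hu0, ?_⟩
      rw [Pool.Agent.SmF.chi_mul_elt h2' hp0 hu0, Pool.Agent.SmF.chi_mul_elt h2' hp0 hu0, hpσ, huσ,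
        huφ, add_zero]
      have : ∀ a b : ZMod 2, a ≠ b → a + 1 = b := by decide
      rw [this _ _ hj]

/-- Reciprocity. -/
theorem recipK (h2 : (2 : k) ≠ 0) (H : LocVals sg ph) {c d : (Om ≃ₐ[K] Om) → ZMod 2}
    (hc : HomO c) (hd : HomO d) :
    ∑ᶠ v, symK v (c (sg v), c (ph v)) (d (sg v), d (ph v)) = 0 := by
  have h2' : (2 : K) ≠ 0 := two_ne_K h2
  obtain ⟨a, ha, hca⟩ := hc.kummer h2'
  obtain ⟨b, hb, hdb⟩ := hd.kummer h2'
  obtain ⟨hfin, hev⟩ := even_bad (k := k) h2 ha hb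
  rw [Lag_sum hfin (f := fun v => symK v (c (sg v), c (ph v)) (d (sg v), d (ph v)))]
  · rw [ZMod.natCast_eq_zero_iff]
    exact even_iff_two_dvd.1 hev
  · intro v
    rw [hca, hca, hdb, hdb, (H v).sym_eq_zero_iff h2 ha hb, Set.mem_ofPred_eq, not_not]

variable {S : Set (Place k K)}

theorem lag_inj (h2 : (2 : k) ≠ 0) (H : LocVals sg ph) (hf : S.Finite) (hS : PrinOut S)
    {b : (Om ≃ₐ[K] Om) → ZMod 2} (hb : HomO b) (hr : ∀ v ∉ S, b (sg v) = 0)
    (h0 : ∀ v ∈ S, b (sg v) = 0 ∧ b (ph v) = 0) : ∀ s, b s = 0 := by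
  have h2' : (2 : K) ≠ 0 := two_ne_K h2
  obtain ⟨a, ha, hba⟩ := hb.kummer h2'
  have hX : Units.mk0 a ha ∈ XS S := by
    rw [mem_XS]
    intro v hv
    rw [Units.val_mk0, ← (H v).chi_sg_eq_zero_iff h2' ha, ← hba]
    exact hr v hv
  have hsq : IsSquare a := by
    refine isSquare_of_localS h2 hf hS (Units.mk0 a ha) hX fun v hv => ?_
    rw [Units.val_mk0, (H v).isSquare_iff h2 ha, ← hba, ← hba]
    exact h0 v hv
  intro s
  rw [hba]
  exact (Pool.Agent.SmF.chi_eq_zero_iff h2' ha).2 hsq s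

theorem lag_surj (h2 : (2 : k) ≠ 0) (H : LocVals sg ph) (hf : S.Finite)
    (hS : PrinOut S) (xi : Place k K → ZMod 2 × ZMod 2)
    (h : ∀ b : (Om ≃ₐ[K] Om) → ZMod 2, HomO b → (∀ v ∉ S, b (sg v) = 0) →
      ∑ᶠ v ∈ S, symK v (xi v) (b (sg v), b (ph v)) = 0) :
    ∃ om : (Om ≃ₐ[K] Om) → ZMod 2, HomO om ∧ (∀ v ∉ S, om (sg v) = 0) ∧
      ∀ v ∈ S, (om (sg v), om (ph v)) = xi v := by
  classical
  have h2' : (2 : K) ≠ 0 := two_ne_K h2
  choose c hc0 hc using fun v : Place k K => (H v).exists_pair h2 (xi v)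
  have hdiv : ∀ {a b : K}, a ≠ 0 → b ≠ 0 → ∀ v, IsSquare (v.toCompletion (a / b)) →
      (chi K a (sg v), chi K a (ph v)) = (chi K b (sg v), chi K b (ph v)) := by
    intro a b ha hb v hv
    rw [(H v).isSquare_iff h2 (div_ne_zero ha hb)] at hv
    have h3 : ∀ s : Om ≃ₐ[K] Om, chi K a s = chi K (a / b) s + chi K b s := by
      intro s
      rw [← Pool.Agent.SmF.chi_mul_elt h2' (div_ne_zero ha hb) hb, div_mul_cancel₀ _ hb]
    rw [h3, h3, hv.1, hv.2, zero_add, zero_add]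
  have hcoe : (hf.toFinset : Set (Place k K)) = S := hf.coe_toFinset
  have hz : ∀ {a b : ZMod 2}, (a = 0 ↔ b = 0) → a = b := by decide
  obtain ⟨x, hx, hxS⟩ := lag h2 hf.toFinset (by
      rw [← Finset.coe_nonempty, hcoe]
      exact hS.nonempty) (by rw [hcoe]; exact hS) (fun v => pr v (c v)) (by
    intro x hx
    rw [hcoe] at hx
    have h3 := h (chi K (x : K)) (homO_chi h2' x.ne_zero) fun v hv => by
      rw [(H v).chi_sg_eq_zero_iff h2' x.ne_zero]
      exact hx v hv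
    rw [finsum_mem_eq_finite_toFinset_sum _ hf] at h3
    rw [← h3]
    refine Finset.sum_congr rfl fun v _ => hz ?_
    rw [← hc v, (H v).sym_eq_zero_iff h2 (hc0 v) x.ne_zero,
      iso2_iff v (BSDK.locAt h2 v) (hc0 v) x.ne_zero]
    rfl)
  rw [hcoe] at hx
  refine ⟨chi K (x : K), homO_chi h2' x.ne_zero, fun v hv => ?_, fun v hv => ?_⟩
  · rw [(H v).chi_sg_eq_zero_iff h2' x.ne_zero]
    exact hx v hv
  · rw [← hc v]
    refine hdiv x.ne_zero (hc0 v) v ?_
    rw [← pr_eq_iff v (BSDK.locAt h2 v) x.ne_zero (hc0 v)]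
    exact hxS v (hf.mem_toFinset.2 hv)

omit [Finite k] [Algebra (RatFunc k) K] [IsScalarTower k (RatFunc k) K]
  [FiniteDimensional (RatFunc k) K] [Algebra.IsSeparable (RatFunc k) K] in
theorem lag_ram (h2 : (2 : k) ≠ 0) (H : LocVals sg ph) (hS : PrinOut S) {w : Place k K}
    (hw : w ∉ S) : ∃ c : (Om ≃ₐ[K] Om) → ZMod 2, HomO c ∧ c (sg w) = 1 ∧
      ∀ v ∉ S, v ≠ w → c (sg v) = 0 := by
  have h2' : (2 : K) ≠ 0 := two_ne_K h2
  obtain ⟨x, hx0, hx⟩ := hS (Finsupp.single w 1)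
  refine ⟨chi K x, homO_chi h2' hx0, ?_, fun v hv hvw => ?_⟩
  · rw [(H w).chi_sg h2' hx0, hx w hw, Finsupp.single_eq_same, Int.cast_one]
  · rw [(H v).chi_sg h2' hx0, hx v hv, Finsupp.single_eq_of_ne hvw, Int.cast_zero]

end main

end Pool.Agent.GBU
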