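import Pool.Agent.Lib.GBU.Split
import Pool.Agent.Lib.GBU.Even

/-!
Block GBU: the quadratic symbol at a place in terms of the order and the quadratic character.
`sgv w a = ord w a mod 2`, `phv w a = 0` iff `a ϖ ^ (- ord a)` is a square in the completion.
-/

set_option autoImplicit false

open IsLocalRing

namespace Pool.Agent.GBU

open Pool.Agent.BSDFF Pool.Agent.GBC Pool.Agent.GBR Pool.Agent.BSDP.R

variable {k K : Type} [Field k] [Field K] [Algebra k K]

/-- The order modulo `2`. -/
noncomputable def sgv (w : Place k K) (a : K) : ZMod 2 := (ord w a : ZMod 2)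

/-- The quadratic character of the unit part with respect to the uniformizer `unif w`. -/
noncomputable def phv (w : Place k K) (a : K) : ZMod 2 :=
  open Classical in if IsSquare (w.toCompletion (a * (unif w : K) ^ (-ord w a))) then 0 else 1

/-- The symbol of pairs. -/
def sym (e : ZMod 2) (x y : ZMod 2 × ZMod 2) : ZMod 2 := x.1 * y.2 + x.2 * y.1 + e * x.1 * y.1

section loc

variable (w : Place k K) (A : BSDK.LocAt w)

theorem unif_neU : (unif w : K) ≠ 0 := fun h => (unif_irreducible w).ne_zero (Subtype.ext h)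

theorem ord_unif : ord w (unif w : K) = 1 := by
  have h1 := val_eq w (unif_neU w)
  have h2 : w.ring.valuation (unif w : K) < 1 :=
    (w.ring.valuation_lt_one_iff _).mp
      ((IsLocalRing.mem_maximalIdeal _).mpr (unif_irreducible w).not_isUnit)
  have h3 := (val_lt_one_iff w (unif_neU w)).1 h2
  have h0 : w.ring.valuation (unif w : K) ≠ 0 := (Valuation.ne_zero_iff _).2 (unif_neU w)
  by_contra hne
  have h4 : 1 < ord w (unif w : K) := by omega
  have h5 := zpow_right_strictAnti₀ (zero_lt_iff.2 h0) h2 h4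
  simp only [zpow_one] at h5
  rw [← h1] at h5
  exact lt_irrefl _ h5

include A

theorem same_iff {a b : K} (ha : a ≠ 0) (hb : b ≠ 0) :
    SameClass A.O.valuation (w.toCompletion a) (w.toCompletion b) ↔ Even (ord w a + ord w b) := by
  have hu := unif_neU w
  have hV0 : A.O.valuation (w.toCompletion (unif w : K)) ≠ 0 :=
    (Valuation.ne_zero_iff _).2 ((_root_.map_ne_zero _).2 hu)
  have hV1 : A.O.valuation (w.toCompletion (unif w : K)) < 1 := by
    rw [A.lt_iff]
    exact (w.ring.valuation_lt_one_iff _).mp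
      ((IsLocalRing.mem_maximalIdeal _).mpr (unif_irreducible w).not_isUnit)
  have hinj : Function.Injective fun n : ℤ => A.O.valuation (w.toCompletion (unif w : K)) ^ n :=
    (zpow_right_strictAnti₀ (zero_lt_iff.2 hV0) hV1).injective
  constructor
  · rintro ⟨s, hs⟩
    rw [← map_mul, val_compU w A (mul_ne_zero ha hb), ord_mul w ha hb] at hs
    have hs0 : s ≠ 0 := by
      rintro rfl
      rw [map_zero, sq, zero_mul] at hs
      exact zpow_ne_zero _ hV0 hs
    obtain ⟨y, hy, _, hy'⟩ := exists_val_eq w A hs0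
    rw [← hy', val_compU w A hy, ← zpow_natCast, ← zpow_mul] at hs
    have := hinj hs
    exact ⟨ord w y, by rw [this]; push_cast; ring⟩
  · rintro ⟨m, hm⟩
    refine ⟨w.toCompletion ((unif w : K) ^ m), ?_⟩
    rw [← map_mul, val_compU w A (mul_ne_zero ha hb), ord_mul w ha hb, hm,
      val_compU w A (zpow_ne_zero _ hu), ord_zpow w hu, ord_unif, mul_one, ← zpow_natCast,
      ← zpow_mul]
    congr 1
    push_cast
    ring

theorem same_iff' {a b : w.ring.valuation.Completion} {a' b' : K} (ha : a' ≠ 0) (hb : b' ≠ 0)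
    (h1 : A.O.valuation a = A.O.valuation (w.toCompletion a'))
    (h2 : A.O.valuation b = A.O.valuation (w.toCompletion b')) :
    SameClass A.O.valuation a b ↔ Even (ord w a' + ord w b') := by
  rw [← same_iff w A ha hb]
  unfold SameClass
  simp only [map_mul, h1, h2]

/-- even orders -/
theorem iso2_evenU {a b : K} (ha : a ≠ 0) (hb : b ≠ 0) (h1 : Even (ord w a)) (h2 : Even (ord w b)) :
    Iso2 w a b := by
  have hL := locSq_of_loc A.toLoc
  have e1 : w.toCompletion a ≠ 0 := (_root_.map_ne_zero _).2 ha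
  have e2 : w.toCompletion b ≠ 0 := (_root_.map_ne_zero _).2 hb
  obtain ⟨x, y, z, h0, h⟩ := hL.iso_same (a := 1) (b := -w.toCompletion a) (c := -w.toCompletion b)
    one_ne_zero (neg_ne_zero.2 e1) (neg_ne_zero.2 e2)
    ((same_iff' w A one_ne_zero ha (by rw [map_one, map_one, map_one]) (by rw [Valuation.map_neg])).2 (by
      rw [ord_one, zero_add]; exact h1))
    ((same_iff' w A ha hb (by rw [Valuation.map_neg]) (by rw [Valuation.map_neg])).2 (h1.add h2))
  exact ⟨x, y, z, h0, by linear_combination h⟩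

/-- `a` even, `b` odd -/
theorem iso2_odd_right {a b : K} (ha : a ≠ 0) (hb : b ≠ 0) (h1 : Even (ord w a))
    (h2 : ¬ Even (ord w b)) : Iso2 w a b ↔ IsSquare (w.toCompletion a) := by
  have hL := locSq_of_loc A.toLoc
  have e1 : w.toCompletion a ≠ 0 := (_root_.map_ne_zero _).2 ha
  have e2 : w.toCompletion b ≠ 0 := (_root_.map_ne_zero _).2 hb
  have h := hL.iso_ram (a := -w.toCompletion b) (b := 1) (c := -w.toCompletion a)
    (neg_ne_zero.2 e2) one_ne_zero (neg_ne_zero.2 e1)
    (fun h => h2 (by
      have := (same_iff' w A hb one_ne_zero (by rw [Valuation.map_neg]) (by rw [map_one, map_one, map_one])).1 h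
      rw [ord_one, add_zero] at this
      exact this))
    ((same_iff' w A one_ne_zero ha (by rw [map_one, map_one, map_one]) (by rw [Valuation.map_neg])).2 (by
      rw [ord_one, zero_add]; exact h1))
  have e3 : -(1 * -w.toCompletion a) = w.toCompletion a := by ring
  rw [e3] at h
  rw [← h]
  constructor
  · rintro ⟨x, y, z, h0, h⟩
    refine ⟨z, x, y, ?_, by linear_combination h⟩
    tauto
  · rintro ⟨x, y, z, h0, h⟩
    refine ⟨y, z, x, ?_, by linear_combination h⟩
    tauto

/-- both odd -/
theorem iso2_odd_odd {a b : K} (ha : a ≠ 0) (hb : b ≠ 0) (h1 : ¬ Even (ord w a))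
    (h2 : ¬ Even (ord w b)) : Iso2 w a b ↔ IsSquare (w.toCompletion (-(a * b))) := by
  have hL := locSq_of_loc A.toLoc
  have e1 : w.toCompletion a ≠ 0 := (_root_.map_ne_zero _).2 ha
  have e2 : w.toCompletion b ≠ 0 := (_root_.map_ne_zero _).2 hb
  have h := hL.iso_ram (a := 1) (b := -w.toCompletion a) (c := -w.toCompletion b)
    one_ne_zero (neg_ne_zero.2 e1) (neg_ne_zero.2 e2)
    (fun h => h1 (by
      have := (same_iff' w A one_ne_zero ha (by rw [map_one, map_one, map_one]) (by rw [Valuation.map_neg])).1 h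
      rw [ord_one, zero_add] at this
      exact this))
    ((same_iff' w A ha hb (by rw [Valuation.map_neg]) (by rw [Valuation.map_neg])).2 (by
      rw [Int.not_even_iff_odd] at h1 h2
      exact h1.add_odd h2))
  have e3 : -(-w.toCompletion a * -w.toCompletion b) = w.toCompletion (-(a * b)) := by
    rw [map_neg, map_mul]; ring
  rw [e3] at h
  rw [← h]
  constructor
  · rintro ⟨x, y, z, h0, h⟩
    exact ⟨x, y, z, h0, by linear_combination h⟩
  · rintro ⟨x, y, z, h0, h⟩
    exact ⟨x, y, z, h0, by linear_combination h⟩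

/-- squares have even order -/
theorem even_of_sq {a : K} (ha : a ≠ 0) (h : IsSquare (w.toCompletion a)) : Even (ord w a) := by
  obtain ⟨s, hs⟩ := h
  have h1 : SameClass A.O.valuation (w.toCompletion 1) (w.toCompletion a) :=
    ⟨s, by rw [map_one, one_mul, hs, map_mul, sq]⟩
  have h2 := (same_iff w A one_ne_zero ha).1 h1
  rw [ord_one, zero_add] at h2
  exact h2

/-- the square classes of the elements of even order: index `2` -/
theorem sq_mul_iff {a b : K} (ha : a ≠ 0) (hb : b ≠ 0) (h1 : Even (ord w a)) (h2 : Even (ord w b)) :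
    IsSquare (w.toCompletion (a * b)) ↔
      (IsSquare (w.toCompletion a) ↔ IsSquare (w.toCompletion b)) := by
  have hL := locSq_of_loc A.toLoc
  have key : ∀ x y : w.ring.valuation.Completion, x ≠ 0 → y ≠ 0 → IsSquare x →
      (IsSquare (x * y) ↔ IsSquare y) := by
    intro x y hx hy h
    obtain ⟨s, rfl⟩ := h
    constructor
    · rintro ⟨r, hr⟩
      have hs : s ≠ 0 := fun h => hx (by rw [h, zero_mul])
      refine ⟨r / s, ?_⟩
      field_simp
      rw [sq, sq]
      linear_combination hr
    · rintro ⟨r, rfl⟩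
      exact ⟨s * r, by ring⟩
  have e1 : w.toCompletion a ≠ 0 := (_root_.map_ne_zero _).2 ha
  have e2 : w.toCompletion b ≠ 0 := (_root_.map_ne_zero _).2 hb
  rw [map_mul]
  by_cases ha' : IsSquare (w.toCompletion a)
  · rw [key _ _ e1 e2 ha']
    simp only [ha', true_iff]
  · by_cases hb' : IsSquare (w.toCompletion b)
    · rw [mul_comm, key _ _ e2 e1 hb']
      simp only [hb', iff_true]
    · simp only [ha', hb', iff_self, iff_true]
      -- make them units
      obtain ⟨m, hm⟩ := h1
      obtain ⟨n, hn⟩ := h2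
      have hu := unif_neU w
      have hsq : ∀ (c : K) (j : ℤ), c ≠ 0 → ord w c = j + j →
          A.O.valuation (w.toCompletion (c * ((unif w : K) ^ (-j)) ^ 2)) = 1 := by
        intro c j hc hj
        rw [val_compU w A (mul_ne_zero hc (pow_ne_zero _ (zpow_ne_zero _ hu))),
          ord_mul w hc (pow_ne_zero _ (zpow_ne_zero _ hu)), ord_pow w (zpow_ne_zero _ hu),
          ord_zpow w hu, ord_unif, hj]
        have : j + j + ((2 : ℕ) : ℤ) * (-j * 1) = 0 := by push_cast; ring
        rw [this, zpow_zero]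
      have hnsq : ∀ (c t : K), c ≠ 0 → t ≠ 0 → ¬ IsSquare (w.toCompletion c) →
          ¬ IsSquare (w.toCompletion (c * t ^ 2)) := by
        intro c t hc ht hn h
        apply hn
        rw [map_mul, map_pow, mul_comm] at h
        exact (key _ _ (pow_ne_zero _ ((_root_.map_ne_zero _).2 ht))
          ((_root_.map_ne_zero _).2 hc) ⟨_, sq _⟩).1 h
      have t1 : (unif w : K) ^ (-m) ≠ 0 := zpow_ne_zero _ hu
      have t2 : (unif w : K) ^ (-n) ≠ 0 := zpow_ne_zero _ hu
      have h3 := hL.nonsq _ _ (hsq a m ha hm) (hsq b n hb hn) (hnsq a _ ha t1 ha')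
        (hnsq b _ hb t2 hb')
      have h4 : w.toCompletion (a * ((unif w : K) ^ (-m)) ^ 2) *
          w.toCompletion (b * ((unif w : K) ^ (-n)) ^ 2) =
          w.toCompletion (((unif w : K) ^ (-m) * (unif w : K) ^ (-n)) ^ 2) *
            (w.toCompletion a * w.toCompletion b) := by
        rw [← map_mul, ← map_mul, ← map_mul]
        congr 1
        ring
      rw [h4] at h3
      refine (key _ _ ((_root_.map_ne_zero _).2 (pow_ne_zero _ (mul_ne_zero t1 t2)))
        (mul_ne_zero e1 e2) ?_).1 h3
      rw [map_pow]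
      exact ⟨_, sq _⟩

omit A in
theorem sgv_eq_zero {a : K} : sgv w a = 0 ↔ Even (ord w a) := by
  unfold sgv
  rw [ZMod.intCast_zmod_eq_zero_iff_dvd]
  exact even_iff_two_dvd.symm

omit A in
theorem sgv_mul {a b : K} (ha : a ≠ 0) (hb : b ≠ 0) : sgv w (a * b) = sgv w a + sgv w b := by
  unfold sgv
  rw [ord_mul w ha hb]
  push_cast
  rfl

omit A in
private theorem phv_zero_iff {a : K} :
    phv w a = 0 ↔ IsSquare (w.toCompletion (a * (unif w : K) ^ (-ord w a))) := by
  unfold phv
  split_ifs with h
  · exact ⟨fun _ => h, fun _ => rfl⟩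
  · exact ⟨fun h' => absurd h' one_ne_zero, fun h' => absurd h' h⟩

omit A in
private theorem phv_cases (a : K) : phv w a = 0 ∨ phv w a = 1 := by
  unfold phv
  split_ifs
  · exact Or.inl rfl
  · exact Or.inr rfl

omit A in
private theorem ord_unitpart {a : K} (ha : a ≠ 0) :
    ord w (a * (unif w : K) ^ (-ord w a)) = 0 := by
  rw [ord_mul w ha (zpow_ne_zero _ (unif_neU w)), ord_zpow w (unif_neU w), ord_unif]
  ring

theorem phv_mul {a b : K} (ha : a ≠ 0) (hb : b ≠ 0) : phv w (a * b) = phv w a + phv w b := by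
  have hu := unif_neU w
  have h1 : a * b * (unif w : K) ^ (-ord w (a * b)) =
      (a * (unif w : K) ^ (-ord w a)) * (b * (unif w : K) ^ (-ord w b)) := by
    rw [ord_mul w ha hb, neg_add, zpow_add₀ hu]
    ring
  have h2 := sq_mul_iff w A (mul_ne_zero ha (zpow_ne_zero (-ord w a) hu))
    (mul_ne_zero hb (zpow_ne_zero (-ord w b) hu))
    (by rw [ord_unitpart w ha]; exact Even.zero) (by rw [ord_unitpart w hb]; exact Even.zero)
  rw [← h1, ← phv_zero_iff, ← phv_zero_iff, ← phv_zero_iff] at h2
  rcases phv_cases w a with h3 | h3 <;> rcases phv_cases w b with h4 | h4 <;>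
    rcases phv_cases w (a * b) with h5 | h5 <;> rw [h3, h4, h5] at h2 ⊢ <;> revert h2 <;> decide

/-- for even order: the quadratic character -/
theorem phv_even {a : K} (ha : a ≠ 0) (h : Even (ord w a)) :
    phv w a = 0 ↔ IsSquare (w.toCompletion a) := by
  have hu := unif_neU w
  obtain ⟨m, hm⟩ := h
  rw [phv_zero_iff]
  have h1 := sq_mul_iff w A ha (zpow_ne_zero (-ord w a) hu) ⟨m, hm⟩ (by
    rw [ord_zpow w hu, ord_unif, mul_one, hm]
    exact ⟨-m, by ring⟩)
  have h2 : IsSquare (w.toCompletion ((unif w : K) ^ (-ord w a))) := by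
    refine ⟨w.toCompletion ((unif w : K) ^ (-m)), ?_⟩
    rw [← map_mul, ← zpow_add₀ hu, hm]
    congr 2
    ring
  rw [h1]
  simp only [h2, iff_true]

/-- the local squares -/
theorem sq_iff {a : K} (ha : a ≠ 0) :
    IsSquare (w.toCompletion a) ↔ sgv w a = 0 ∧ phv w a = 0 := by
  constructor
  · intro h
    have h1 := even_of_sq w A ha h
    exact ⟨(sgv_eq_zero w).2 h1, (phv_even w A ha h1).2 h⟩
  · rintro ⟨h1, h2⟩
    exact (phv_even w A ha ((sgv_eq_zero w).1 h1)).1 h2

/-- The formula for the symbol. -/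
theorem iso2_iff {a b : K} (ha : a ≠ 0) (hb : b ≠ 0) : Iso2 w a b ↔
    sym (phv w (-1)) (sgv w a, phv w a) (sgv w b, phv w b) = 0 := by
  have hc : ∀ x : K, sgv w x = 0 ∨ sgv w x = 1 := by
    intro x
    generalize sgv w x = y
    revert y
    decide
  have hn1 : (-1 : K) ≠ 0 := neg_ne_zero.2 one_ne_zero
  unfold sym
  simp only
  by_cases h1 : Even (ord w a)
  · have e1 := (sgv_eq_zero w).2 h1
    by_cases h2 : Even (ord w b)
    · have e2 := (sgv_eq_zero w).2 h2
      rw [e1, e2]
      simp only [zero_mul, mul_zero, add_zero, iff_true]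
      exact iso2_evenU w A ha hb h1 h2
    · have e2 : sgv w b = 1 := (hc b).resolve_left fun h => h2 ((sgv_eq_zero w).1 h)
      rw [e1, e2, iso2_odd_right w A ha hb h1 h2, ← phv_even w A ha h1]
      simp
  · have e1 : sgv w a = 1 := (hc a).resolve_left fun h => h1 ((sgv_eq_zero w).1 h)
    by_cases h2 : Even (ord w b)
    · have e2 := (sgv_eq_zero w).2 h2
      rw [e1, e2, iso2_swap, iso2_odd_right w A hb ha h2 h1, ← phv_even w A hb h2]
      simp
    · have e2 : sgv w b = 1 := (hc b).resolve_left fun h => h2 ((sgv_eq_zero w).1 h)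
      have h3 : Even (ord w (-(a * b))) := by
        rw [ord_neg, ord_mul w ha hb]
        rw [Int.not_even_iff_odd] at h1 h2
        exact h1.add_odd h2
      rw [e1, e2, iso2_odd_odd w A ha hb h1 h2,
        ← phv_even w A (neg_ne_zero.2 (mul_ne_zero ha hb)) h3]
      have h4 : -(a * b) = (-1) * (a * b) := by ring
      rw [h4, phv_mul w A hn1 (mul_ne_zero ha hb), phv_mul w A ha hb]
      simp only [one_mul, mul_one]
      have h5 : phv w (-1) + (phv w a + phv w b) = phv w b + phv w a + phv w (-1) := by ring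
      rw [h5]

end loc

end Pool.Agent.GBU
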