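import Pool.Agent.Lib.SmD.NN
import Pool.Agent.Lib.SmF.Kummer

/-!
# GBU (SMITH-U): the open normal subgroups of index prime to the characteristic

`NP K Om` = the open normal subgroups of `Gal(Om / K)` whose index is invertible in `K`.
(Compare `SmD/NN.lean`, the same for indices which are powers of `2`.)

PROOFS.
`inf_mem_NP`. `(N ⊓ N').index = N.index * N'.relIndex N` (`Subgroup.relIndex_mul_index`-type lemmas)
and `N'.relIndex N` divides `N'.index` as `N` is normal (`Subgroup.relIndex_dvd_index_of_normal`).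
`mem_NP_of_le`: the index divides (`Subgroup.index_dvd_of_le`); open: `Subgroup.isOpen_mono`.
`exists_field_of_mem_NP`: copy `exists_field_of_mem_NN`.
`ker_mem_NP`: the kernel of a hom `c : G → ZMod 2` with open kernel has index `1` or `2`, so it is in
`NN`. `kummerNP`: then `c` is constant on the cosets of that kernel, `SmF.kummer`.
-/

set_option autoImplicit false

namespace Pool.Agent.GBU

open Pool.Agent.Lib.SmD Pool.Agent.SmD

variable (K Om : Type*) [Field K] [Field Om] [Algebra K Om]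

/-- The open normal subgroups of index prime to the characteristic. -/
def NP : Set (Subgroup (Om ≃ₐ[K] Om)) :=
  {N | N.Normal ∧ IsOpen (N : Set (Om ≃ₐ[K] Om)) ∧ (N.index : K) ≠ 0}

variable {K Om}

theorem NP.normal {N : Subgroup (Om ≃ₐ[K] Om)} (h : N ∈ NP K Om) : N.Normal := h.1

theorem NP.isOpen {N : Subgroup (Om ≃ₐ[K] Om)} (h : N ∈ NP K Om) :
    IsOpen (N : Set (Om ≃ₐ[K] Om)) := h.2.1

theorem NP.index_ne {N : Subgroup (Om ≃ₐ[K] Om)} (h : N ∈ NP K Om) : (N.index : K) ≠ 0 := h.2.2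

theorem NP.finiteIndex {N : Subgroup (Om ≃ₐ[K] Om)} (h : N ∈ NP K Om) : N.FiniteIndex := by
  refine ⟨fun h0 => h.2.2 ?_⟩
  rw [h0, Nat.cast_zero]

theorem top_mem_NP : (⊤ : Subgroup (Om ≃ₐ[K] Om)) ∈ NP K Om := by
  refine ⟨inferInstance, isOpen_univ, ?_⟩
  rw [Subgroup.index_top, Nat.cast_one]
  exact one_ne_zero

theorem mem_NP_of_le {N N' : Subgroup (Om ≃ₐ[K] Om)} (h : N ∈ NP K Om) (h' : N'.Normal)
    (hle : N ≤ N') : N' ∈ NP K Om := by
  refine ⟨h', Subgroup.isOpen_mono hle h.2.1, fun h0 => h.2.2 ?_⟩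
  obtain ⟨m, hm⟩ := Subgroup.index_dvd_of_le hle
  rw [hm, Nat.cast_mul, h0, zero_mul]

theorem inf_mem_NP {N N' : Subgroup (Om ≃ₐ[K] Om)} (h : N ∈ NP K Om) (h' : N' ∈ NP K Om) :
    N ⊓ N' ∈ NP K Om := by
  obtain ⟨h1, h2, h3⟩ := h
  obtain ⟨h1', h2', h3'⟩ := h'
  refine ⟨inferInstance, ?_, ?_⟩
  · rw [Subgroup.coe_inf]
    exact h2.inter h2'
  · have e1 : (N ⊓ N').index = N.relIndex N' * N'.index := by
      rw [← Subgroup.inf_relIndex_right N N', Subgroup.relIndex_mul_index inf_le_right]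
    obtain ⟨m, hm⟩ : N.relIndex N' ∣ N.index := Subgroup.relIndex_dvd_index_of_normal N N'
    rw [e1, Nat.cast_mul]
    refine mul_ne_zero (fun h0 => h3 ?_) h3'
    rw [hm, Nat.cast_mul, h0, zero_mul]

theorem NN_subset_NP (h2 : (2 : K) ≠ 0) {N : Subgroup (Om ≃ₐ[K] Om)} (h : N ∈ NN K Om) :
    N ∈ NP K Om := by
  obtain ⟨h1, h3, r, hr⟩ := h
  refine ⟨h1, h3, ?_⟩
  rw [hr, Nat.cast_pow, Nat.cast_ofNat]
  exact pow_ne_zero _ h2

theorem fixingSubgroup_mem_NP [IsGalois K Om] (L : IntermediateField K Om)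
    [FiniteDimensional K L] [IsGalois K L] (h : (Module.finrank K L : K) ≠ 0) :
    L.fixingSubgroup ∈ NP K Om := by
  refine ⟨?_, IntermediateField.fixingSubgroup_isOpen L, by rwa [index_fixingSubgroup]⟩
  rw [InfiniteGalois.normal_iff_isGalois]
  infer_instance

theorem exists_field_of_mem_NP [IsGalois K Om] {N : Subgroup (Om ≃ₐ[K] Om)} (h : N ∈ NP K Om) :
    ∃ L : IntermediateField K Om, FiniteDimensional K L ∧ IsGalois K L ∧
      (Module.finrank K L : K) ≠ 0 ∧ L.fixingSubgroup = N := by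
  obtain ⟨h1, h2, h3⟩ := h
  have hcl : IsClosed (N : Set (Om ≃ₐ[K] Om)) := N.isClosed_of_isOpen h2
  have e1 : (IntermediateField.fixedField N).fixingSubgroup = N :=
    InfiniteGalois.fixingSubgroup_fixedField ⟨N, hcl⟩
  have hfd : FiniteDimensional K (IntermediateField.fixedField N) := by
    rw [← InfiniteGalois.isOpen_iff_finite, e1]
    exact h2
  have hgal : IsGalois K (IntermediateField.fixedField N) := by
    rw [← InfiniteGalois.normal_iff_isGalois, e1]
    exact h1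
  exact ⟨_, hfd, hgal, by rwa [← index_fixingSubgroup, e1], e1⟩

/-- A homomorphism to `ZMod 2` with open kernel. -/
theorem exists_NN_of_hom {c : (Om ≃ₐ[K] Om) → ZMod 2} (hc : ∀ s t, c (s * t) = c s + c t)
    {U : Subgroup (Om ≃ₐ[K] Om)} (hU : IsOpen (U : Set (Om ≃ₐ[K] Om))) (h0 : ∀ s ∈ U, c s = 0) :
    ∃ N ∈ NN K Om, ∀ s, ∀ n ∈ N, c (s * n) = c s := by
  let f : (Om ≃ₐ[K] Om) →* Multiplicative (ZMod 2) :=
    { toFun := fun s => Multiplicative.ofAdd (c s)
      map_one' := by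
        have h := hc 1 1
        rw [mul_one] at h
        have h1 : c 1 = 0 := left_eq_add.1 h
        rw [h1]; rfl
      map_mul' := fun s t => congrArg Multiplicative.ofAdd (hc s t) }
  have hker : ∀ s, s ∈ f.ker ↔ c s = 0 := fun s => by
    rw [MonoidHom.mem_ker]
    exact Iff.rfl
  have hle : U ≤ f.ker := fun s hs => (hker s).2 (h0 s hs)
  refine ⟨f.ker, ⟨inferInstance, Subgroup.isOpen_mono hle hU, ?_⟩, fun s n hn => ?_⟩
  · rw [Subgroup.index_ker]
    have h1 : Nat.card f.range ∣ Nat.card (Multiplicative (ZMod 2)) :=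
      Subgroup.card_subgroup_dvd_card f.range
    have h3 : Nat.card (Multiplicative (ZMod 2)) = 2 := by
      rw [Nat.card_congr Multiplicative.toAdd, Nat.card_zmod]
    rw [h3] at h1
    rcases (Nat.dvd_prime Nat.prime_two).1 h1 with h | h
    · exact ⟨0, by rw [h, pow_zero]⟩
    · exact ⟨1, by rw [h, pow_one]⟩
  · rw [hc, (hker n).1 hn, add_zero]

end Pool.Agent.GBU

namespace Pool.Agent.GBU

open Pool.Agent.Lib.SmD Pool.Agent.SmD

variable {K Om : Type} [Field K] [Field Om] [Algebra K Om]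

/-- Kummer theory for homomorphisms to `ZMod 2` with open kernel. -/
theorem kummer_open [IsSepClosure K Om] (h2 : (2 : K) ≠ 0) {c : (Om ≃ₐ[K] Om) → ZMod 2}
    (hc : ∀ s t, c (s * t) = c s + c t) {U : Subgroup (Om ≃ₐ[K] Om)}
    (hU : IsOpen (U : Set (Om ≃ₐ[K] Om))) (h0 : ∀ s ∈ U, c s = 0) :
    ∃ f : K, f ≠ 0 ∧ ∀ s, c s = chi K f s := by
  obtain ⟨N, hN, h⟩ := exists_NN_of_hom hc hU h0
  exact Pool.Agent.SmF.kummer h2 ⟨⟨N, hN, h⟩, hc⟩

/-- Kummer theory for `NP`-finite homomorphisms to `ZMod 2`. -/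
theorem kummer_NP [IsSepClosure K Om] (h2 : (2 : K) ≠ 0) {c : (Om ≃ₐ[K] Om) → ZMod 2}
    (hc : ∀ s t, c (s * t) = c s + c t)
    (hfin : ∃ N ∈ NP K Om, ∀ s, ∀ n ∈ N, c (s * n) = c s) :
    ∃ f : K, f ≠ 0 ∧ ∀ s, c s = chi K f s := by
  obtain ⟨N, hN, h⟩ := hfin
  have h1 : c 1 = 0 := by
    have := hc 1 1
    rw [mul_one] at this
    exact left_eq_add.1 this
  refine kummer_open h2 hc (NP.isOpen hN) fun s hs => ?_
  rw [← one_mul s, h 1 s hs, h1]

end Pool.Agent.GBU
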