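import Pool.Agent.Lib.GBU.Eff

/-!
Block GBU: the number of effective divisors in a class, finiteness of `Pic⁰`, sets `S` with trivial
`Pic (O_S)`.
-/

set_option autoImplicit false

namespace Pool.Agent.GBU

open Pool.Agent.BSDFF Pool.Agent.GBC

variable {k K : Type} [Field k] [Field K] [Algebra k K] (G : Geo k K)

include G

omit G in
private theorem card_ne_zero_sub (V : Submodule k K) [Finite k] [Module.Finite k V] :
    Nat.card {u : K // u ∈ V ∧ u ≠ 0} = Nat.card k ^ Module.finrank k V - 1 := by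
  classical
  have h1 : Nat.card V = Nat.card k ^ Module.finrank k V := Module.natCard_eq_pow_finrank
  have hfin : Finite V := Module.finite_of_finite k
  let e : V ≃ Option {u : K // u ∈ V ∧ u ≠ 0} :=
    { toFun := fun u => if h : (u : K) = 0 then none else some ⟨u, u.2, h⟩
      invFun := fun o => match o with
        | none => 0
        | some u => ⟨u.1, u.2.1⟩
      left_inv := fun u => by
        by_cases h : (u : K) = 0
        · simp only [h, dite_true]
          exact Subtype.ext h.symm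
        · simp only [h, dite_false]
      right_inv := fun o => by
        rcases o with _ | u
        · simp
        · simp [u.2.2] }
  have h2 := Nat.card_congr e
  have : Finite {u : K // u ∈ V ∧ u ≠ 0} := Finite.of_injective (fun u => (⟨u.1, u.2.1⟩ : V))
    fun a b h => Subtype.ext (congrArg (fun v : V => (v : K)) h)
  rw [Finite.card_option] at h2
  omega

variable [Finite k]

/-- The number of effective divisors in the class of `D`. -/
theorem card_eff_class (D : Place k K →₀ ℤ) :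
    Nat.card {E : Place k K →₀ ℤ | 0 ≤ E ∧ E - D ∈ Prin k K} *
      (Nat.card k ^ Module.finrank k (LL (0 : Place k K →₀ ℤ)) - 1) =
      Nat.card k ^ Module.finrank k (LL D) - 1 := by
  classical
  have := LL_finite G D
  have := LL_finite G (0 : Place k K →₀ ℤ)
  rw [← card_ne_zero_sub (LL D), ← card_ne_zero_sub (LL (0 : Place k K →₀ ℤ)), ← Nat.card_prod]
  refine Nat.card_congr ?_
  have hu : ∀ E : {E : Place k K →₀ ℤ | 0 ≤ E ∧ E - D ∈ Prin k K}, ∃ u : K, u ≠ 0 ∧
      ∀ w, (E : Place k K →₀ ℤ) w = D w + ord w u := by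
    rintro ⟨E, hE, u, hu, huE⟩
    refine ⟨u, hu, fun w => ?_⟩
    have := huE w
    rw [Finsupp.sub_apply] at this
    change E w = _
    linarith
  choose u hu0 hu using hu
  have hdiv : ∀ x : {x : K // x ∈ LL D ∧ x ≠ 0}, ∃ E : {E : Place k K →₀ ℤ | 0 ≤ E ∧ E - D ∈ Prin k K},
      ∀ w, (E : Place k K →₀ ℤ) w = D w + ord w x.1 := by
    intro x
    obtain ⟨E, h1, h2, h3⟩ := eff_of_mem G x.2.2 x.2.1
    exact ⟨⟨E, h1, h2⟩, h3⟩
  choose dv hdv using hdiv
  refine Equiv.ofBijective (fun p => ⟨p.2.1 * u p.1, ?_, mul_ne_zero p.2.2.2 (hu0 p.1)⟩) ⟨?_, ?_⟩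
  · rw [mem_LL_iff (mul_ne_zero p.2.2.2 (hu0 p.1))]
    intro w
    rw [ord_mul w p.2.2.2 (hu0 p.1), ord_eq_zero G p.2.2.2 p.2.2.1 w, zero_add]
    have h1 := hu p.1 w
    have h2 : (0 : ℤ) ≤ (p.1 : Place k K →₀ ℤ) w := p.1.2.1 w
    linarith
  · intro p p' h
    have h1 : p.2.1 * u p.1 = p'.2.1 * u p'.1 := congrArg Subtype.val h
    have h2 : p.1 = p'.1 := by
      apply Subtype.ext
      ext w
      have h3 := congrArg (ord w) h1
      rw [ord_mul w p.2.2.2 (hu0 p.1), ord_mul w p'.2.2.2 (hu0 p'.1),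
        ord_eq_zero G p.2.2.2 p.2.2.1 w, ord_eq_zero G p'.2.2.2 p'.2.2.1 w] at h3
      have h4 := hu p.1 w
      have h5 := hu p'.1 w
      linarith
    rw [h2] at h1
    have h6 := mul_right_cancel₀ (hu0 p'.1) h1
    exact Prod.ext h2 (Subtype.ext h6)
  · intro x
    have h1 := hdv x
    have h2 := hu (dv x)
    have hord : ∀ w : Place k K, ord w (x.1 / u (dv x)) = 0 := by
      intro w
      rw [ord_div w x.2.2 (hu0 _)]
      have h3 := h1 w
      have h4 := h2 w
      linarith
    refine ⟨⟨dv x, ⟨x.1 / u (dv x), ?_, div_ne_zero x.2.2 (hu0 _)⟩⟩, ?_⟩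
    · rw [mem_LL_iff (div_ne_zero x.2.2 (hu0 _))]
      intro w
      rw [hord w]
      simp
    · apply Subtype.ext
      exact div_mul_cancel₀ _ (hu0 _)

/-- The divisor classes of degree `0`: every divisor of degree `0` is equivalent to one of finitely
many divisors. -/
theorem exists_reps : ∃ R : Set (Place k K →₀ ℤ), R.Finite ∧
    ∀ D : Place k K →₀ ℤ, degD D = 0 → ∃ E ∈ R, D - E ∈ Prin k K := by
  obtain ⟨w₀⟩ := exists_place_geo G
  obtain ⟨C, hC⟩ := G.riemann
  have hd := G.degree_pos w₀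
  have hd' : (1 : ℤ) ≤ w₀.degree := by exact_mod_cast hd
  let E₀ : Place k K →₀ ℤ := Finsupp.single w₀ (|C| + 1)
  have hE₀ : C < degD E₀ := by
    rw [degD_single]
    have h1 := le_abs_self C
    have h2 := abs_nonneg C
    nlinarith
  refine ⟨(fun F => F - E₀) '' {F : Place k K →₀ ℤ | 0 ≤ F ∧ degD F = degD E₀},
    (finite_eff G _).image _, fun D hD => ?_⟩
  obtain ⟨u, hu, hu'⟩ := hC (-(D + E₀)) (by
    rw [degD_neg, neg_neg, degD_add, hD, zero_add]
    exact hE₀)
  have hmem : u ∈ LL (D + E₀) := by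
    rw [mem_LL_iff hu]
    intro w
    exact hu' w
  obtain ⟨F, h1, h2, _⟩ := eff_of_mem G hu hmem
  refine ⟨F - E₀, ⟨F, ⟨h1, ?_⟩, rfl⟩, ?_⟩
  · rw [degD_congr G h2, degD_add, hD, zero_add]
  · have h3 : D - (F - E₀) = -(F - (D + E₀)) := by abel
    rw [h3]
    exact (Prin k K).neg_mem h2

/-- `Pic⁰` is finite. -/
theorem finite_pic0 : Finite ((degHom k K).ker ⧸ (Prin k K).addSubgroupOf (degHom k K).ker) := by
  obtain ⟨R, hR, hR'⟩ := exists_reps G
  have : Finite R := hR
  have h : ∀ c : (degHom k K).ker ⧸ (Prin k K).addSubgroupOf (degHom k K).ker, ∃ E : R,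
      ∀ D : (degHom k K).ker, (QuotientAddGroup.mk D : (degHom k K).ker ⧸
        (Prin k K).addSubgroupOf (degHom k K).ker) = c → (D : Place k K →₀ ℤ) - E ∈ Prin k K := by
    intro c
    obtain ⟨D, rfl⟩ := QuotientAddGroup.mk_surjective c
    obtain ⟨E, hE, hDE⟩ := hR' D D.2
    refine ⟨⟨E, hE⟩, fun D' h => ?_⟩
    rw [eq_comm, QuotientAddGroup.eq, AddSubgroup.mem_addSubgroupOf] at h
    have h3 : (D' : Place k K →₀ ℤ) - E = (-D + D' : Place k K →₀ ℤ) + (D - E) := by abel
    rw [h3]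
    exact (Prin k K).add_mem h hDE
  choose f hf using h
  refine Finite.of_injective f ?_
  intro c c' h
  obtain ⟨D, rfl⟩ := QuotientAddGroup.mk_surjective c
  obtain ⟨D', rfl⟩ := QuotientAddGroup.mk_surjective c'
  rw [QuotientAddGroup.eq, AddSubgroup.mem_addSubgroupOf]
  have h1 := hf _ D rfl
  have h2 := hf _ D' rfl
  rw [h] at h1
  have h3 : ((-D + D' : (degHom k K).ker) : Place k K →₀ ℤ) = (D' - f (QuotientAddGroup.mk D')) -
      (D - f (QuotientAddGroup.mk D')) := by
    rw [AddSubgroup.coe_add, AddSubgroup.coe_neg]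
    abel
  rw [h3]
  exact (Prin k K).sub_mem h2 h1

/-- For every finite set `T` of places there is a finite set `S ⊇ T` with trivial `Pic (O_S)`. -/
theorem exists_S (T : Set (Place k K)) (hT : T.Finite) :
    ∃ S : Set (Place k K), S.Finite ∧ T ⊆ S ∧ S.Nonempty ∧ PrinOut S := by
  classical
  obtain ⟨w₀⟩ := exists_place_geo G
  obtain ⟨R, hR, hR'⟩ := exists_reps G
  -- a divisor whose degree generates the degrees
  obtain ⟨d, hd⟩ : ∃ d, (degHom k K).range = AddSubgroup.zmultiples d := by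
    obtain ⟨d, hd⟩ := Int.subgroup_cyclic (degHom k K).range
    exact ⟨d, by rw [hd, AddSubgroup.zmultiples_eq_closure]⟩
  obtain ⟨E, hE⟩ : ∃ E, degD E = d := by
    have : d ∈ (degHom k K).range := by
      rw [hd]
      exact AddSubgroup.mem_zmultiples d
    exact this
  refine ⟨T ∪ {w₀} ∪ (E.support : Set (Place k K)) ∪ ⋃ F ∈ R, (F.support : Set (Place k K)),
    ?_, ?_, ⟨w₀, ?_⟩, fun D => ?_⟩
  · refine Set.Finite.union (Set.Finite.union (hT.union (Set.finite_singleton _))
      (Finset.finite_toSet _)) ?_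
    exact hR.biUnion fun F _ => Finset.finite_toSet _
  · intro w hw
    exact Or.inl (Or.inl (Or.inl hw))
  · exact Or.inl (Or.inl (Or.inr rfl))
  · have h1 : degD D ∈ (degHom k K).range := ⟨D, rfl⟩
    rw [hd] at h1
    obtain ⟨n, hn⟩ := AddSubgroup.mem_zmultiples_iff.1 h1
    have h2 : degD (D - n • E) = 0 := by
      rw [degD_sub, degD_zsmul, hE, ← hn]
      simp
    obtain ⟨F, hF, x, hx, hxF⟩ := hR' _ h2
    refine ⟨x, hx, fun w hw => ?_⟩
    have h3 := hxF w
    have h4 : E w = 0 := by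
      by_contra h
      exact hw (Or.inl (Or.inr (Finsupp.mem_support_iff.2 h)))
    have h5 : F w = 0 := by
      by_contra h
      exact hw (Or.inr (Set.mem_biUnion hF (Finsupp.mem_support_iff.2 h)))
    rw [← h3, Finsupp.sub_apply, Finsupp.sub_apply, Finsupp.smul_apply, h4, h5]
    simp

omit G [Finite k] in
theorem PrinOut.mono {S S' : Set (Place k K)} (h : PrinOut S) (hS : S ⊆ S') : PrinOut S' :=
  fun D => by
    obtain ⟨x, hx, h1⟩ := h D
    exact ⟨x, hx, fun w hw => h1 w fun h => hw (hS h)⟩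

end Pool.Agent.GBU
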