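import Pool.Agent.Lib.BSDK.LocK
import Pool.Agent.Lib.SmD.LocDvr
import Pool.Agent.Lib.GBC.P.Ord
import Pool.Agent.Lib.GBR.Recip2

/-!
Block GBU: an embedding of a finite extension `L` of `K` in the completion of `K` at `w` gives a place of
`L` above `w` of the same degree.
-/

set_option autoImplicit false

open IsLocalRing

namespace Pool.Agent.GBU

open Pool.Agent.BSDFF Pool.Agent.GBC Pool.Agent.Lib.SmD

variable {k K L : Type} [Field k] [Field K] [Algebra k K] [Field L] [Algebra k L] [Algebra K L]
  [IsScalarTower k K L]

omit [Algebra K L] [IsScalarTower k K L] in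
/-- degrees of places with the same residue field -/
theorem degree_eq_of_equiv (w : Place k K) (v : Place k L)
    (f : ResidueField w.ring →+* ResidueField v.ring) (hf : Function.Bijective f)
    (h : ∀ c : k, f (w.constMap c) = v.constMap c) : v.degree = w.degree := by
  let a1 : Algebra k (ResidueField w.ring) := w.constMap.toAlgebra
  let a2 : Algebra k (ResidueField v.ring) := v.constMap.toAlgebra
  have e : ResidueField w.ring ≃ₗ[k] ResidueField v.ring :=
    LinearEquiv.ofBijective
      { toFun := f
        map_add' := map_add f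
        map_smul' := fun c x => by
          rw [RingHom.id_apply, Algebra.smul_def, map_mul, Algebra.smul_def]
          congr 1
          exact h c } hf
  exact e.finrank_eq.symm

section pull

variable (w : Place k K) (A : BSDK.LocAt w) (ι : L →+* w.ring.valuation.Completion)
  (hι : ∀ x : K, ι (algebraMap K L x) = w.toCompletion x)

private theorem O_unit {x : w.ring.valuation.Completion} (hx : x ≠ 0) :
    A.O.valuation x = 1 ↔ x ∈ A.O ∧ x⁻¹ ∈ A.O := by
  rw [← ValuationSubring.valuation_le_one_iff, ← ValuationSubring.valuation_le_one_iff, map_inv₀]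
  have h0 : A.O.valuation x ≠ 0 := (Valuation.ne_zero_iff _).2 hx
  constructor
  · intro h
    rw [h, inv_one]
    exact ⟨le_refl _, le_refl _⟩
  · rintro ⟨h1, h2⟩
    refine le_antisymm h1 ?_
    by_contra h
    rw [not_le] at h
    have := (one_lt_inv₀ (zero_lt_iff.2 h0)).2 h
    exact absurd h2 (not_le.2 this)

private theorem val_unit {x : K} (hx : w.ring.valuation x = 1) :
    A.O.valuation (w.toCompletion x) = 1 := by
  have hx0 : x ≠ 0 := by
    rintro rfl
    rw [map_zero] at hx
    exact zero_ne_one hx
  rw [O_unit w A ((map_ne_zero _).2 hx0), ← map_inv₀, A.mem_iff, A.mem_iff,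
    ← ValuationSubring.valuation_le_one_iff, ← ValuationSubring.valuation_le_one_iff, map_inv₀, hx,
    inv_one]
  exact ⟨le_refl _, le_refl _⟩

/-- the values of `K` in the completion -/
theorem val_compU {x : K} (hx : x ≠ 0) : A.O.valuation (w.toCompletion x) =
    A.O.valuation (w.toCompletion (unif w : K)) ^ ord w x := by
  have hu : (unif w : K) ≠ 0 := fun h => (unif_irreducible w).ne_zero (Subtype.ext h)
  have h1 : w.ring.valuation (x * ((unif w : K) ^ ord w x)⁻¹) = 1 := by
    rw [map_mul, map_inv₀, map_zpow₀, ← val_eq w hx]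
    exact mul_inv_cancel₀ ((Valuation.ne_zero_iff _).2 hx)
  have h2 := val_unit w A h1
  rw [map_mul, map_mul, map_inv₀, map_inv₀, map_zpow₀, map_zpow₀] at h2
  have h3 : A.O.valuation (w.toCompletion (unif w : K)) ^ ord w x ≠ 0 :=
    zpow_ne_zero _ ((Valuation.ne_zero_iff _).2 ((map_ne_zero _).2 hu))
  rw [← div_eq_mul_inv, div_eq_one_iff_eq h3] at h2
  exact h2

/-- elements of the completion are close to elements of `K` -/
theorem exists_val_eq {x : w.ring.valuation.Completion} (hx : x ≠ 0) :
    ∃ y : K, y ≠ 0 ∧ A.O.valuation (x - w.toCompletion y) < A.O.valuation x ∧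
      A.O.valuation (w.toCompletion y) = A.O.valuation x := by
  obtain ⟨y, hy⟩ := A.dense x x hx
  have h1 : A.O.valuation (w.toCompletion y) = A.O.valuation x := by
    have h2 : w.toCompletion y = x - (x - w.toCompletion y) := by ring
    rw [h2]
    exact Valuation.map_sub_eq_of_lt_left _ hy
  refine ⟨y, ?_, hy, h1⟩
  rintro rfl
  rw [map_zero, map_zero] at h1
  exact hx ((Valuation.zero_iff _).1 h1.symm)

include hι in
/-- The place of `L` given by an embedding of `L` in the completion of `K` at `w`. -/
theorem exists_pull (hfin : Finite (ResidueField w.ring)) : ∃ v : Place k L, (∀ x, x ∈ v.ring ↔ ι x ∈ A.O) ∧ v.degree = w.degree := by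
  let _ : Algebra L w.ring.valuation.Completion := ι.toAlgebra
  have hmap : ∀ x, algebraMap L w.ring.valuation.Completion x = ι x := fun x => rfl
  have hu : (unif w : K) ≠ 0 := fun h => (unif_irreducible w).ne_zero (Subtype.ext h)
  have hmem : ∀ x : L, x ∈ below L A.O ↔ ι x ∈ A.O := fun x => Iff.rfl
  have hK : ∀ x : K, algebraMap K L x ∈ below L A.O ↔ x ∈ w.ring := by
    intro x
    rw [hmem, hι, A.mem_iff]
  -- the residue fields
  let g : w.ring →+* below L A.O :=
    ((algebraMap K L).comp w.ring.subtype).codRestrict (below L A.O).toSubring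
      (fun x => (hK x).2 x.2)
  have hg : ∀ x : w.ring, ((g x : below L A.O) : L) = algebraMap K L x := fun x => rfl
  have hloc : IsLocalHom g := by
    refine ⟨fun x hx => ?_⟩
    have hx0 : (x : K) ≠ 0 := by
      intro h
      have : g x = 0 := by
        apply Subtype.ext
        rw [hg, h, map_zero]
        rfl
      rw [this] at hx
      exact not_isUnit_zero hx
    have hx := (ValuationSubring.valuation_eq_one_iff _ _).1 hx
    rw [ValuationSubring.valuation_eq_one_iff]
    have h2 : ((g x : below L A.O) : L)⁻¹ ∈ below L A.O := by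
      rw [← ValuationSubring.valuation_le_one_iff, map_inv₀, hx, inv_one]
    rw [hg, ← map_inv₀, hK] at h2
    refine le_antisymm ((ValuationSubring.valuation_le_one_iff _ _).2 x.2) ?_
    rw [← ValuationSubring.valuation_le_one_iff, map_inv₀] at h2
    by_contra h
    rw [not_le] at h
    have := (one_lt_inv₀ (zero_lt_iff.2 ((Valuation.ne_zero_iff _).2 hx0))).2 h
    exact absurd h2 (not_le.2 this)
  let f : ResidueField w.ring →+* ResidueField (below L A.O) := ResidueField.map g
  have hfsurj : Function.Surjective f := by
    intro y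
    obtain ⟨y, rfl⟩ := IsLocalRing.residue_surjective y
    obtain ⟨a, ha⟩ := A.dense (ι y) 1 one_ne_zero
    rw [map_one] at ha
    have haO : w.toCompletion a ∈ A.O := by
      have h2 : w.toCompletion a = ι y - (ι y - w.toCompletion a) := by ring
      rw [h2]
      refine sub_mem y.2 ?_
      exact (ValuationSubring.valuation_le_one_iff _ _).1 ha.le
    refine ⟨IsLocalRing.residue _ ⟨a, (A.mem_iff a).1 haO⟩, ?_⟩
    change ResidueField.map g (IsLocalRing.residue _ _) = _
    rw [ResidueField.map_residue, eq_comm, ← sub_eq_zero, ← map_sub, residue_eq_zero_iff,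
      ValuationSubring.valuation_lt_one_iff]
    by_contra h
    rw [not_lt] at h
    have h3 : (y : L) - algebraMap K L a ≠ 0 := by
      intro h0
      have h4 : (((y - g ⟨a, (A.mem_iff a).1 haO⟩ : below L A.O)) : L) = 0 := h0
      rw [h4, map_zero] at h
      exact absurd h (not_le.2 zero_lt_one)
    have h5 : ((y : L) - algebraMap K L a)⁻¹ ∈ below L A.O := by
      rw [← ValuationSubring.valuation_le_one_iff, map_inv₀]
      exact inv_le_one_of_one_le₀ h
    rw [hmem, map_inv₀, map_sub, hι, ← ValuationSubring.valuation_le_one_iff, map_inv₀] at h5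
    have h6 : ι (y : L) - w.toCompletion a ≠ 0 := by
      rw [← hι, ← map_sub]
      exact (map_ne_zero ι).2 h3
    have := (one_lt_inv₀ (zero_lt_iff.2 ((Valuation.ne_zero_iff A.O.valuation).2 h6))).2 ha
    exact absurd h5 (not_le.2 this)
  have hfinO : Finite (ResidueField A.O) := A.fin
  have hH : LocHyp L A.O (algebraMap K L (unif w : K)) := by
    refine ⟨(map_ne_zero _).2 hu, ?_, ?_, ?_, A.two⟩
    · rw [hmap, hι, A.lt_iff]
      exact (w.ring.valuation_lt_one_iff _).mp
        ((IsLocalRing.mem_maximalIdeal _).mpr (unif_irreducible w).not_isUnit)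
    · intro x hx
      obtain ⟨y, hy, _, h1⟩ := exists_val_eq w A (x := ι x) ((map_ne_zero ι).2 hx)
      refine ⟨ord w y, ?_⟩
      rw [hmap, hmap, hι, ← h1]
      exact val_compU w A hy
    · exact Finite.of_surjective f hfsurj
  refine ⟨{ ring := below L A.O
            const_mem := fun c => ?_
            dvr := hH.isDiscreteValuationRing }, fun x => Iff.rfl, ?_⟩
  · rw [IsScalarTower.algebraMap_apply k K L, hK]
    exact w.const_mem c
  · refine degree_eq_of_equiv w _ f ⟨f.injective, hfsurj⟩ ?_
    intro c
    change ResidueField.map g (IsLocalRing.residue _ _) = _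
    rw [ResidueField.map_residue]
    change IsLocalRing.residue _ _ = IsLocalRing.residue _ _
    congr 1
    apply Subtype.ext
    exact (IsScalarTower.algebraMap_apply k K L c).symm

end pull

end Pool.Agent.GBU
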