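import Pool.Agent.Lib.GBU.Plc
import Pool.Agent.Lib.GBU.Even

/-!
# GBU (SMITH-U): the local symbol

`symK v x y = x₁ y₂ + x₂ y₁ + ε_v x₁ y₁` on pairs of values at (tame inertia generator, Frobenius).
For the quadratic characters of `a, b ∈ K ˣ` it vanishes iff `x² = a y² + b z²` has a nontrivial
solution in the completion at `v`. The character of `a` vanishes on both elements iff `a` is a
square in the completion.
-/

set_option autoImplicit false

open IsLocalRing

namespace Pool.Agent.GBU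

open Pool.Agent.BSDFF Pool.Agent.Lib.SmD Pool.Agent.GBC Pool.Agent.GBR

private theorem Sym_zmod2 {a b : ZMod 2} (h : a = 0 ↔ b = 0) : a = b := by
  revert a b
  decide

private theorem Sym_neg_one_square {F : Type} [Field F] [Finite F] (h2 : (2 : F) ≠ 0) :
    IsSquare (-1 : F) ↔ (((Nat.card F - 1) / 2 : ℕ) : ZMod 2) = 0 := by
  have := Fintype.ofFinite F
  rw [FiniteField.isSquare_neg_one_iff, ← Nat.card_eq_fintype_card,
    ZMod.natCast_eq_zero_iff]
  have hodd : Nat.card F % 2 = 1 := by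
    rw [Nat.card_eq_fintype_card]
    apply FiniteField.odd_card_of_char_ne_two
    intro h
    apply h2
    have := CharP.cast_eq_zero F (ringChar F)
    rw [h] at this
    exact_mod_cast this
  omega

private theorem Sym_sq {F : Type} [Field F] {x s : F} (hs : s ≠ 0) :
    IsSquare (x * s ^ 2) ↔ IsSquare x := by
  constructor
  · rintro ⟨y, hy⟩
    refine ⟨y / s, ?_⟩
    field_simp
    rw [hy, sq]
  · rintro ⟨y, rfl⟩
    exact ⟨y * s, by ring⟩

/-- The local symbol on pairs of values. -/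
noncomputable def symK {k K : Type} [Field k] [Field K] [Algebra k K] (v : Place k K)
    (x y : ZMod 2 × ZMod 2) : ZMod 2 :=
  x.1 * y.2 + x.2 * y.1 + epsK v * (x.1 * y.1)

section chi

variable {k K : Type} [Field k] [Field K] [Algebra k K] {Om : Type} [Field Om] [Algebra K Om]
  {v : Place k K} {σ φ : Om ≃ₐ[K] Om}

theorem val_one_iff_unit (u : v.ring) : IsUnit u ↔ (u : K) ≠ 0 ∧ ord v (u : K) = 0 := by
  rw [ValuationSubring.valuation_eq_one_iff]
  constructor
  · intro h
    have h0 : (u : K) ≠ 0 := by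
      intro h0
      rw [h0, map_zero] at h
      exact zero_ne_one h
    exact ⟨h0, (val_eq_one_iff v h0).1 h⟩
  · rintro ⟨h0, h⟩
    exact (val_eq_one_iff v h0).2 h

theorem LVal.sg_of_ord (h : LVal v σ φ) {f : K} (hf : f ≠ 0) (h0 : ord v f = 0) :
    chi K f σ = 0 :=
  h.sg_unit f hf ((mem_ring_iff v hf).2 h0.ge)
    ((mem_ring_iff v (inv_ne_zero hf)).2 (by rw [ord_inv v hf, h0, neg_zero]))

theorem LVal.sg_unif' (h : LVal v σ φ) : chi K (unif v : K) σ = 1 := h.sg_unif _ (unif_irreducible v)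

theorem LVal.ph_of_ord (h : LVal v σ φ) {f : K} (hf : f ≠ 0) (h0 : ord v f = 0)
    (hm : f ∈ v.ring) : chi K f φ = 0 ↔ IsSquare (residue v.ring ⟨f, hm⟩) :=
  h.ph_unit ⟨f, hm⟩ ((val_one_iff_unit _).2 ⟨hf, h0⟩)

theorem unifK_ne (v : Place k K) : (unif v : K) ≠ 0 := fun h =>
  (unif_irreducible v).ne_zero (Subtype.ext h)

variable [IsSepClosure K Om]

/-- `chi f σ` is the order of `f` modulo `2`. -/
theorem LVal.chi_sg (h2 : (2 : K) ≠ 0) (h : LVal v σ φ) {f : K} (hf : f ≠ 0) :
    chi K f σ = (ord v f : ZMod 2) := by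
  have hu := unifK_ne v
  have h1 : f = (f / (unif v : K) ^ ord v f) * (unif v : K) ^ ord v f := by
    rw [div_mul_cancel₀ _ (zpow_ne_zero _ hu)]
  have h3 : f / (unif v : K) ^ ord v f ≠ 0 := div_ne_zero hf (zpow_ne_zero _ hu)
  have h4 : ord v (f / (unif v : K) ^ ord v f) = 0 := by
    rw [ord_div v hf (zpow_ne_zero _ hu), ord_zpow v hu, ord_unif, mul_one, sub_self]
  conv_lhs => rw [h1]
  rw [Pool.Agent.SmF.chi_mul_elt h2 h3 (zpow_ne_zero _ hu), h.sg_of_ord h3 h4,
    Pool.Agent.SmF.chi_zpow h2 hu, h.sg_unif', zero_add, mul_one]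

theorem LVal.chi_sg_eq_zero_iff (h2 : (2 : K) ≠ 0) (h : LVal v σ φ) {f : K} (hf : f ≠ 0) :
    chi K f σ = 0 ↔ Even (ord v f) := by
  rw [h.chi_sg h2 hf, ZMod.intCast_zmod_eq_zero_iff_dvd, Nat.cast_ofNat, even_iff_two_dvd]

omit [IsSepClosure K Om] in
theorem LVal.eps_eq [Finite k] [Algebra (RatFunc k) K] [IsScalarTower k (RatFunc k) K]
    [FiniteDimensional (RatFunc k) K] (h : LVal v σ φ) (h2 : (2 : k) ≠ 0) :
    chi K (-1 : K) φ = epsK v := by
  have hfin := BSDK.residue_finite v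
  have h2' : (2 : ResidueField v.ring) ≠ 0 := by
    intro h
    apply h2
    apply v.constMap.injective
    rw [map_ofNat, h, map_zero]
  apply Sym_zmod2
  unfold epsK qK
  rw [← Sym_neg_one_square h2']
  have h1 := h.ph_unit (-1) isUnit_one.neg
  rw [map_neg, map_one] at h1
  exact h1

end chi

section split

variable {k K : Type} [Field k] [Field K] [Algebra k K]

/-- An element of even order is a unit times a square. -/
theorem exists_unit_sq (v : Place k K) {a : K} (ha : a ≠ 0) (he : Even (ord v a)) :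
    ∃ u s : K, u ≠ 0 ∧ s ≠ 0 ∧ ord v u = 0 ∧ a = u * s ^ 2 := by
  obtain ⟨m, hm⟩ := he
  have hu := unifK_ne v
  have hs : (unif v : K) ^ m ≠ 0 := zpow_ne_zero _ hu
  refine ⟨a / ((unif v : K) ^ m) ^ 2, (unif v : K) ^ m, div_ne_zero ha (pow_ne_zero _ hs), hs, ?_,
    (div_mul_cancel₀ _ (pow_ne_zero _ hs)).symm⟩
  rw [ord_div v ha (pow_ne_zero _ hs), ord_pow v hs, ord_zpow v hu, ord_unif, hm]
  push_cast
  ring

end split

section local_

variable {k K : Type} [Field k] [Finite k] [Field K] [Algebra k K] [Algebra (RatFunc k) K]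
  [IsScalarTower k (RatFunc k) K] [FiniteDimensional (RatFunc k) K]

/-- The completion as a `LocK`. -/
noncomputable def locK (h2 : (2 : k) ≠ 0) (v : Place k K) : LocK v :=
  { (BSDK.locAt h2 v).toLoc with
    mem_iff := (BSDK.locAt h2 v).mem_iff
    lt_iff := (BSDK.locAt h2 v).lt_iff
    dense := (BSDK.locAt h2 v).dense }

theorem valK_comp (h2 : (2 : k) ≠ 0) (v : Place k K) {x : K} (hx : x ≠ 0) :
    (locK h2 v).O.valuation (v.toCompletion x) =
      (locK h2 v).O.valuation (locK h2 v).pi ^ ord v x := by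
  rw [(locK h2 v).toLoc.val_eq ((_root_.map_ne_zero _).2 hx), ord_loc (locK h2 v) hx]

/-- Units of `v.ring`: squares in the completion and in the residue field. -/
theorem isSquare_comp_unit (h2 : (2 : k) ≠ 0) (v : Place k K) {u : K} (hu : u ≠ 0)
    (h0 : ord v u = 0) (hm : u ∈ v.ring) :
    IsSquare (v.toCompletion u) ↔ IsSquare (residue v.ring ⟨u, hm⟩) := by
  set L := locK h2 v with hL
  have hV : L.O.valuation (v.toCompletion u) = 1 := by
    rw [hL, valK_comp h2 v hu, h0, zpow_zero]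
  have hle : ∀ a : K, a ∈ v.ring → L.O.valuation (v.toCompletion a) ≤ 1 := fun a ha => by
    rw [L.O.valuation_le_one_iff, L.mem_iff]
    exact ha
  have hres : ∀ a b : v.ring, residue v.ring a = residue v.ring b ↔
      v.ring.valuation ((a : K) - (b : K)) < 1 := by
    intro a b
    rw [← sub_eq_zero, ← map_sub, residue_eq_zero_iff, ValuationSubring.valuation_lt_one_iff]
    rfl
  constructor
  · rintro ⟨y, hy⟩
    have hy1 : L.O.valuation y ≤ 1 := by
      by_contra hcon
      rw [not_le] at hcon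
      have h3 : L.O.valuation y * L.O.valuation y = 1 := by rw [← map_mul, ← hy, hV]
      have h4 : (1 : L.O.ValueGroup) < L.O.valuation y * L.O.valuation y := by
        calc (1 : L.O.ValueGroup) < L.O.valuation y := hcon
          _ = 1 * L.O.valuation y := (one_mul _).symm
          _ ≤ L.O.valuation y * L.O.valuation y := mul_le_mul_left hcon.le _
      exact absurd h3 h4.ne'
    obtain ⟨a, ha⟩ := L.dense y 1 one_ne_zero
    rw [map_one] at ha
    have ha1 : a ∈ v.ring := by
      rw [← L.mem_iff, ← ValuationSubring.valuation_le_one_iff]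
      have : v.toCompletion a = y - (y - v.toCompletion a) := by ring
      rw [this]
      exact (Valuation.map_sub _ _ _).trans (max_le hy1 ha.le)
    refine ⟨residue v.ring ⟨a, ha1⟩, ?_⟩
    rw [← map_mul, hres, ← L.lt_iff]
    have h3 : v.toCompletion (((⟨u, hm⟩ : v.ring) : K) - ((⟨a, ha1⟩ * ⟨a, ha1⟩ : v.ring) : K)) =
        (y - v.toCompletion a) * (y + v.toCompletion a) := by
      change v.toCompletion (u - a * a) = _
      rw [map_sub, map_mul, hy]
      ring
    rw [h3, map_mul]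
    exact mul_lt_one_of_lt_of_le ha ((Valuation.map_add _ _ _).trans (max_le hy1 (hle a ha1)))
  · rintro ⟨r, hr⟩
    obtain ⟨s, rfl⟩ := residue_surjective r
    rw [← map_mul, hres, ← L.lt_iff] at hr
    have h3 : v.toCompletion (((⟨u, hm⟩ : v.ring) : K) - ((s * s : v.ring) : K)) =
        v.toCompletion u - v.toCompletion (s : K) ^ 2 := by
      change v.toCompletion (u - (s : K) * (s : K)) = _
      rw [map_sub, map_mul, sq]
    rw [h3] at hr
    refine BSDP.R.isSquare_of_near_sq L.toLoc _ (v.toCompletion (s : K)) ?_ hr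
    refine le_antisymm (hle _ s.2) (not_lt.1 fun h4 => ?_)
    have h5 : L.O.valuation (v.toCompletion (s : K) ^ 2) < 1 := by
      rw [map_pow]
      exact pow_lt_one₀ zero_le h4 two_ne_zero
    have h6 : L.O.valuation (v.toCompletion u) < 1 := by
      have : v.toCompletion u = (v.toCompletion u - v.toCompletion (s : K) ^ 2) +
          v.toCompletion (s : K) ^ 2 := by ring
      rw [this]
      exact lt_of_le_of_lt (Valuation.map_add _ _ _) (max_lt hr h5)
    rw [hV] at h6
    exact lt_irrefl _ h6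

/-- The symbol when `ord a` is even. -/
theorem iso2_evenK (h2 : (2 : k) ≠ 0) (v : Place k K) {a b : K} (ha : a ≠ 0) (hb : b ≠ 0)
    (he : Even (ord v a)) :
    Iso2 v a b ↔ Even (ord v b) ∨ IsSquare (v.toCompletion a) := by
  set L := locK h2 v with hL
  have hLS := BSDP.R.locSq_of_loc L.toLoc
  have hA : v.toCompletion a ≠ 0 := (_root_.map_ne_zero _).2 ha
  have hB : v.toCompletion b ≠ 0 := (_root_.map_ne_zero _).2 hb
  have hVa : L.O.valuation (v.toCompletion a) = L.O.valuation L.pi ^ ord v a := valK_comp h2 v ha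
  have hVb : L.O.valuation (v.toCompletion b) = L.O.valuation L.pi ^ ord v b := valK_comp h2 v hb
  have hform : Iso2 v a b ↔ ∃ x y z : v.ring.valuation.Completion, (x ≠ 0 ∨ y ≠ 0 ∨ z ≠ 0) ∧
      -v.toCompletion b * x ^ 2 + 1 * y ^ 2 + -v.toCompletion a * z ^ 2 = 0 := by
    constructor
    · rintro ⟨x, y, z, h, he⟩
      refine ⟨z, x, y, by tauto, ?_⟩
      rw [he]
      ring
    · rintro ⟨z, x, y, h, he⟩
      refine ⟨x, y, z, by tauto, ?_⟩
      linear_combination he
  have hs : BSDP.R.SameClass L.O.valuation (-v.toCompletion b) 1 ↔ Even (ord v b) := by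
    unfold BSDP.R.SameClass
    simp only [mul_one, Valuation.map_neg, hVb]
    constructor
    · rintro ⟨s, hs⟩
      have hs0 : s ≠ 0 := by
        rintro rfl
        rw [map_zero, zero_pow two_ne_zero] at hs
        exact zpow_ne_zero _ ((Valuation.ne_zero_iff _).2 L.pi_ne) hs
      rw [L.toLoc.val_eq hs0, ← zpow_natCast, ← zpow_mul] at hs
      have hanti : StrictAnti (fun n : ℤ => L.O.valuation L.pi ^ n) :=
        zpow_right_strictAnti₀ (zero_lt_iff.2 ((Valuation.ne_zero_iff _).2 L.pi_ne)) L.toLoc.pi_lt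
      have h3 := hanti.injective hs
      rw [h3, Nat.cast_ofNat, mul_comm]
      exact even_two_mul _
    · rintro ⟨m, hm⟩
      refine ⟨L.pi ^ m, ?_⟩
      rw [hm, map_zpow₀, ← zpow_natCast, ← zpow_mul]
      congr 1
      push_cast
      ring
  have h1a : BSDP.R.SameClass L.O.valuation 1 (-v.toCompletion a) := by
    obtain ⟨m, hm⟩ := he
    refine ⟨L.pi ^ m, ?_⟩
    rw [one_mul, Valuation.map_neg, hVa, hm, map_zpow₀, ← zpow_natCast, ← zpow_mul]
    congr 1
    push_cast
    ring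
  rw [hform]
  by_cases hev : Even (ord v b)
  · exact iff_of_true (hLS.iso_same (neg_ne_zero.2 hB) one_ne_zero (neg_ne_zero.2 hA)
      (hs.2 hev) h1a) (Or.inl hev)
  · rw [hLS.iso_ram (neg_ne_zero.2 hB) one_ne_zero (neg_ne_zero.2 hA)
      (fun h => hev (hs.1 h)) h1a, one_mul, neg_neg]
    exact ⟨Or.inr, fun h => h.resolve_left hev⟩

theorem even_of_isSquare_comp (h2 : (2 : k) ≠ 0) (v : Place k K) {a : K} (ha : a ≠ 0)
    (h : IsSquare (v.toCompletion a)) : Even (ord v a) := by
  set L := locK h2 v with hL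
  obtain ⟨s, hs⟩ := h
  have hs0 : s ≠ 0 := by
    rintro rfl
    rw [mul_zero] at hs
    exact (_root_.map_ne_zero v.toCompletion).2 ha hs
  have h1 : L.O.valuation L.pi ^ ord v a = L.O.valuation L.pi ^ (L.toLoc.ord s + L.toLoc.ord s) := by
    have h3 : L.O.valuation (v.toCompletion a) = L.O.valuation L.pi ^ ord v a := valK_comp h2 v ha
    rw [← h3, hs, map_mul, L.toLoc.val_eq hs0, ← zpow_add₀ ((Valuation.ne_zero_iff _).2 L.pi_ne)]
  have hanti : StrictAnti (fun n : ℤ => L.O.valuation L.pi ^ n) :=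
    zpow_right_strictAnti₀ (zero_lt_iff.2 ((Valuation.ne_zero_iff _).2 L.pi_ne)) L.toLoc.pi_lt
  rw [hanti.injective h1]
  exact ⟨_, rfl⟩

end local_

section main

variable {k K : Type} [Field k] [Finite k] [Field K] [Algebra k K] [Algebra (RatFunc k) K]
  [IsScalarTower k (RatFunc k) K] [FiniteDimensional (RatFunc k) K] {Om : Type} [Field Om]
  [Algebra K Om] [IsSepClosure K Om] {v : Place k K} {σ φ : Om ≃ₐ[K] Om}

omit [Algebra (RatFunc k) K] [IsScalarTower k (RatFunc k) K] [FiniteDimensional (RatFunc k) K]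
  [Finite k] in
theorem two_ne_K (h2 : (2 : k) ≠ 0) : (2 : K) ≠ 0 := by
  intro h
  apply h2
  apply (algebraMap k K).injective
  rw [map_ofNat, h, map_zero]

theorem LVal.isSquare_iff_of_even (h2 : (2 : k) ≠ 0) (h : LVal v σ φ) {a : K} (ha : a ≠ 0)
    (he : Even (ord v a)) : IsSquare (v.toCompletion a) ↔ chi K a φ = 0 := by
  have h2' : (2 : K) ≠ 0 := two_ne_K h2
  obtain ⟨u, s, hu, hs, hu0, rfl⟩ := exists_unit_sq v ha he
  have hm : u ∈ v.ring := (mem_ring_iff v hu).2 hu0.ge
  rw [map_mul, map_pow, Sym_sq ((_root_.map_ne_zero v.toCompletion).2 hs),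
    Pool.Agent.SmF.chi_mul_elt h2' hu (pow_ne_zero _ hs), Pool.Agent.SmF.chi_sq h2' hs, add_zero,
    isSquare_comp_unit h2 v hu hu0 hm, h.ph_of_ord hu hu0 hm]

/-- `a` is a square in the completion at `v` iff its character vanishes at `σ` and `φ`. -/
theorem LVal.isSquare_iff (h2 : (2 : k) ≠ 0) (h : LVal v σ φ) {a : K} (ha : a ≠ 0) :
    IsSquare (v.toCompletion a) ↔ chi K a σ = 0 ∧ chi K a φ = 0 := by
  have h2' : (2 : K) ≠ 0 := two_ne_K h2
  have key : Even (ord v a) → (IsSquare (v.toCompletion a) ↔ chi K a φ = 0) :=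
    h.isSquare_iff_of_even h2 ha
  constructor
  · intro h1
    have h3 := even_of_isSquare_comp h2 v ha h1
    exact ⟨(h.chi_sg_eq_zero_iff h2' ha).2 h3, (key h3).1 h1⟩
  · rintro ⟨h1, h3⟩
    exact (key ((h.chi_sg_eq_zero_iff h2' ha).1 h1)).2 h3

/-- The symbol of two quadratic characters vanishes iff the quaternion algebra splits. -/
theorem LVal.sym_eq_zero_iff (h2 : (2 : k) ≠ 0) (h : LVal v σ φ) {a b : K} (ha : a ≠ 0)
    (hb : b ≠ 0) :
    symK v (chi K a σ, chi K a φ) (chi K b σ, chi K b φ) = 0 ↔ Iso2 v a b := by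
  have h2' : (2 : K) ≠ 0 := two_ne_K h2
  -- the case `ord a` even
  have key : ∀ {a b : K}, a ≠ 0 → b ≠ 0 → Even (ord v a) →
      (symK v (chi K a σ, chi K a φ) (chi K b σ, chi K b φ) = 0 ↔ Iso2 v a b) := by
    intro a b ha hb he
    rw [iso2_evenK h2 v ha hb he, h.isSquare_iff_of_even h2 ha he, ← h.chi_sg_eq_zero_iff h2' hb]
    have h0 := (h.chi_sg_eq_zero_iff h2' ha).2 he
    unfold symK
    rw [h0]
    have : ∀ x y z e : ZMod 2, 0 * x + y * z + e * (0 * z) = 0 ↔ z = 0 ∨ y = 0 := by decide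
    exact this _ _ _ _
  have hsw : symK v (chi K a σ, chi K a φ) (chi K b σ, chi K b φ) =
      symK v (chi K b σ, chi K b φ) (chi K a σ, chi K a φ) := by
    unfold symK
    ring
  by_cases hea : Even (ord v a)
  · exact key ha hb hea
  by_cases heb : Even (ord v b)
  · rw [hsw, key hb ha heb, iso2_swap]
  -- both orders are odd: replace `b` by `-a b`
  have hab : b * (0 ^ 2 - a * 1 ^ 2) ≠ 0 := by
    have h3 : b * (0 ^ 2 - a * 1 ^ 2) = -(a * b) := by ring
    rw [h3]
    exact neg_ne_zero.2 (mul_ne_zero ha hb)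
  have h3 := iso2_norm v a b 0 1 (by
    have : (0 : K) ^ 2 - a * 1 ^ 2 = -a := by ring
    rw [this]
    exact neg_ne_zero.2 ha)
  have hord : Even (ord v (b * (0 ^ 2 - a * 1 ^ 2))) := by
    have h4 : b * (0 ^ 2 - a * 1 ^ 2) = -(b * a) := by ring
    rw [h4, ord_neg, ord_mul v hb ha]
    exact (Int.not_even_iff_odd.1 heb).add_odd (Int.not_even_iff_odd.1 hea)
  have h5 := key hab ha hord
  rw [← h3, iso2_swap, ← h5]
  have h1a : chi K a σ = 1 := by
    have : ∀ x : ZMod 2, x ≠ 0 → x = 1 := by decide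
    exact this _ fun h0 => hea ((h.chi_sg_eq_zero_iff h2' ha).1 h0)
  have h1b : chi K b σ = 1 := by
    have : ∀ x : ZMod 2, x ≠ 0 → x = 1 := by decide
    exact this _ fun h0 => heb ((h.chi_sg_eq_zero_iff h2' hb).1 h0)
  have hn : (-1 : K) ≠ 0 := neg_ne_zero.2 one_ne_zero
  have hc : b * (0 ^ 2 - a * 1 ^ 2) = -1 * (b * a) := by ring
  have hcσ : chi K (b * (0 ^ 2 - a * 1 ^ 2)) σ = 0 := (h.chi_sg_eq_zero_iff h2' hab).2 hord
  have hcφ : chi K (b * (0 ^ 2 - a * 1 ^ 2)) φ = epsK v + (chi K b φ + chi K a φ) := by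
    rw [hc, Pool.Agent.SmF.chi_mul_elt h2' hn (mul_ne_zero hb ha), h.eps_eq h2,
      Pool.Agent.SmF.chi_mul_elt h2' hb ha]
  unfold symK
  rw [hcσ, hcφ, h1a, h1b]
  have : ∀ x y e : ZMod 2, 1 * y + x * 1 + e * (1 * 1) = 0 ↔
      0 * x + (e + (y + x)) * 1 + e * (0 * 1) = 0 := by decide
  exact this _ _ _

end main

end Pool.Agent.GBU
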