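import Pool.Agent.Lib.SmD.Basic

/-!
# GBU (SMITH-U): the values of a finite extension are the powers of one value

If the values of `K ˣ` are the powers of `w π` then, for every finite `L / K` in `Om`, the values of
`L ˣ` are the powers of the value of one element `Π` of `L`.
-/

set_option autoImplicit false

namespace Pool.Agent.GBU

open Pool.Agent.Lib.SmD

variable {K Om : Type*} [Field K] [Field Om] [Algebra K Om]

/-- `value_torsion` with a bound for the exponent. -/
theorem value_torsion_le {w : ValuationSubring Om} {π : K}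
    (disc : ∀ x : K, x ≠ 0 → ∃ n : ℤ,
      w.valuation (algebraMap K Om x) = w.valuation (algebraMap K Om π) ^ n)
    {x : Om} (hx : x ≠ 0) (hint : IsIntegral K x) :
    ∃ e : ℕ, 0 < e ∧ e ≤ (minpoly K x).natDegree ∧ ∃ j : ℤ,
      (w.valuation x) ^ e = (w.valuation (algebraMap K Om π)) ^ j := by
  classical
  set p := minpoly K x with hp
  have hne : p ≠ 0 := minpoly.ne_zero hint
  have hvx : w.valuation x ≠ 0 := (Valuation.ne_zero_iff _).2 hx
  have hsum : ∑ i ∈ p.support, algebraMap K Om (p.coeff i) * x ^ i = 0 := by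
    have h1 := minpoly.aeval K x
    rw [Polynomial.aeval_eq_sum_range' (lt_add_one _)] at h1
    rw [← h1]
    refine Finset.sum_subset ?_ ?_ |>.trans (Finset.sum_congr rfl fun i _ => ?_)
    · intro i hi
      rw [Finset.mem_range]
      exact Nat.lt_succ_of_le (Polynomial.le_natDegree_of_mem_supp i hi)
    · intro i _ hi
      rw [Polynomial.notMem_support_iff.1 hi, map_zero, zero_mul]
    · rw [Algebra.smul_def]
  have hsne : p.support.Nonempty := Polynomial.nonempty_support_iff.2 hne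
  obtain ⟨i0, hi0, hmax⟩ := Finset.exists_max_image p.support
    (fun i => w.valuation (algebraMap K Om (p.coeff i) * x ^ i)) hsne
  have hterm : ∀ i ∈ p.support, w.valuation (algebraMap K Om (p.coeff i) * x ^ i) ≠ 0 := by
    intro i hi
    rw [Valuation.ne_zero_iff]
    refine mul_ne_zero ?_ (pow_ne_zero _ hx)
    rw [map_ne_zero]
    exact Polynomial.mem_support_iff.1 hi
  obtain ⟨j, hj, hji, hjv⟩ : ∃ j ∈ p.support, j ≠ i0 ∧
      w.valuation (algebraMap K Om (p.coeff j) * x ^ j) =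
        w.valuation (algebraMap K Om (p.coeff i0) * x ^ i0) := by
    by_contra hcon
    push Not at hcon
    have hlt : ∀ j ∈ p.support.erase i0, w.valuation (algebraMap K Om (p.coeff j) * x ^ j) <
        w.valuation (algebraMap K Om (p.coeff i0) * x ^ i0) := fun j hj =>
      lt_of_le_of_ne (hmax j (Finset.mem_of_mem_erase hj))
        (hcon j (Finset.mem_of_mem_erase hj) (Finset.ne_of_mem_erase hj))
    have h2 : w.valuation (∑ j ∈ p.support.erase i0, algebraMap K Om (p.coeff j) * x ^ j) <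
        w.valuation (algebraMap K Om (p.coeff i0) * x ^ i0) :=
      Valuation.map_sum_lt _ (hterm i0 hi0) hlt
    have h3 : w.valuation (∑ i ∈ p.support, algebraMap K Om (p.coeff i) * x ^ i) =
        w.valuation (algebraMap K Om (p.coeff i0) * x ^ i0) := by
      rw [← Finset.add_sum_erase _ _ hi0]
      exact Valuation.map_add_eq_of_lt_left _ h2
    rw [hsum, map_zero] at h3
    exact hterm i0 hi0 h3.symm
  have key : ∀ a b : ℕ, a ∈ p.support → b ∈ p.support → a < b →
      w.valuation (algebraMap K Om (p.coeff a) * x ^ a) =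
        w.valuation (algebraMap K Om (p.coeff b) * x ^ b) →
      ∃ e : ℕ, 0 < e ∧ e ≤ p.natDegree ∧ ∃ j : ℤ,
        (w.valuation x) ^ e = (w.valuation (algebraMap K Om π)) ^ j := by
    intro a b ha hb hab hv
    have ha' : p.coeff a ≠ 0 := Polynomial.mem_support_iff.1 ha
    have hb' : p.coeff b ≠ 0 := Polynomial.mem_support_iff.1 hb
    obtain ⟨n, hn⟩ := disc (p.coeff a / p.coeff b) (div_ne_zero ha' hb')
    have hbd : b ≤ p.natDegree := Polynomial.le_natDegree_of_mem_supp b hb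
    refine ⟨b - a, by omega, by omega, n, ?_⟩
    rw [← hn, map_div₀, map_div₀]
    have hvb : w.valuation (algebraMap K Om (p.coeff b)) ≠ 0 := by
      rw [Valuation.ne_zero_iff, map_ne_zero]; exact hb'
    rw [eq_div_iff hvb]
    rw [map_mul, map_mul, map_pow, map_pow] at hv
    have h5 : w.valuation x ^ b = w.valuation x ^ (b - a) * w.valuation x ^ a := by
      rw [← pow_add]; congr 1; omega
    rw [h5, ← mul_assoc] at hv
    have h6 := mul_right_cancel₀ (pow_ne_zero a hvx) hv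
    rw [h6, mul_comm]
  rcases lt_or_gt_of_ne hji with hlt | hgt
  · exact key j i0 hj hi0 hlt hjv
  · exact key i0 j hi0 hj hgt hjv.symm

section group

variable {Γ : Type*} [LinearOrderedCommGroupWithZero Γ] {p : Γ}

theorem zpow_inj_of_lt (hp0 : p ≠ 0) (hp : p < 1) {m n : ℤ} (h : p ^ m = p ^ n) : m = n := by
  have hpos : 0 < p := zero_lt_iff.2 hp0
  have hanti : StrictAnti fun n : ℤ => p ^ n := zpow_right_strictAnti₀ hpos hp
  exact hanti.injective h

end group

theorem exists_unif {w : ValuationSubring Om} {π : K} (hπ : π ≠ 0)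
    (hlt : w.valuation (algebraMap K Om π) < 1)
    (disc : ∀ x : K, x ≠ 0 → ∃ n : ℤ,
      w.valuation (algebraMap K Om x) = w.valuation (algebraMap K Om π) ^ n)
    (L : IntermediateField K Om) [FiniteDimensional K L] :
    ∃ ϖ : Om, ϖ ∈ L ∧ ϖ ≠ 0 ∧ w.valuation ϖ < 1 ∧
      ∀ x ∈ L, x ≠ 0 → ∃ n : ℤ, w.valuation x = w.valuation ϖ ^ n := by
  classical
  set P := w.valuation (algebraMap K Om π) with hP
  have hP0 : P ≠ 0 := by
    rw [hP, Valuation.ne_zero_iff, map_ne_zero]; exact hπ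
  set D := (Module.finrank K L).factorial with hD
  have hDpos : 0 < D := Nat.factorial_pos _
  have htor : ∀ x ∈ L, x ≠ 0 → ∃ j : ℤ, w.valuation x ^ D = P ^ j := by
    intro x hxL hx
    have hint : IsIntegral K x := by
      have h1 : IsIntegral K (⟨x, hxL⟩ : L) := Algebra.IsIntegral.isIntegral _
      exact h1.map L.val
    obtain ⟨e, he, hle, j, hj⟩ := value_torsion_le disc hx hint
    have hdeg : (minpoly K x).natDegree ≤ Module.finrank K L := by
      have h1 : minpoly K x = minpoly K (⟨x, hxL⟩ : L) :=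
        (minpoly.algebraMap_eq (B' := Om) (algebraMap L Om).injective (⟨x, hxL⟩ : L))
      rw [h1]
      exact minpoly.natDegree_le _
    obtain ⟨m, hm⟩ : e ∣ D := Nat.dvd_factorial he (hle.trans hdeg)
    refine ⟨j * m, ?_⟩
    rw [hm, pow_mul, hj, zpow_mul, zpow_natCast]
  have hval0 : ∀ x : Om, x ≠ 0 → w.valuation x ≠ 0 := fun x hx => (Valuation.ne_zero_iff _).2 hx
  -- the smallest positive exponent
  have hex : ∃ n : ℕ, 0 < n ∧ ∃ x ∈ L, x ≠ 0 ∧ w.valuation x ^ D = P ^ n := by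
    refine ⟨D, hDpos, algebraMap K Om π, L.algebraMap_mem π, ?_, rfl⟩
    rw [Ne, map_eq_zero]; exact hπ
  obtain ⟨hg, ϖ, hϖL, hϖ0, hϖ⟩ := Nat.find_spec hex
  set g := Nat.find hex with hgdef
  have hlt1 : w.valuation ϖ < 1 := by
    have h1 : w.valuation ϖ ^ D < 1 := by
      rw [hϖ]
      exact pow_lt_one₀ zero_le hlt hg.ne'
    by_contra h2
    exact absurd (one_le_pow₀ (not_lt.1 h2) (n := D)) (not_le.2 h1)
  refine ⟨ϖ, hϖL, hϖ0, hlt1, fun x hxL hx => ?_⟩
  obtain ⟨j, hj⟩ := htor x hxL hx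
  refine ⟨j / g, ?_⟩
  -- `y = x / ϖ ^ (j / g)` has exponent `j % g`
  have hyL : x * (ϖ ^ (j / (g : ℤ)))⁻¹ ∈ L := L.mul_mem hxL (L.inv_mem (zpow_mem hϖL _))
  have hy0 : x * (ϖ ^ (j / (g : ℤ)))⁻¹ ≠ 0 := mul_ne_zero hx (inv_ne_zero (zpow_ne_zero _ hϖ0))
  have hyv : w.valuation (x * (ϖ ^ (j / (g : ℤ)))⁻¹) ^ D = P ^ (j % (g : ℤ)) := by
    have h1 : (w.valuation ϖ ^ (j / (g : ℤ))) ^ D = (P ^ g) ^ (j / (g : ℤ)) := by
      rw [← hϖ, ← zpow_natCast, ← zpow_natCast, ← zpow_mul, ← zpow_mul, mul_comm]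
    rw [map_mul, map_inv₀, map_zpow₀, mul_pow, inv_pow, h1, hj, ← zpow_natCast, ← zpow_mul,
      ← zpow_neg, ← zpow_add₀ hP0]
    congr 1
    have := Int.emod_def j g
    omega
  have hr0 : 0 ≤ j % (g : ℤ) := Int.emod_nonneg _ (by exact_mod_cast hg.ne')
  have hrg : j % (g : ℤ) < g := Int.emod_lt_of_pos _ (by exact_mod_cast hg)
  obtain ⟨r, hr⟩ := Int.eq_ofNat_of_zero_le hr0
  rw [hr] at hyv hrg
  have hr1 : r = 0 := by
    by_contra hne
    have h1 : r < Nat.find hex := by
      rw [← hgdef]; exact_mod_cast hrg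
    exact Nat.find_min hex h1 ⟨Nat.pos_of_ne_zero hne, _, hyL, hy0, by rw [hyv, zpow_natCast]⟩
  rw [hr1, Nat.cast_zero, zpow_zero] at hyv
  have h1 : w.valuation (x * (ϖ ^ (j / (g : ℤ)))⁻¹) = 1 :=
    (pow_eq_one_iff_of_nonneg zero_le hDpos.ne').1 hyv
  rw [map_mul, map_inv₀, map_zpow₀] at h1
  exact (mul_inv_eq_one₀ (zpow_ne_zero _ (hval0 _ hϖ0))).1 h1

end Pool.Agent.GBU
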