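import Pool.Agent.Lib.GBU.NP
import Pool.Agent.Lib.GBU.Unif
import Pool.Agent.Lib.SmD.Frob

/-!
# GBU (SMITH-U): tame inertia

`N` an open normal subgroup of `Gal(Om / K)` of index prime to the characteristic. The image of the
inertia group `iner K w` in `Gal(Om / K) / N` is cyclic (`tame_gen`) and every Frobenius element acts
on it by raising to the power `q`, `q` the cardinality of the residue field of `K` (`tame_frob`).

Proof: `L` = the fixed field of `N`, `ϖ ∈ L` with `w(L ˣ) = w(ϖ) ^ ℤ`; `σ ↦ σ ϖ / ϖ` modulo the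
maximal ideal of `w` is a homomorphism from `iner K w` to the units of the residue field with kernel
`iner K w ⊓ N`.
-/

set_option autoImplicit false

open IsLocalRing

namespace Pool.Agent.GBU

open Pool.Agent.Lib.SmD Pool.Agent.SmD

variable {K Om : Type*} [Field K] [Field Om] [Algebra K Om]

/-- Nonzero integers are units at `w` (`w` of equal characteristic). -/
def CharOk (w : ValuationSubring Om) : Prop := ∀ n : ℕ, (n : Om) ≠ 0 → w.valuation (n : Om) = 1

/-- The residue class of `x` (`0` if `x ∉ w`). -/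
noncomputable def rr (w : ValuationSubring Om) (x : Om) : ResidueField w :=
  open Classical in if h : x ∈ w then residue w ⟨x, h⟩ else 0

theorem rr_of_mem {w : ValuationSubring Om} {x : Om} (h : x ∈ w) : rr w x = residue w ⟨x, h⟩ :=
  dif_pos h

theorem rr_one (w : ValuationSubring Om) : rr w 1 = 1 := by
  rw [rr_of_mem w.one_mem]
  exact map_one _

theorem rr_mul {w : ValuationSubring Om} {x y : Om} (hx : x ∈ w) (hy : y ∈ w) :
    rr w (x * y) = rr w x * rr w y := by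
  rw [rr_of_mem (mul_mem hx hy), rr_of_mem hx, rr_of_mem hy, ← map_mul]
  rfl

theorem rr_pow {w : ValuationSubring Om} {x : Om} (hx : x ∈ w) (n : ℕ) :
    rr w (x ^ n) = rr w x ^ n := by
  rw [rr_of_mem (pow_mem hx n), rr_of_mem hx, ← map_pow]
  rfl

theorem rr_eq_iff {w : ValuationSubring Om} {x y : Om} (hx : x ∈ w) (hy : y ∈ w) :
    rr w x = rr w y ↔ w.valuation (x - y) < 1 := by
  rw [rr_of_mem hx, rr_of_mem hy, residue_eq_iff w hx hy]

theorem mem_of_val {w : ValuationSubring Om} {x : Om} (h : w.valuation x = 1) : x ∈ w :=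
  (ValuationSubring.valuation_le_one_iff w x).1 h.le

theorem rr_iner {w : ValuationSubring Om} {σ : Om ≃ₐ[K] Om} (hσ : σ ∈ iner K w) {x : Om}
    (hx : x ∈ w) : rr w (σ x) = rr w x := by
  have h1 : σ x ∈ w := ((mem_dec K).1 hσ.1 x).2 hx
  rw [rr_eq_iff h1 hx]
  exact hσ.2 x hx

theorem rr_frob {w : ValuationSubring Om} {φ : Om ≃ₐ[K] Om} (hφ : IsFrob K w φ) {x : Om}
    (hx : x ∈ w) : rr w (φ x) = rr w x ^ resCard (below K w) := by
  have h1 : φ x ∈ w := ((mem_dec K).1 hφ.mem x).2 hx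
  rw [← rr_pow hx, rr_eq_iff h1 (pow_mem hx _)]
  exact hφ.frob x hx

section ratio

variable [Algebra.IsAlgebraic K Om]

theorem val_ratio {w : ValuationSubring Om} {σ : Om ≃ₐ[K] Om} (hσ : σ ∈ dec K w) {a : Om}
    (ha : a ≠ 0) : w.valuation (σ a / a) = 1 := by
  rw [map_div₀, dec_val_inv hσ]
  exact div_self ((Valuation.ne_zero_iff _).2 ha)

theorem ratio_mem {w : ValuationSubring Om} {σ : Om ≃ₐ[K] Om} (hσ : σ ∈ dec K w) {a : Om}
    (ha : a ≠ 0) : σ a / a ∈ w := mem_of_val (val_ratio hσ ha)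

theorem ratio_eq {w : ValuationSubring Om} {σ : Om ≃ₐ[K] Om} (hσ : σ ∈ iner K w) {a b : Om}
    (ha : a ≠ 0) (hb : b ≠ 0) (hab : w.valuation a = w.valuation b) :
    rr w (σ a / a) = rr w (σ b / b) := by
  have hu : w.valuation (a / b) = 1 := by
    rw [map_div₀, hab]
    exact div_self ((Valuation.ne_zero_iff _).2 hb)
  have hum := mem_of_val hu
  have hu0 : a / b ≠ 0 := div_ne_zero ha hb
  have h1 : σ a / a * (a / b) = σ (a / b) * (σ b / b) := by
    have hσb : σ b ≠ 0 := (_root_.map_ne_zero σ).2 hb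
    rw [map_div₀]
    field_simp
  have h2 := congrArg (rr w) h1
  rw [rr_mul (ratio_mem hσ.1 ha) hum, rr_mul (((mem_dec K).1 hσ.1 _).2 hum) (ratio_mem hσ.1 hb),
    rr_iner hσ hum, mul_comm (rr w (a / b))] at h2
  refine mul_right_cancel₀ ?_ h2
  rw [rr_of_mem hum, Ne, residue_eq_zero_iff, ValuationSubring.valuation_lt_one_iff]
  change ¬ w.valuation (a / b) < 1
  rw [hu]
  exact lt_irrefl _

theorem ratio_mul {w : ValuationSubring Om} {σ τ : Om ≃ₐ[K] Om} (hσ : σ ∈ iner K w)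
    (hτ : τ ∈ iner K w) {a : Om} (ha : a ≠ 0) :
    rr w ((σ * τ) a / a) = rr w (σ a / a) * rr w (τ a / a) := by
  have hτm := ratio_mem hτ.1 ha
  have hσa : σ a ≠ 0 := (_root_.map_ne_zero σ).2 ha
  have h1 : (σ * τ) a / a = σ (τ a / a) * (σ a / a) := by
    rw [AlgEquiv.mul_apply, map_div₀]
    field_simp
  rw [h1, rr_mul (((mem_dec K).1 hσ.1 _).2 hτm) (ratio_mem hσ.1 ha), rr_iner hσ hτm, mul_comm]

theorem ratio_frob {w : ValuationSubring Om} {φ σ : Om ≃ₐ[K] Om} (hφ : IsFrob K w φ)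
    (hσ : σ ∈ iner K w) {a : Om} (ha : a ≠ 0) :
    rr w ((φ * σ * φ⁻¹) a / a) = rr w (σ a / a) ^ resCard (below K w) := by
  set a' := φ⁻¹ a with ha'
  have ha0 : a' ≠ 0 := by
    intro h
    apply ha
    have h1 : φ a' = a := by
      rw [ha', ← AlgEquiv.mul_apply, mul_inv_cancel, AlgEquiv.one_apply]
    rw [← h1, h, map_zero]
  have h1 : φ a' = a := by
    rw [ha', ← AlgEquiv.mul_apply, mul_inv_cancel, AlgEquiv.one_apply]
  have h2 : (φ * σ * φ⁻¹) a / a = φ (σ a' / a') := by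
    rw [map_div₀, h1]
    rfl
  have hv : w.valuation a' = w.valuation a := dec_val_inv ((dec K w).inv_mem hφ.mem) a
  rw [h2, rr_frob hφ (ratio_mem hσ.1 ha0), ratio_eq hσ ha0 ha hv]

omit [Algebra.IsAlgebraic K Om] in
theorem ratio_one {w : ValuationSubring Om} {a : Om} (ha : a ≠ 0) :
    rr w ((1 : Om ≃ₐ[K] Om) a / a) = 1 := by
  rw [AlgEquiv.one_apply, div_self ha, rr_one]

theorem ratio_pow {w : ValuationSubring Om} {σ : Om ≃ₐ[K] Om} (hσ : σ ∈ iner K w) {a : Om}
    (ha : a ≠ 0) (n : ℕ) : rr w ((σ ^ n) a / a) = rr w (σ a / a) ^ n := by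
  induction n with
  | zero => rw [pow_zero, pow_zero]; exact ratio_one ha
  | succ n ih => rw [pow_succ, ratio_mul ((iner K w).pow_mem hσ n) hσ ha, ih, pow_succ]

theorem ratio_eq_one_iff {w : ValuationSubring Om} {σ : Om ≃ₐ[K] Om} (hσ : σ ∈ dec K w) {a : Om}
    (ha : a ≠ 0) : rr w (σ a / a) = 1 ↔ w.valuation (σ a - a) < w.valuation a := by
  have hva : 0 < w.valuation a := zero_lt_iff.2 ((Valuation.ne_zero_iff _).2 ha)
  rw [← rr_one, rr_eq_iff (ratio_mem hσ ha) w.one_mem]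
  have h1 : σ a / a - 1 = (σ a - a) / a := by field_simp
  rw [h1, map_div₀, div_lt_one₀ hva]

end ratio

/-- An automorphism of finite order prime to the characteristic which is trivial on `a mod a m_w`,
`a ∈ L`, is trivial on `L`. -/
theorem tame_fix [Algebra.IsAlgebraic K Om] {w : ValuationSubring Om} {σ : Om ≃ₐ[K] Om}
    (hσ : σ ∈ dec K w) (L : IntermediateField K Om) (hL : ∀ x ∈ L, σ x ∈ L)
    (h : ∀ a ∈ L, a ≠ 0 → w.valuation (σ a - a) < w.valuation a) {n : ℕ}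
    (hn0 : (n : Om) ≠ 0) (hn : w.valuation (n : Om) = 1) (hσn : ∀ x ∈ L, (σ ^ n) x = x) :
    ∀ x ∈ L, σ x = x := by
  have hLi : ∀ (i : ℕ), ∀ x ∈ L, (σ ^ i) x ∈ L := by
    intro i
    induction i with
    | zero => intro x hx; exact hx
    | succ i ih =>
      intro x hx
      rw [pow_succ', AlgEquiv.mul_apply]
      exact hL _ (ih x hx)
  have hi : ∀ (i : ℕ), ∀ a ∈ L, a ≠ 0 → w.valuation ((σ ^ i) a - a) < w.valuation a := by
    intro i
    induction i with
    | zero =>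
      intro a _ ha0
      rw [pow_zero, AlgEquiv.one_apply, sub_self, map_zero]
      exact zero_lt_iff.2 ((Valuation.ne_zero_iff _).2 ha0)
    | succ i ih =>
      intro a ha ha0
      have h1 : (σ ^ (i + 1)) a - a = σ ((σ ^ i) a - a) + (σ a - a) := by
        rw [pow_succ', AlgEquiv.mul_apply, map_sub]
        ring
      rw [h1]
      refine lt_of_le_of_lt (w.valuation.map_add _ _) (max_lt ?_ (h a ha ha0))
      rw [dec_val_inv hσ]
      exact ih a ha ha0
  intro x hx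
  set S := ∑ i ∈ Finset.range n, (σ ^ i) x with hS
  have hSfix : σ S = S := by
    rw [hS, map_sum]
    have h1 : ∀ i ∈ Finset.range n, σ ((σ ^ i) x) = (σ ^ (i + 1)) x := fun i _ => by
      rw [pow_succ', AlgEquiv.mul_apply]
    rw [Finset.sum_congr rfl h1]
    have h2 := Finset.sum_range_succ (fun i => (σ ^ i) x) n
    have h3 := Finset.sum_range_succ' (fun i => (σ ^ i) x) n
    rw [h2] at h3
    rw [hσn x hx, pow_zero, AlgEquiv.one_apply] at h3
    exact (add_right_cancel h3).symm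
  have hSL : S ∈ L := sum_mem fun i _ => hLi i x hx
  set c := x - (n : Om)⁻¹ * S with hc
  have hnL : (n : Om)⁻¹ ∈ L := L.inv_mem (natCast_mem L n)
  have hcL : c ∈ L := sub_mem hx (mul_mem hnL hSL)
  have hSi : ∀ i : ℕ, (σ ^ i) S = S := by
    intro i
    induction i with
    | zero => rfl
    | succ i ih => rw [pow_succ, AlgEquiv.mul_apply, hSfix, ih]
  have hsum : ∑ i ∈ Finset.range n, (σ ^ i) c = 0 := by
    have h1 : ∀ i ∈ Finset.range n, (σ ^ i) c = (σ ^ i) x - (n : Om)⁻¹ * S := fun i _ => by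
      rw [hc, map_sub, map_mul, map_inv₀, map_natCast, hSi]
    rw [Finset.sum_congr rfl h1, Finset.sum_sub_distrib, Finset.sum_const, Finset.card_range,
      nsmul_eq_mul, ← mul_assoc, mul_inv_cancel₀ hn0, one_mul, hS, sub_self]
  have hc0 : c = 0 := by
    by_contra hne
    have h1 : ∑ i ∈ Finset.range n, (σ ^ i) c = (n : Om) * c +
        ∑ i ∈ Finset.range n, ((σ ^ i) c - c) := by
      rw [Finset.sum_sub_distrib, Finset.sum_const, Finset.card_range, nsmul_eq_mul]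
      ring
    have hvc : w.valuation c ≠ 0 := (Valuation.ne_zero_iff _).2 hne
    have h2 : w.valuation (∑ i ∈ Finset.range n, ((σ ^ i) c - c)) < w.valuation c :=
      Valuation.map_sum_lt _ hvc fun i _ => hi i c hcL hne
    have h3 : w.valuation ((n : Om) * c) = w.valuation c := by rw [map_mul, hn, one_mul]
    have h4 : w.valuation ((n : Om) * c + ∑ i ∈ Finset.range n, ((σ ^ i) c - c)) =
        w.valuation ((n : Om) * c) :=
      Valuation.map_add_eq_of_lt_left _ (by rw [h3]; exact h2)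
    rw [← h1, hsum, map_zero, h3] at h4
    exact hvc h4.symm
  have h1 : x = (n : Om)⁻¹ * S := by
    rw [hc] at hc0
    exact sub_eq_zero.1 hc0
  rw [h1, map_mul, map_inv₀, map_natCast, hSfix]

section main

variable [IsGalois K Om] {w : ValuationSubring Om} {π : K}

/-- The tame character. -/
theorem exists_ratio (h : LocHyp K w π) (hw : CharOk w) {N : Subgroup (Om ≃ₐ[K] Om)}
    (hN : N ∈ NP K Om) : ∃ ϖ : Om, ϖ ≠ 0 ∧
      ∀ σ ∈ iner K w, rr w (σ ϖ / ϖ) = 1 ↔ σ ∈ N := by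
  obtain ⟨L, hL, hLg, -, rfl⟩ := exists_field_of_mem_NP hN
  obtain ⟨ϖ, hϖL, hϖ0, -, hval⟩ := exists_unif h.pi_ne h.pi_lt h.disc L
  refine ⟨ϖ, hϖ0, fun σ hσ => ⟨fun h1 => ?_, fun h1 => ?_⟩⟩
  · have hNn := NP.normal hN
    have hLσ : ∀ x ∈ L, σ x ∈ L := by
      intro x hx
      have h2 := AlgEquiv.restrictNormal_commutes σ L ⟨x, hx⟩
      have h3 : ((AlgEquiv.restrictNormal σ L ⟨x, hx⟩ : L) : Om) = σ x := h2
      rw [← h3]
      exact Subtype.mem _
    have hidx : σ ^ L.fixingSubgroup.index ∈ L.fixingSubgroup := Subgroup.pow_index_mem _ σ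
    have hn0 : ((L.fixingSubgroup.index : ℕ) : Om) ≠ 0 := by
      have h2 := NP.index_ne hN
      rw [← map_natCast (algebraMap K Om)]
      exact (_root_.map_ne_zero _).2 h2
    rw [IntermediateField.mem_fixingSubgroup_iff]
    refine tame_fix hσ.1 L hLσ ?_ hn0 (hw _ hn0) ?_
    · intro a haL ha0
      rw [← ratio_eq_one_iff hσ.1 ha0]
      obtain ⟨n, hn⟩ := hval a haL ha0
      have hzn : ϖ ^ n ≠ 0 := zpow_ne_zero _ hϖ0
      rw [ratio_eq hσ ha0 hzn (by rw [hn, map_zpow₀])]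
      -- powers of `ϖ`
      have hnat : ∀ m : ℕ, rr w (σ (ϖ ^ m) / ϖ ^ m) = 1 := by
        intro m
        rw [map_pow, ← div_pow, rr_pow (ratio_mem hσ.1 hϖ0), h1, one_pow]
      obtain ⟨m, rfl | rfl⟩ := n.eq_nat_or_neg
      · rw [zpow_natCast]
        exact hnat m
      · rw [zpow_neg, zpow_natCast, ratio_eq_one_iff hσ.1 (inv_ne_zero (pow_ne_zero _ hϖ0))]
        have h2 := (ratio_eq_one_iff hσ.1 (pow_ne_zero m hϖ0)).1 (hnat m)
        have hb0 : ϖ ^ m ≠ 0 := pow_ne_zero _ hϖ0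
        have hσb : σ (ϖ ^ m) ≠ 0 := (_root_.map_ne_zero σ).2 hb0
        have hv : w.valuation (σ (ϖ ^ m)) = w.valuation (ϖ ^ m) := dec_val_inv hσ.1 _
        have hvb : 0 < w.valuation (ϖ ^ m) := zero_lt_iff.2 ((Valuation.ne_zero_iff _).2 hb0)
        have h3 : σ (ϖ ^ m)⁻¹ - (ϖ ^ m)⁻¹ = -(σ (ϖ ^ m) - ϖ ^ m) * ((σ (ϖ ^ m))⁻¹ * (ϖ ^ m)⁻¹) := by
          rw [map_inv₀]
          field_simp
          ring
        rw [h3, map_mul, Valuation.map_neg, map_mul, map_inv₀, map_inv₀, hv]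
        rw [← mul_assoc]
        have h4 : w.valuation (σ (ϖ ^ m) - ϖ ^ m) * (w.valuation (ϖ ^ m))⁻¹ < 1 := by
          rw [← div_eq_mul_inv, div_lt_one₀ hvb]
          exact h2
        calc _ < 1 * (w.valuation (ϖ ^ m))⁻¹ := by
              exact mul_lt_mul_of_pos_right h4 (inv_pos.2 hvb)
          _ = _ := one_mul _
    · intro x hx
      exact (IntermediateField.mem_fixingSubgroup_iff _ _).1 hidx x hx
  · rw [(IntermediateField.mem_fixingSubgroup_iff _ _).1 h1 ϖ hϖL, div_self hϖ0, rr_one]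

/-- The image of the inertia group in `Gal(Om / K) / N` is cyclic. -/
theorem tame_gen (h : LocHyp K w π) (hw : CharOk w) {N : Subgroup (Om ≃ₐ[K] Om)}
    (hN : N ∈ NP K Om) : ∃ τ ∈ iner K w, ∀ σ ∈ iner K w, ∃ n : ℕ, (τ ^ n)⁻¹ * σ ∈ N := by
  obtain ⟨ϖ, hϖ0, hker⟩ := exists_ratio h hw hN
  have hNn := NP.normal hN
  have hfi := NP.finiteIndex hN
  let f : iner K w →* ResidueField w :=
    { toFun := fun σ => rr w (σ.1 ϖ / ϖ)
      map_one' := ratio_one hϖ0
      map_mul' := fun σ τ => ratio_mul σ.2 τ.2 hϖ0 }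
  have hf : ∀ σ : iner K w, f σ = 1 ↔ σ.1 ∈ N := fun σ => hker σ.1 σ.2
  let M : Subgroup (iner K w) := N.subgroupOf (iner K w)
  let g : (iner K w ⧸ M) →* ResidueField w := QuotientGroup.lift M f fun σ hσ => (hf σ).2 hσ
  have hg : Function.Injective g := by
    rw [injective_iff_map_eq_one]
    intro x
    refine QuotientGroup.induction_on x fun σ hσ => ?_
    rw [QuotientGroup.eq_one_iff]
    exact (hf σ).1 hσ
  have hfinM : M.FiniteIndex := inferInstance
  have hfin : Finite (iner K w ⧸ M) := inferInstance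
  have hcyc : IsCyclic (iner K w ⧸ M) := isCyclic_of_injective_ringHom g hg
  obtain ⟨t, ht⟩ := hcyc.exists_generator
  obtain ⟨τ, rfl⟩ := QuotientGroup.mk_surjective t
  refine ⟨τ.1, τ.2, fun σ hσ => ?_⟩
  have h1 := ht (QuotientGroup.mk ⟨σ, hσ⟩)
  rw [← mem_powers_iff_mem_zpowers, Submonoid.mem_powers_iff] at h1
  obtain ⟨n, hn⟩ := h1
  refine ⟨n, ?_⟩
  rw [← QuotientGroup.mk_pow] at hn
  have h2 : (τ ^ n)⁻¹ * ⟨σ, hσ⟩ ∈ M := QuotientGroup.eq.1 hn
  exact h2

/-- A Frobenius element acts on the inertia group modulo `N` as `σ ↦ σ ^ q`. -/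
theorem tame_frob (h : LocHyp K w π) (hw : CharOk w) {N : Subgroup (Om ≃ₐ[K] Om)}
    (hN : N ∈ NP K Om) {φ σ : Om ≃ₐ[K] Om} (hφ : IsFrob K w φ) (hσ : σ ∈ iner K w) :
    (σ ^ resCard (below K w))⁻¹ * (φ * σ * φ⁻¹) ∈ N := by
  obtain ⟨ϖ, hϖ0, hker⟩ := exists_ratio h hw hN
  have h1 : φ * σ * φ⁻¹ ∈ iner K w := iner_conj hφ.mem hσ
  have h2 : σ ^ resCard (below K w) ∈ iner K w := (iner K w).pow_mem hσ _
  have h3 : (σ ^ resCard (below K w))⁻¹ ∈ iner K w := (iner K w).inv_mem h2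
  rw [← hker _ ((iner K w).mul_mem h3 h1), ratio_mul h3 h1 hϖ0, ratio_frob hφ hσ hϖ0,
    ← ratio_pow hσ hϖ0, ← ratio_mul h3 h2 hϖ0, inv_mul_cancel]
  exact ratio_one hϖ0

end main

end Pool.Agent.GBU
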